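import Pool.Agent.Helper99.ERW.PlaneLyap

namespace Pool.Agent.Helper99.ERW

/-- half of the difference of the two second differences of the Lyapunov function -/
noncomputable def dlyap (a b : ℝ) (z : Site 2) : ℝ :=
  (secondDiff (lyap a b) 0 z - secondDiff (lyap a b) 1 z) / 2

lemma sq_le_qf {a b : ℝ} (ha : 0 < a) (hb : 0 < b) (hab : a + b = 1) (x : Site 2) :
    (x 0 : ℝ) ^ 2 + (x 1 : ℝ) ^ 2 ≤ qf a b x := by
  unfold qf
  have h0 : (x 0 : ℝ) ^ 2 ≤ (x 0 : ℝ) ^ 2 / a := by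
    rw [le_div_iff₀ ha]
    nlinarith [sq_nonneg (x 0 : ℝ)]
  have h1 : (x 1 : ℝ) ^ 2 ≤ (x 1 : ℝ) ^ 2 / b := by
    rw [le_div_iff₀ hb]
    nlinarith [sq_nonneg (x 1 : ℝ)]
  linarith

lemma sq_le_of_notMem_box {N : ℕ} {x : Site 2} (hx : x ∉ box 2 N) :
    ((N : ℝ) + 1) ^ 2 ≤ (x 0 : ℝ) ^ 2 + (x 1 : ℝ) ^ 2 := by
  rw [mem_box] at hx
  push Not at hx
  obtain ⟨l, hl⟩ := hx
  have h1 : (N : ℤ) + 1 ≤ |x l| := by omega
  have h2 : (N : ℝ) + 1 ≤ |(x l : ℝ)| := by exact_mod_cast h1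
  have h3 : ((N : ℝ) + 1) ^ 2 ≤ (x l : ℝ) ^ 2 := by
    rw [← sq_abs (x l : ℝ)]
    gcongr
  fin_cases l
  · simp only [Fin.zero_eta] at h3
    nlinarith [sq_nonneg (x 1 : ℝ)]
  · simp only [Fin.mk_one] at h3
    nlinarith [sq_nonneg (x 0 : ℝ)]

theorem lyap_spec {a b : ℝ} (ha : 0 < a) (hb : 0 < b) (hab : a + b = 1) :
    ∃ (R : ℕ) (C : ℝ), 0 ≤ C ∧
      (∀ x ∉ box 2 R, a * secondDiff (lyap a b) 0 x + b * secondDiff (lyap a b) 1 x ≤ 0) ∧
      (∀ N, ∑ z ∈ box 2 N \ box 2 R, max (dlyap a b z) 0 ≤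
        Real.log N / Real.sqrt (a * b) + C) ∧
      (∀ N, ∑ z ∈ box 2 N \ box 2 R, max (-dlyap a b z) 0 ≤
        Real.log N / Real.sqrt (a * b) + C) ∧
      (∀ N, R ≤ N → ∀ x ∉ box 2 N, Real.log N ≤ lyap a b x) := by
  have hab0 : 0 < a * b := mul_pos ha hb
  have hsq : 0 < Real.sqrt (a * b) := Real.sqrt_pos.mpr hab0
  set r := 1 / (a * b) with hr
  have hr0 : 0 < r := by positivity
  set R := ⌈23 * r⌉₊ with hR
  have hRr : 23 * r ≤ R := Nat.le_ceil _
  have hfar : ∀ x ∉ box 2 R, 23 * (1 / (a * b)) ≤ qf a b x := by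
    intro x hx
    have h1 := sq_le_of_notMem_box hx
    have h2 := sq_le_qf ha hb hab x
    have h3 : (0 : ℝ) ≤ R := Nat.cast_nonneg R
    rw [← hr]
    nlinarith
  have hx0 : ∀ x ∉ box 2 R, x ≠ 0 := by
    rintro x hx rfl
    apply hx
    rw [mem_box]
    intro l
    simp
  set C := 1 / (2 * (a * b)) * (4 + 2 * Real.sqrt (a * b)) + 123 * r ^ 2 * 75 with hC
  -- common estimate of the error sum
  have herr : ∀ N, ∑ z ∈ box 2 N \ box 2 R, 123 * (1 / (a * b)) ^ 2 * (1 / (qf a b z) ^ 2) ≤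
      123 * r ^ 2 * 75 := by
    intro N
    rw [← Finset.mul_sum]
    refine mul_le_mul_of_nonneg_left ?_ (by positivity)
    refine le_trans ?_ (sum_box_inv_sq_sq N)
    refine (Finset.sum_le_sum (g := fun z : Site 2 => 1 / ((z 0 : ℝ) ^ 2 + (z 1 : ℝ) ^ 2) ^ 2)
      fun z hz => ?_).trans ?_
    · have hz' := (Finset.mem_sdiff.mp hz).2
      have h1 := sq_le_qf ha hb hab z
      have h2 := sq_le_of_notMem_box hz'
      have h3 : 0 < (z 0 : ℝ) ^ 2 + (z 1 : ℝ) ^ 2 := by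
        have : (0 : ℝ) < ((R : ℝ) + 1) ^ 2 := by positivity
        linarith
      gcongr
    · refine Finset.sum_le_sum_of_subset_of_nonneg ?_ fun z _ _ => by positivity
      intro z hz
      rw [Finset.mem_sdiff] at hz
      exact Finset.mem_filter.mpr ⟨hz.1, hx0 z hz.2⟩
  have hcoef : 1 / (2 * (a * b)) * (2 * Real.sqrt (a * b)) = 1 / Real.sqrt (a * b) := by
    have h1 : Real.sqrt (a * b) * Real.sqrt (a * b) = a * b := Real.mul_self_sqrt hab0.le
    rw [eq_div_iff hsq.ne']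
    calc 1 / (2 * (a * b)) * (2 * Real.sqrt (a * b)) * Real.sqrt (a * b) =
        1 / (2 * (a * b)) * 2 * (Real.sqrt (a * b) * Real.sqrt (a * b)) := by ring
      _ = 1 := by rw [h1]; field_simp
  refine ⟨R, C, by positivity, fun x hx => base_lyap_le ha hb hab x (hfar x hx), ?_, ?_, ?_⟩
  · intro N
    have h1 : ∀ z ∈ box 2 N \ box 2 R, max (dlyap a b z) 0 ≤
        1 / (2 * (a * b)) * (max ((z 1 : ℝ) ^ 2 / b - (z 0 : ℝ) ^ 2 / a) 0 / (qf a b z) ^ 2) +
        123 * (1 / (a * b)) ^ 2 * (1 / (qf a b z) ^ 2) := by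
      intro z hz
      rw [Finset.mem_sdiff] at hz
      refine max_le (diff_lyap_le ha hb hab z (hfar z hz.2)).1 ?_
      have : 0 ≤ max ((z 1 : ℝ) ^ 2 / b - (z 0 : ℝ) ^ 2 / a) 0 := le_max_right _ _
      positivity
    refine (Finset.sum_le_sum h1).trans ?_
    rw [Finset.sum_add_distrib, ← Finset.mul_sum]
    have h2 : ∑ z ∈ box 2 N \ box 2 R,
        max ((z 1 : ℝ) ^ 2 / b - (z 0 : ℝ) ^ 2 / a) 0 / (qf a b z) ^ 2 ≤
        2 * Real.sqrt (a * b) * Real.log N + (4 * b + 2 * Real.sqrt (a * b)) := by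
      refine le_trans ?_ (sum_main₁ ha hb N)
      refine Finset.sum_le_sum_of_subset_of_nonneg Finset.sdiff_subset fun z _ _ => ?_
      have : 0 ≤ max ((z 1 : ℝ) ^ 2 / b - (z 0 : ℝ) ^ 2 / a) 0 := le_max_right _ _
      positivity
    have h3 := herr N
    have h4 : 1 / (2 * (a * b)) * ∑ z ∈ box 2 N \ box 2 R,
        max ((z 1 : ℝ) ^ 2 / b - (z 0 : ℝ) ^ 2 / a) 0 / (qf a b z) ^ 2 ≤
        Real.log N / Real.sqrt (a * b) + 1 / (2 * (a * b)) * (4 + 2 * Real.sqrt (a * b)) := by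
      calc _ ≤ 1 / (2 * (a * b)) * (2 * Real.sqrt (a * b) * Real.log N +
            (4 * b + 2 * Real.sqrt (a * b))) := mul_le_mul_of_nonneg_left h2 (by positivity)
        _ ≤ 1 / (2 * (a * b)) * (2 * Real.sqrt (a * b) * Real.log N +
            (4 + 2 * Real.sqrt (a * b))) := by
            gcongr
            linarith
        _ = 1 / (2 * (a * b)) * (2 * Real.sqrt (a * b)) * Real.log N +
            1 / (2 * (a * b)) * (4 + 2 * Real.sqrt (a * b)) := by ring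
        _ = _ := by rw [hcoef]; ring
    rw [hC]
    linarith
  · intro N
    have h1 : ∀ z ∈ box 2 N \ box 2 R, max (-dlyap a b z) 0 ≤
        1 / (2 * (a * b)) * (max ((z 0 : ℝ) ^ 2 / a - (z 1 : ℝ) ^ 2 / b) 0 / (qf a b z) ^ 2) +
        123 * (1 / (a * b)) ^ 2 * (1 / (qf a b z) ^ 2) := by
      intro z hz
      rw [Finset.mem_sdiff] at hz
      refine max_le (diff_lyap_le ha hb hab z (hfar z hz.2)).2 ?_
      have : 0 ≤ max ((z 0 : ℝ) ^ 2 / a - (z 1 : ℝ) ^ 2 / b) 0 := le_max_right _ _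
      positivity
    refine (Finset.sum_le_sum h1).trans ?_
    rw [Finset.sum_add_distrib, ← Finset.mul_sum]
    have h2 : ∑ z ∈ box 2 N \ box 2 R,
        max ((z 0 : ℝ) ^ 2 / a - (z 1 : ℝ) ^ 2 / b) 0 / (qf a b z) ^ 2 ≤
        2 * Real.sqrt (a * b) * Real.log N + (4 * a + 2 * Real.sqrt (a * b)) := by
      refine le_trans ?_ (sum_main₂ ha hb N)
      refine Finset.sum_le_sum_of_subset_of_nonneg Finset.sdiff_subset fun z _ _ => ?_
      have : 0 ≤ max ((z 0 : ℝ) ^ 2 / a - (z 1 : ℝ) ^ 2 / b) 0 := le_max_right _ _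
      positivity
    have h3 := herr N
    have h4 : 1 / (2 * (a * b)) * ∑ z ∈ box 2 N \ box 2 R,
        max ((z 0 : ℝ) ^ 2 / a - (z 1 : ℝ) ^ 2 / b) 0 / (qf a b z) ^ 2 ≤
        Real.log N / Real.sqrt (a * b) + 1 / (2 * (a * b)) * (4 + 2 * Real.sqrt (a * b)) := by
      calc _ ≤ 1 / (2 * (a * b)) * (2 * Real.sqrt (a * b) * Real.log N +
            (4 * a + 2 * Real.sqrt (a * b))) := mul_le_mul_of_nonneg_left h2 (by positivity)
        _ ≤ 1 / (2 * (a * b)) * (2 * Real.sqrt (a * b) * Real.log N +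
            (4 + 2 * Real.sqrt (a * b))) := by
            gcongr
            linarith
        _ = 1 / (2 * (a * b)) * (2 * Real.sqrt (a * b)) * Real.log N +
            1 / (2 * (a * b)) * (4 + 2 * Real.sqrt (a * b)) := by ring
        _ = _ := by rw [hcoef]; ring
    rw [hC]
    linarith
  · intro N hN x hx
    have h1 := sq_le_of_notMem_box hx
    have h2 := sq_le_qf ha hb hab x
    have hNR : (R : ℝ) ≤ N := by exact_mod_cast hN
    have hM : 1 / (4 * (a * b)) = r / 4 := by rw [hr]; field_simp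
    have h3 : (N : ℝ) ^ 2 ≤ qf a b x - 1 / (4 * (a * b)) := by
      rw [hM]
      nlinarith
    unfold lyap
    rcases Nat.eq_zero_or_pos N with h0 | hpos
    · subst h0
      simp only [Nat.cast_zero, Real.log_zero]
      exact lyap_nonneg a b x
    · have hN0 : (0 : ℝ) < N := by exact_mod_cast hpos
      have h4 : Real.log ((N : ℝ) ^ 2) ≤ Real.log (max (qf a b x - 1 / (4 * (a * b))) 1) :=
        Real.log_le_log (by positivity) (h3.trans (le_max_left _ _))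
      rw [Real.log_pow] at h4
      push_cast at h4
      linarith

end Pool.Agent.Helper99.ERW
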