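import Pool.Agent.Helper99.ERW.Stopped
import Pool.Agent.Helper99.ERW.PlaneSpec

open MeasureTheory ProbabilityTheory Filter

namespace Pool.Agent.Helper99.ERW

/-- partial sums of the centred first-coordinate probabilities of a stack -/
noncomputable def psum (a : ℝ) (s : Stack 2) (m : ℕ) : ℝ :=
  ∑ i ∈ Finset.range m, (2 * s (0, true) i - a)

/-- total push of the environment in the box of radius `N` -/
noncomputable def push (a b : ℝ) (R : ℕ) (U W : Stack 2 → ℝ) (N : ℕ) (ω : Env 2) : ℝ :=
  ∑ z ∈ box 2 N \ box 2 R,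
    (max (dlyap a b z) 0 * U (ω z) + max (-dlyap a b z) 0 * W (ω z))

/-- correction coming from the sites visited before time `k` -/
noncomputable def corr (a b : ℝ) (U W : Stack 2 → ℝ) (y : Site 2) (k : ℕ) (ω : Env 2) : ℝ :=
  ∑ z ∈ box 2 k, |dlyap a b (z - y)| * (U (ω z) + W (ω z))

/-- the ball around `y` is hit after time `k` -/
def hitSet {Ω : Type*} (X : ℕ → Ω → Site 2) (R : ℕ) (y : Site 2) (k : ℕ) : Set Ω :=
  {w | ∃ i, k ≤ i ∧ X i w - y ∈ box 2 R}

lemma secondDiff_translate {d : ℕ} (f : Site d → ℝ) (l : Fin d) (x y : Site d) :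
    secondDiff (fun x => f (x - y)) l x = secondDiff f l (x - y) := by
  unfold secondDiff
  have e1 : x + vec (l, true) - y = x - y + vec (l, true) := by abel
  have e2 : x + vec (l, false) - y = x - y + vec (l, false) := by abel
  simp only [e1, e2]

lemma site_bound {D S T U W : ℝ} (hU0 : 0 ≤ U) (hW0 : 0 ≤ W)
    (hT1 : T ≤ U) (hT2 : -T ≤ W) (hS1 : S ≤ U) (hS2 : -S ≤ W) :
    D * (T - S) ≤ max D 0 * U + max (-D) 0 * W + |D| * (U + W) := by
  rcases le_total 0 D with h | h
  · rw [max_eq_left h, max_eq_right (by linarith), abs_of_nonneg h]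
    nlinarith [mul_le_mul_of_nonneg_left hT1 h, mul_le_mul_of_nonneg_left hS2 h, mul_nonneg h hU0]
  · rw [max_eq_right h, max_eq_left (by linarith), abs_of_nonpos h]
    have h' : 0 ≤ -D := by linarith
    nlinarith [mul_le_mul_of_nonneg_left hT2 h', mul_le_mul_of_nonneg_left hS1 h',
      mul_nonneg h' hW0]

lemma site_bound_zero {D T U W : ℝ} (hT1 : T ≤ U) (hT2 : -T ≤ W) :
    D * (T - 0) ≤ max D 0 * U + max (-D) 0 * W := by
  rcases le_total 0 D with h | h
  · rw [max_eq_left h, max_eq_right (by linarith)]
    nlinarith [mul_le_mul_of_nonneg_left hT1 h]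
  · rw [max_eq_right h, max_eq_left (by linarith)]
    nlinarith [mul_le_mul_of_nonneg_left hT2 (show 0 ≤ -D by linarith)]

/-- Pathwise bound of the accumulated drift while the walk stays in the annulus. -/
lemma pathwise_drift {Ω : Type*} {a b : ℝ} (hab : a + b = 1) {R : ℕ}
    (hbase : ∀ x ∉ box 2 R,
      a * secondDiff (lyap a b) 0 x + b * secondDiff (lyap a b) 1 x ≤ 0)
    (U W : Stack 2 → ℝ) (env : Ω → Env 2) (X : ℕ → Ω → Site 2) (y : Site 2) (N k n : ℕ)
    (hkn : k ≤ n) (E : Set Ω) (w : Ω) (hwE : w ∈ E) (hbox : ∀ j, X j w ∈ box 2 j)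
    (hcook : IsCookieEnv (env w)) (hbal : IsBalanced (env w))
    (hU : ∀ z m, psum a (env w z) m ≤ U (env w z))
    (hW : ∀ z m, -psum a (env w z) m ≤ W (env w z)) :
    ∑ j ∈ Finset.Ico k n,
      (inSet X ((box 2 N \ box 2 R).image (fun z => z + y)) E k j).indicator
        (fun w => drift env X (fun x => lyap a b (x - y)) j w) w ≤
      push a b R U W N (shift y (env w)) + corr a b U W y k (env w) := by
  set Λ := (box 2 N \ box 2 R).image (fun z : Site 2 => z + y) with hΛ
  have hmemΛ : ∀ x, x ∈ Λ → x - y ∈ box 2 N \ box 2 R := by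
    intro x hx
    rw [hΛ, Finset.mem_image] at hx
    obtain ⟨z, hz, rfl⟩ := hx
    simpa using hz
  obtain ⟨T, hkT, hTn, hin, hsum⟩ := exists_exit X Λ E hkn w hwE
  have e1 : ∑ j ∈ Finset.Ico k n, (inSet X Λ E k j).indicator
      (fun w => drift env X (fun x => lyap a b (x - y)) j w) w =
      ∑ j ∈ Finset.Ico k T, drift env X (fun x => lyap a b (x - y)) j w := by
    rw [← hsum (fun j => drift env X (fun x => lyap a b (x - y)) j w)]
    refine Finset.sum_congr rfl fun j _ => ?_
    by_cases hm : w ∈ inSet X Λ E k j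
    · rw [Set.indicator_of_mem hm, Set.indicator_of_mem hm]
    · rw [Set.indicator_of_notMem hm, Set.indicator_of_notMem hm]
  rw [e1]
  have e2 : ∀ j ∈ Finset.Ico k T, drift env X (fun x => lyap a b (x - y)) j w ≤
      (fun z i => 2 * env w z (0, true) i - a) (X j w) (visits (fun k => X k w) j (X j w)) *
        (fun z => dlyap a b (z - y)) (X j w) := by
    intro j hj
    rw [Finset.mem_Ico] at hj
    have hx : X j w - y ∉ box 2 R := (Finset.mem_sdiff.mp (hmemΛ _ (hin j hj.1 hj.2))).2
    have hb := hbase _ hx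
    unfold drift
    rw [Fin.sum_univ_two]
    simp only [secondDiff_translate]
    rw [pastVisits_eq]
    set v := visits (fun k => X k w) j (X j w) with hv
    have h2 := (hcook (X j w) v).2
    rw [Fintype.sum_prod_type] at h2
    simp only [Fintype.sum_bool, Fin.sum_univ_two] at h2
    rw [← hbal (X j w) 0 v, ← hbal (X j w) 1 v] at h2
    set p := env w (X j w) (0, true) v with hp
    set p' := env w (X j w) (1, true) v with hp'
    have hp1 : p' = (1 - 2 * p) / 2 := by linarith
    rw [hp1]
    unfold dlyap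
    have hb1 : b = 1 - a := by linarith
    rw [hb1] at hb ⊢
    set D0 := secondDiff (lyap a (1 - a)) 0 (X j w - y)
    set D1 := secondDiff (lyap a (1 - a)) 1 (X j w - y)
    nlinarith
  refine (Finset.sum_le_sum e2).trans ?_
  rw [sum_Ico_eq_sum_sites (fun k => X k w) (fun z i => 2 * env w z (0, true) i - a)
    (fun z => dlyap a b (z - y)) hkT Λ hin]
  -- sitewise bound
  have e3 : ∀ z ∈ Λ, dlyap a b (z - y) *
      ((∑ i ∈ Finset.range (visits (fun k => X k w) T z), (2 * env w z (0, true) i - a)) -
        ∑ i ∈ Finset.range (visits (fun k => X k w) k z), (2 * env w z (0, true) i - a)) ≤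
      (max (dlyap a b (z - y)) 0 * U (env w z) + max (-dlyap a b (z - y)) 0 * W (env w z)) +
        (if z ∈ box 2 k then |dlyap a b (z - y)| * (U (env w z) + W (env w z)) else 0) := by
    intro z _
    have h1 := hU z (visits (fun k => X k w) T z)
    have h2 := hW z (visits (fun k => X k w) T z)
    have h3 := hU z (visits (fun k => X k w) k z)
    have h4 := hW z (visits (fun k => X k w) k z)
    have h5 := hU z 0
    have h6 := hW z 0
    unfold psum at h1 h2 h3 h4 h5 h6
    simp only [Finset.range_zero, Finset.sum_empty, neg_zero] at h5 h6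
    by_cases hz : z ∈ box 2 k
    · rw [if_pos hz]
      exact site_bound h5 h6 h1 h2 h3 h4
    · rw [if_neg hz, add_zero]
      have hv0 : visits (fun k => X k w) k z = 0 := by
        unfold visits
        rw [Finset.card_eq_zero, Finset.filter_eq_empty_iff]
        intro j hj hjz
        apply hz
        rw [← hjz, mem_box]
        intro l
        have h5 := mem_box.mp (hbox j) l
        rw [Finset.mem_range] at hj
        exact h5.trans (by exact_mod_cast hj.le)
      rw [hv0, Finset.range_zero, Finset.sum_empty]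
      exact site_bound_zero h1 h2
  refine (Finset.sum_le_sum e3).trans ?_
  rw [Finset.sum_add_distrib]
  refine add_le_add ?_ ?_
  · refine le_of_eq ?_
    rw [hΛ, Finset.sum_image (fun _ _ _ _ h => add_right_cancel h)]
    unfold push shift
    refine Finset.sum_congr rfl fun z _ => ?_
    rw [add_sub_cancel_right]
  · rw [← Finset.sum_filter]
    unfold corr
    refine Finset.sum_le_sum_of_subset_of_nonneg ?_ ?_
    · intro z hz
      exact (Finset.mem_filter.mp hz).2
    · intro z _ _
      refine mul_nonneg (abs_nonneg _) ?_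
      have h1 := hU z 0
      have h2 := hW z 0
      unfold psum at h1 h2
      simp only [Finset.range_zero, Finset.sum_empty, neg_zero] at h1 h2
      linarith

end Pool.Agent.Helper99.ERW
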