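import Pool.Agent.Helper99.ERW.Telescope

open MeasureTheory ProbabilityTheory Filter

namespace Pool.Agent.Helper99.ERW

section general

variable {d : ℕ} {Ω : Type*} [mΩ : MeasurableSpace Ω] {P : Measure (Env d)} {μ : Measure Ω}
  {env : Ω → Env d} {X : ℕ → Ω → Site d}

omit mΩ in
lemma measurable_walk_iSup (env : Ω → Env d) (X : ℕ → Ω → Site d) (n : ℕ) :
    Measurable[⨆ n, hist env X n] (X n) :=
  (measurable_walk_hist env X le_rfl).mono (le_iSup (hist env X) n) le_rfl

omit mΩ in
/-- An event in the limit sigma-algebra whose conditional probabilities stay below a constant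
smaller than one is negligible. -/
lemma null_of_filtration_bound [mΩ : MeasurableSpace Ω] {μ : Measure Ω} [IsProbabilityMeasure μ]
    (ℱ : Filtration ℕ mΩ)
    {T : Set Ω} (hT : MeasurableSet[⨆ n, ℱ n] T) {c : ℝ} (hc : c < 1)
    (hbound : ∃ k0, ∀ k, k0 ≤ k → ∀ A, MeasurableSet[ℱ k] A →
      μ.real (A ∩ T) ≤ c * μ.real A) : μ T = 0 := by
  obtain ⟨k0, hbound⟩ := hbound
  have hTm : MeasurableSet T := (iSup_le ℱ.le) _ hT
  set g : Ω → ℝ := T.indicator fun _ => (1 : ℝ) with hg
  have hgi : Integrable g μ := (integrable_const (1 : ℝ)).indicator hTm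
  have hlim := tendsto_ae_condExp (μ := μ) (ℱ := ℱ) g
  have hgsup : μ[g|⨆ n, ℱ n] = g := by
    refine condExp_of_stronglyMeasurable (iSup_le ℱ.le) ?_ hgi
    exact (stronglyMeasurable_const.indicator hT)
  rw [hgsup] at hlim
  have hle : ∀ k, k0 ≤ k → μ[g|ℱ k] ≤ᵐ[μ] fun _ => c := by
    intro k hk
    have hm := ℱ.le k
    have h1 : Integrable (μ[g|ℱ k]) (μ.trim hm) :=
      integrable_condExp.trim hm stronglyMeasurable_condExp
    have h2 : Integrable (fun _ : Ω => c) (μ.trim hm) := by
      have : IsFiniteMeasure (μ.trim hm) := isFiniteMeasure_trim hm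
      exact integrable_const c
    have h3 : μ[g|ℱ k] ≤ᵐ[μ.trim hm] fun _ => c := by
      refine ae_le_of_forall_setIntegral_le h1 h2 fun A hA _ => ?_
      rw [← setIntegral_trim hm stronglyMeasurable_condExp hA,
        ← setIntegral_trim hm stronglyMeasurable_const hA, setIntegral_condExp hm hgi hA]
      have h4 : ∫ x in A, g x ∂μ = μ.real (A ∩ T) := by
        rw [hg, setIntegral_indicator hTm]
        simp
      rw [h4]
      have := hbound k hk A hA
      simp only [integral_const, smul_eq_mul]
      rw [measureReal_restrict_apply_univ]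
      linarith
    exact ae_le_of_ae_le_trim h3
  have hle' : ∀ᵐ w ∂μ, ∀ k, k0 ≤ k → (μ[g|ℱ k]) w ≤ c := by
    rw [ae_all_iff]
    intro k
    by_cases hk : k0 ≤ k
    · filter_upwards [hle k hk] with w hw _
      exact hw
    · exact Eventually.of_forall fun w hk' => absurd hk' hk
  rw [measure_eq_zero_iff_ae_notMem]
  filter_upwards [hlim, hle'] with w hw1 hw2 hwT
  have h1 : g w = 1 := by rw [hg, Set.indicator_of_mem hwT]
  have h2 : g w ≤ c := by
    refine le_of_tendsto hw1 ?_
    filter_upwards [eventually_ge_atTop k0] with k hk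
    exact hw2 k hk
  linarith

lemma IsERW.null_of_condexp_bound [IsProbabilityMeasure μ] (h : IsERW P μ env X)
    {T : Set Ω} (hT : MeasurableSet[⨆ n, hist env X n] T) {c : ℝ} (hc : c < 1)
    (hbound : ∃ k0, ∀ k, k0 ≤ k → ∀ A, MeasurableSet[hist env X k] A →
      μ.real (A ∩ T) ≤ c * μ.real A) : μ T = 0 :=
  null_of_filtration_bound h.filt hT hc hbound

/-- first visit to `z` at or after time `k` occurs at time `j` -/
def firstAt (X : ℕ → Ω → Site d) (z : Site d) (k j : ℕ) : Set Ω :=
  {w | X j w = z ∧ ∀ i, k ≤ i → i < j → X i w ≠ z}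

omit mΩ in
lemma measurableSet_firstAt (env : Ω → Env d) (X : ℕ → Ω → Site d) (z : Site d) (k j : ℕ) :
    MeasurableSet[hist env X j] (firstAt X z k j) := by
  have : firstAt X z k j = {w | X j w = z} ∩ ⋂ i ∈ Finset.Ico k j, {w | X i w = z}ᶜ := by
    ext w
    simp only [firstAt, Set.mem_ofPred_eq, Set.mem_inter_iff, Set.mem_iInter, Finset.mem_Ico,
      Set.mem_compl_iff]
    exact ⟨fun h => ⟨h.1, fun i hi => h.2 i hi.1 hi.2⟩,
      fun h => ⟨h.1, fun i h1 h2 => h.2 i ⟨h1, h2⟩⟩⟩
  rw [this]
  refine MeasurableSet.inter ?_ ?_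
  · exact measurable_walk_hist env X le_rfl (measurableSet_singleton z)
  · refine Finset.measurableSet_biInter _ fun i hi => MeasurableSet.compl ?_
    exact measurable_walk_hist env X (Finset.mem_Ico.mp hi).2.le (measurableSet_singleton z)

/-- Under uniform ellipticity, if `z` is visited infinitely often so are its neighbours. -/
lemma IsERW.io_step [IsProbabilityMeasure μ] (h : IsERW P μ env X)
    (hE : UEL P) (z : Site d) (e : Dir d) :
    ∀ᵐ w ∂μ, (∃ᶠ n in atTop, X n w = z) → ∃ᶠ n in atTop, X n w = z + vec e := by
  obtain ⟨κ, hκ, hUEL⟩ := hE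
  -- it suffices to show that the bad events are null
  set T : ℕ → Set Ω := fun m => {w | (∃ᶠ n in atTop, X n w = z) ∧
    ∀ n, m ≤ n → X n w ≠ z + vec e} with hT
  have hTm : ∀ m, MeasurableSet[⨆ n, hist env X n] (T m) := by
    intro m
    have h1 : T m = (⋂ M : ℕ, ⋃ N : ℕ, ⋃ _ : M ≤ N, {w | X N w = z}) ∩
        ⋂ n : ℕ, ⋂ _ : m ≤ n, {w | X n w = z + vec e}ᶜ := by
      ext w
      simp only [hT, Set.mem_ofPred_eq, frequently_atTop, Set.mem_inter_iff, Set.mem_iInter,
        Set.mem_iUnion, exists_prop, Set.mem_compl_iff]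
    rw [h1]
    refine MeasurableSet.inter ?_ ?_
    · exact MeasurableSet.iInter fun M => MeasurableSet.iUnion fun N => MeasurableSet.iUnion
        fun _ => measurable_walk_iSup env X N (measurableSet_singleton z)
    · exact MeasurableSet.iInter fun n => MeasurableSet.iInter fun _ =>
        (measurable_walk_iSup env X n (measurableSet_singleton (z + vec e))).compl
  have hnull : ∀ m, μ (T m) = 0 := by
    intro m
    refine h.null_of_condexp_bound (hTm m) (c := 1 - κ) (by linarith) ⟨m, fun k hk A hA => ?_⟩
    -- pieces according to the first visit to z after time k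
    have hAj : ∀ j, k ≤ j → MeasurableSet[hist env X j] (A ∩ firstAt X z k j) := fun j hj =>
      (hist_mono env X hj _ hA).inter (measurableSet_firstAt env X z k j)
    have hpiece : ∀ j, k ≤ j → μ ((A ∩ firstAt X z k j) \ stepSet X j e) ≤
        ENNReal.ofReal (1 - κ) * μ (A ∩ firstAt X z k j) := by
      intro j hj
      have h1 := h.measureReal_step j e (hAj j hj)
      have hms := h.hist_le j _ (hAj j hj)
      have h2 : κ * μ.real (A ∩ firstAt X z k j) ≤
          μ.real (A ∩ firstAt X z k j ∩ stepSet X j e) := by
        rw [h1]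
        have hm1 : Measurable (fun w => env w (X j w) e (pastVisits (fun k => X k w) j)) :=
          (measurable_cookie_hist env X le_rfl e).mono (h.hist_le j) le_rfl
        by_cases hint : IntegrableOn (fun w => env w (X j w) e (pastVisits (fun k => X k w) j))
            (A ∩ firstAt X z k j) μ
        · calc κ * μ.real (A ∩ firstAt X z k j) = ∫ w in A ∩ firstAt X z k j, κ ∂μ := by
                simp [mul_comm]
            _ ≤ _ := by
                refine setIntegral_mono_ae (integrable_const κ).integrableOn hint ?_
                filter_upwards [h.ae_env hUEL] with w hw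
                exact hw _ _ _
        · -- the conditional probabilities are integrable
          exfalso
          apply hint
          have h3 : Integrable (fun w => env w (X j w) e (pastVisits (fun k => X k w) j)) μ :=
            (integrable_congr (h.step j e)).mp integrable_condExp
          exact h3.integrableOn
      have h3 : μ.real (A ∩ firstAt X z k j ∩ stepSet X j e) +
          μ.real ((A ∩ firstAt X z k j) \ stepSet X j e) = μ.real (A ∩ firstAt X z k j) :=
        measureReal_inter_add_sdiff (h.measurableSet_stepSet j e)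
      have h4 : μ.real ((A ∩ firstAt X z k j) \ stepSet X j e) ≤
          (1 - κ) * μ.real (A ∩ firstAt X z k j) := by linarith
      by_cases hκ1 : κ ≤ 1
      · rw [measureReal_def, measureReal_def] at h4
        have h5 := ENNReal.ofReal_le_ofReal h4
        rw [ENNReal.ofReal_toReal (measure_ne_top _ _),
          ENNReal.ofReal_mul (by linarith), ENNReal.ofReal_toReal (measure_ne_top _ _)] at h5
        exact h5
      · have h5 : μ.real (A ∩ firstAt X z k j) ≤ 0 := by
          have h6 : 0 ≤ μ.real ((A ∩ firstAt X z k j) \ stepSet X j e) := measureReal_nonneg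
          have h7 : 0 ≤ μ.real (A ∩ firstAt X z k j) := measureReal_nonneg
          nlinarith
        have h6 : μ (A ∩ firstAt X z k j) = 0 := by
          have h7 : μ.real (A ∩ firstAt X z k j) = 0 := le_antisymm h5 measureReal_nonneg
          rw [measureReal_def, ENNReal.toReal_eq_zero_iff] at h7
          exact h7.resolve_right (measure_ne_top _ _)
        rw [h6, mul_zero]
        exact le_of_eq (measure_mono_null Set.sdiff_subset h6)
    have hcov : A ∩ T m ⊆ ⋃ j, (A ∩ firstAt X z k (k + j)) \ stepSet X (k + j) e := by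
      rintro w ⟨hwA, hw1, hw2⟩
      obtain ⟨n0, hn0, hn0z⟩ := (frequently_atTop.mp hw1) k
      have hex : ∃ j, X (k + j) w = z := ⟨n0 - k, by rw [Nat.add_sub_cancel' hn0]; exact hn0z⟩
      classical
      refine Set.mem_iUnion.mpr ⟨Nat.find hex, ⟨hwA, Nat.find_spec hex, fun i hi1 hi2 => ?_⟩,
        fun hstep => ?_⟩
      · have h3 := Nat.find_min hex (m := i - k) (by omega)
        rw [Nat.add_sub_cancel' hi1] at h3
        exact h3
      · have h3 : X (k + Nat.find hex + 1) w = X (k + Nat.find hex) w + vec e := hstep
        rw [Nat.find_spec hex] at h3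
        exact hw2 _ (by omega) h3
    have hdisj : Pairwise (Function.onFun Disjoint fun j => A ∩ firstAt X z k (k + j)) := by
      intro i j hij
      rw [Function.onFun, Set.disjoint_left]
      rintro w ⟨_, hw1, hw2⟩ ⟨_, hw3, hw4⟩
      rcases Nat.lt_or_gt_of_ne hij with hlt | hlt
      · exact hw4 (k + i) (by omega) (by omega) hw1
      · exact hw2 (k + j) (by omega) (by omega) hw3
    have hfin : μ (A ∩ T m) ≤ ENNReal.ofReal (1 - κ) * μ A := by
      calc μ (A ∩ T m) ≤ μ (⋃ j, (A ∩ firstAt X z k (k + j)) \ stepSet X (k + j) e) :=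
            measure_mono hcov
        _ ≤ ∑' j, μ ((A ∩ firstAt X z k (k + j)) \ stepSet X (k + j) e) := measure_iUnion_le _
        _ ≤ ∑' j, ENNReal.ofReal (1 - κ) * μ (A ∩ firstAt X z k (k + j)) :=
            ENNReal.tsum_le_tsum fun j => hpiece (k + j) (by omega)
        _ = ENNReal.ofReal (1 - κ) * ∑' j, μ (A ∩ firstAt X z k (k + j)) := ENNReal.tsum_mul_left
        _ = ENNReal.ofReal (1 - κ) * μ (⋃ j, A ∩ firstAt X z k (k + j)) := by
            rw [measure_iUnion hdisj fun j => h.hist_le _ _ (hAj (k + j) (by omega))]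
        _ ≤ ENNReal.ofReal (1 - κ) * μ A := by
            gcongr
            exact Set.iUnion_subset fun j => Set.inter_subset_left
    by_cases hκ1 : κ ≤ 1
    · have h5 := ENNReal.toReal_mono (ENNReal.mul_ne_top ENNReal.ofReal_ne_top
        (measure_ne_top μ A)) hfin
      rw [ENNReal.toReal_mul, ENNReal.toReal_ofReal (by linarith)] at h5
      exact h5
    · -- κ > 1 is impossible unless μ A = 0, but the bound follows from positivity anyway
      exfalso
      have h6 : μ.real (Set.univ ∩ stepSet X 0 e) =
          ∫ w in Set.univ, env w (X 0 w) e (pastVisits (fun k => X k w) 0) ∂μ :=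
        h.measureReal_step 0 e MeasurableSet.univ
      have h7 : μ.real (Set.univ ∩ stepSet X 0 e) ≤ 1 := measureReal_le_one
      have h8 : κ ≤ ∫ w, env w (X 0 w) e (pastVisits (fun k => X k w) 0) ∂μ := by
        have h9 : Integrable (fun w => env w (X 0 w) e (pastVisits (fun k => X k w) 0)) μ :=
          (integrable_congr (h.step 0 e)).mp integrable_condExp
        calc κ = ∫ _, κ ∂μ := by simp
          _ ≤ _ := by
              refine integral_mono_ae (integrable_const κ) h9 ?_
              filter_upwards [h.ae_env hUEL] with w hw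
              exact hw _ _ _
      rw [Measure.restrict_univ] at h6
      linarith
  have hnull' : ∀ᵐ w ∂μ, ∀ m, w ∉ T m := by
    rw [ae_all_iff]
    intro m
    exact measure_eq_zero_iff_ae_notMem.mp (hnull m)
  filter_upwards [hnull'] with w hw hio
  by_contra hcon
  rw [not_frequently, eventually_atTop] at hcon
  obtain ⟨m, hm⟩ := hcon
  exact hw m ⟨hio, fun n hn => hm n hn⟩

/-- A set of sites closed under unit steps and nonempty is everything. -/
lemma forall_of_step (S : Site d → Prop) (hstep : ∀ z, S z → ∀ e : Dir d, S (z + vec e))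
    (z0 : Site d) (h0 : S z0) (z : Site d) : S z := by
  have hsingle : ∀ (l : Fin d) (m : ℤ) (z : Site d), S z → S (z + Pi.single l m) := by
    intro l m
    induction m using Int.induction_on with
    | zero => intro z hz; simpa using hz
    | succ n ih =>
      intro z hz
      have h1 := hstep _ (ih z hz) (l, true)
      have h2 : z + Pi.single l (n : ℤ) + vec (l, true) = z + Pi.single l ((n : ℤ) + 1) := by
        rw [add_assoc]
        congr 1
        unfold vec
        simp [← Pi.single_add]
      rwa [h2] at h1
    | pred n ih =>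
      intro z hz
      have h1 := hstep _ (ih z hz) (l, false)
      have h2 : z + Pi.single l (-(n : ℤ)) + vec (l, false) = z + Pi.single l (-(n : ℤ) - 1) := by
        rw [add_assoc]
        congr 1
        unfold vec
        simp only [Bool.false_eq_true, if_false]
        rw [← Pi.single_add]
        rfl
      rwa [h2] at h1
  have hsum : ∀ (s : Finset (Fin d)) (v : Site d) (z : Site d), S z →
      S (z + ∑ l ∈ s, Pi.single l (v l)) := by
    intro s v
    induction s using Finset.induction_on with
    | empty => intro z hz; simpa using hz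
    | insert l s hl ih =>
      intro z hz
      rw [Finset.sum_insert hl, ← add_assoc]
      exact ih _ (hsingle l (v l) z hz)
  have h1 := hsum Finset.univ (z - z0) z0 h0
  have h2 : z0 + ∑ l, Pi.single l ((z - z0) l) = z := by
    rw [Finset.univ_sum_single]
    abel
  rwa [h2] at h1

end general

end Pool.Agent.Helper99.ERW
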