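import Pool.Agent.Helper99.ERW.PlaneLevy
import Pool.Agent.Helper99.ERW.Levy

open MeasureTheory ProbabilityTheory Filter

namespace Pool.Agent.Helper99.ERW

lemma shift_shift {d : ℕ} (x y : Site d) (ω : Env d) :
    shift y (shift x ω) = shift (y + x) ω := by
  unfold shift
  funext z
  rw [add_assoc]

lemma shift_zero {d : ℕ} (ω : Env d) : shift 0 ω = ω := by
  unfold shift
  funext z
  rw [add_zero]

/-- Under stationarity all stacks have the same law. -/
lemma SE.map_eq {d : ℕ} {P : Measure (Env d)} (hSE : SE P) (z : Site d) :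
    P.map (fun ω : Env d => ω z) = P.map (fun ω : Env d => ω 0) := by
  have h1 := hSE.1 z
  have hm0 : Measurable (fun ω : Env d => ω 0) := measurable_pi_apply 0
  have h2 : (P.map (shift z)).map (fun ω : Env d => ω 0) = P.map (fun ω : Env d => ω 0) := by
    rw [h1]
  rw [Measure.map_map hm0 (measurable_shift z)] at h2
  have h3 : (fun ω : Env d => ω 0) ∘ shift z = fun ω : Env d => ω z := by
    funext ω
    simp [shift]
  rw [h3] at h2
  exact h2

/-- The union of the translates of a set of positive probability has full probability. -/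
lemma SE.iUnion_eq_one {d : ℕ} {P : Measure (Env d)} [IsProbabilityMeasure P] (hSE : SE P)
    {G : Set (Env d)} (hG : MeasurableSet G) (hpos : P G ≠ 0) :
    P (⋃ y, shift y ⁻¹' G) = 1 := by
  have hm : MeasurableSet (⋃ y, shift y ⁻¹' G : Set (Env d)) :=
    MeasurableSet.iUnion fun y => measurable_shift y hG
  have hinv : ∀ x, shift x ⁻¹' (⋃ y, shift y ⁻¹' G : Set (Env d)) = ⋃ y, shift y ⁻¹' G := by
    intro x
    ext ω
    simp only [Set.mem_preimage, Set.mem_iUnion, shift_shift]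
    constructor
    · rintro ⟨y, hy⟩
      exact ⟨y + x, hy⟩
    · rintro ⟨y, hy⟩
      exact ⟨y - x, by rwa [sub_add_cancel]⟩
  rcases hSE.2 _ hm hinv with h | h
  · exfalso
    apply hpos
    refine measure_mono_null ?_ h
    intro ω hω
    refine Set.mem_iUnion.mpr ⟨0, ?_⟩
    rw [Set.mem_preimage, shift_zero]
    exact hω
  · exact h

/-- The good environments have positive probability. -/
lemma goodSet_pos {P : Measure (Env 2)} [IsProbabilityMeasure P] (hSE : SE P)
    {a b : ℝ} (ha : 0 < a) (hb : 0 < b) {R : ℕ} {C : ℝ} (hC : 0 ≤ C)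
    (h1 : ∀ N : ℕ, ∑ z ∈ box 2 N \ box 2 R, max (dlyap a b z) 0 ≤
        Real.log N / Real.sqrt (a * b) + C)
    (h2 : ∀ N : ℕ, ∑ z ∈ box 2 N \ box 2 R, max (-dlyap a b z) 0 ≤
        Real.log N / Real.sqrt (a * b) + C)
    {U W : Stack 2 → ℝ} (hUm : Measurable U) (hWm : Measurable W)
    (hUi : Integrable (fun ω : Env 2 => U (ω 0)) P)
    (hWi : Integrable (fun ω : Env 2 => W (ω 0)) P)
    (hU0 : ∀ᵐ ω ∂P, ∀ z, 0 ≤ U (ω z)) (hW0 : ∀ᵐ ω ∂P, ∀ z, 0 ≤ W (ω z))
    (hsmall : ∫ ω, U (ω 0) ∂P + ∫ ω, W (ω 0) ∂P < Real.sqrt (a * b)) :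
    ∃ ρ : ℝ, 0 ≤ ρ ∧ ρ < 1 ∧ P (goodSet a b R U W ρ) ≠ 0 := by
  have hsq : 0 < Real.sqrt (a * b) := Real.sqrt_pos.mpr (mul_pos ha hb)
  have hEU : 0 ≤ ∫ ω, U (ω 0) ∂P := integral_nonneg_of_ae (by
    filter_upwards [hU0] with ω hω using hω 0)
  have hEW : 0 ≤ ∫ ω, W (ω 0) ∂P := integral_nonneg_of_ae (by
    filter_upwards [hW0] with ω hω using hω 0)
  set κ := (∫ ω, U (ω 0) ∂P + ∫ ω, W (ω 0) ∂P) / Real.sqrt (a * b) with hκ
  have hκ0 : 0 ≤ κ := div_nonneg (by linarith) hsq.le
  have hκ1 : κ < 1 := (div_lt_one hsq).mpr hsmall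
  set ρ := (κ + 1) / 2 with hρ
  have hρ0 : 0 < ρ := by rw [hρ]; linarith
  have hρ1 : ρ < 1 := by rw [hρ]; linarith
  have hκρ : κ < ρ := by rw [hρ]; linarith
  refine ⟨ρ, hρ0.le, hρ1, fun hzero => ?_⟩
  -- integrability and expectation of stack functions
  have hUz : ∀ z, Integrable (fun ω : Env 2 => U (ω z)) P ∧
      ∫ ω, U (ω z) ∂P = ∫ ω, U (ω 0) ∂P := by
    intro z
    have hmz : Measurable (fun ω : Env 2 => ω z) := measurable_pi_apply z
    have hm0 : Measurable (fun ω : Env 2 => ω 0) := measurable_pi_apply 0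
    have h3 : Integrable U (P.map (fun ω : Env 2 => ω 0)) :=
      (integrable_map_measure hUm.aestronglyMeasurable hm0.aemeasurable).mpr hUi
    constructor
    · rw [← hSE.map_eq z] at h3
      exact (integrable_map_measure hUm.aestronglyMeasurable hmz.aemeasurable).mp h3
    · rw [← integral_map (φ := fun ω : Env 2 => ω z) hmz.aemeasurable hUm.aestronglyMeasurable,
        hSE.map_eq z, integral_map hm0.aemeasurable hUm.aestronglyMeasurable]
  have hWz : ∀ z, Integrable (fun ω : Env 2 => W (ω z)) P ∧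
      ∫ ω, W (ω z) ∂P = ∫ ω, W (ω 0) ∂P := by
    intro z
    have hmz : Measurable (fun ω : Env 2 => ω z) := measurable_pi_apply z
    have hm0 : Measurable (fun ω : Env 2 => ω 0) := measurable_pi_apply 0
    have h3 : Integrable W (P.map (fun ω : Env 2 => ω 0)) :=
      (integrable_map_measure hWm.aestronglyMeasurable hm0.aemeasurable).mpr hWi
    constructor
    · rw [← hSE.map_eq z] at h3
      exact (integrable_map_measure hWm.aestronglyMeasurable hmz.aemeasurable).mp h3
    · rw [← integral_map (φ := fun ω : Env 2 => ω z) hmz.aemeasurable hWm.aestronglyMeasurable,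
        hSE.map_eq z, integral_map hm0.aemeasurable hWm.aestronglyMeasurable]
  have hpi : ∀ N, Integrable (push a b R U W N) P := by
    intro N
    unfold push
    exact integrable_finsetSum _ fun z _ =>
      ((hUz z).1.const_mul _).add ((hWz z).1.const_mul _)
  have hpE : ∀ N : ℕ, ∫ ω, push a b R U W N ω ∂P ≤
      κ * Real.log N + C * κ * Real.sqrt (a * b) := by
    intro N
    have e0 : ∫ ω, push a b R U W N ω ∂P = ∑ z ∈ box 2 N \ box 2 R,
        ∫ ω, (max (dlyap a b z) 0 * U (ω z) + max (-dlyap a b z) 0 * W (ω z)) ∂P := by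
      unfold push
      exact integral_finsetSum _ fun z _ =>
        ((hUz z).1.const_mul _).add ((hWz z).1.const_mul _)
    rw [e0]
    have e1 : ∀ z ∈ box 2 N \ box 2 R,
        ∫ ω, (max (dlyap a b z) 0 * U (ω z) + max (-dlyap a b z) 0 * W (ω z)) ∂P =
        max (dlyap a b z) 0 * ∫ ω, U (ω 0) ∂P + max (-dlyap a b z) 0 * ∫ ω, W (ω 0) ∂P := by
      intro z _
      rw [integral_add ((hUz z).1.const_mul _) ((hWz z).1.const_mul _), integral_const_mul,
        integral_const_mul, (hUz z).2, (hWz z).2]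
    rw [Finset.sum_congr rfl e1, Finset.sum_add_distrib, ← Finset.sum_mul, ← Finset.sum_mul]
    have h3 := mul_le_mul_of_nonneg_right (h1 N) hEU
    have h4 := mul_le_mul_of_nonneg_right (h2 N) hEW
    have e2 : κ * Real.sqrt (a * b) = ∫ ω, U (ω 0) ∂P + ∫ ω, W (ω 0) ∂P := by
      rw [hκ]; field_simp
    calc _ ≤ (Real.log N / Real.sqrt (a * b) + C) * ∫ ω, U (ω 0) ∂P +
          (Real.log N / Real.sqrt (a * b) + C) * ∫ ω, W (ω 0) ∂P := add_le_add h3 h4
      _ = (Real.log N / Real.sqrt (a * b) + C) * (κ * Real.sqrt (a * b)) := by rw [e2]; ring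
      _ = κ * Real.log N + C * κ * Real.sqrt (a * b) := by field_simp
  have hpnn : ∀ N, 0 ≤ᵐ[P] push a b R U W N := by
    intro N
    filter_upwards [hU0, hW0] with ω hu hw
    unfold push
    exact Finset.sum_nonneg fun z _ =>
      add_nonneg (mul_nonneg (le_max_right _ _) (hu z)) (mul_nonneg (le_max_right _ _) (hw z))
  -- Markov
  have hlim : Tendsto (fun N : ℕ => (κ * Real.log N + C * κ * Real.sqrt (a * b)) /
      (ρ * Real.log N)) atTop (nhds (κ / ρ)) := by
    have hl : Tendsto (fun N : ℕ => Real.log (N : ℝ)) atTop atTop :=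
      Real.tendsto_log_atTop.comp tendsto_natCast_atTop_atTop
    have h3 : Tendsto (fun N : ℕ => κ / ρ + (C * κ * Real.sqrt (a * b) / ρ) *
        (Real.log (N : ℝ))⁻¹) atTop (nhds (κ / ρ + (C * κ * Real.sqrt (a * b) / ρ) * 0)) :=
      ((tendsto_inv_atTop_zero.comp hl).const_mul _).const_add _
    rw [mul_zero, add_zero] at h3
    refine h3.congr' ?_
    filter_upwards [hl.eventually_gt_atTop 0] with N hN
    field_simp
  have hev : ∀ᶠ N : ℕ in atTop, (κ * Real.log N + C * κ * Real.sqrt (a * b)) /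
      (ρ * Real.log N) < (κ / ρ + 1) / 2 := by
    refine hlim.eventually_lt_const ?_
    have : κ / ρ < 1 := (div_lt_one hρ0).mpr hκρ
    linarith
  obtain ⟨N0, hN0⟩ := eventually_atTop.mp (hev.and
    ((Real.tendsto_log_atTop.comp tendsto_natCast_atTop_atTop).eventually_gt_atTop (0 : ℝ)))
  have hmark : ∀ N, N0 ≤ N → P.real {ω | ρ * Real.log N ≤ push a b R U W N ω} ≤
      (κ / ρ + 1) / 2 := by
    intro N hN
    obtain ⟨h3, h4⟩ := hN0 N hN
    have h4' : 0 < Real.log (N : ℝ) := h4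
    have h5 := mul_meas_ge_le_integral_of_nonneg (hpnn N) (hpi N) (ρ * Real.log N)
    have h6 : P.real {ω | ρ * Real.log N ≤ push a b R U W N ω} ≤
        (κ * Real.log N + C * κ * Real.sqrt (a * b)) / (ρ * Real.log N) := by
      rw [le_div_iff₀ (by positivity), mul_comm]
      exact h5.trans (hpE N)
    exact h6.trans h3.le
  -- eventually above the level
  have hcompl : P (goodSet a b R U W ρ)ᶜ = 1 :=
    (prob_compl_eq_one_iff (measurableSet_goodSet a b R hUm hWm ρ)).mpr hzero
  have hset : (goodSet a b R U W ρ)ᶜ ⊆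
      ⋃ M : ℕ, ⋂ N : ℕ, ⋂ _ : M ≤ N, {ω | ρ * Real.log N ≤ push a b R U W N ω} := by
    intro ω hω
    simp only [goodSet, Set.mem_compl_iff, Set.mem_ofPred_eq, not_frequently, not_le,
      eventually_atTop] at hω
    obtain ⟨M, hM⟩ := hω
    simp only [Set.mem_iUnion, Set.mem_iInter, Set.mem_ofPred_eq]
    exact ⟨M, fun N hN => (hM N hN).le⟩
  have hle : P (⋃ M : ℕ, ⋂ N : ℕ, ⋂ _ : M ≤ N, {ω | ρ * Real.log N ≤ push a b R U W N ω}) ≤
      ENNReal.ofReal ((κ / ρ + 1) / 2) := by
    have hmono : Monotone (fun M : ℕ =>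
        ⋂ N : ℕ, ⋂ _ : M ≤ N, {ω | ρ * Real.log N ≤ push a b R U W N ω}) := by
      intro M M' hMM' ω hω
      simp only [Set.mem_iInter] at hω ⊢
      exact fun N hN => hω N (hMM'.trans hN)
    rw [hmono.measure_iUnion]
    refine iSup_le fun M => ?_
    calc P (⋂ N : ℕ, ⋂ _ : M ≤ N, {ω | ρ * Real.log N ≤ push a b R U W N ω}) ≤
        P {ω | ρ * Real.log (max M N0 : ℕ) ≤ push a b R U W (max M N0) ω} := by
          refine measure_mono ?_
          intro ω hω
          simp only [Set.mem_iInter] at hω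
          exact hω (max M N0) (le_max_left _ _)
      _ = ENNReal.ofReal (P.real {ω | ρ * Real.log (max M N0 : ℕ) ≤
            push a b R U W (max M N0) ω}) := by
          rw [measureReal_def, ENNReal.ofReal_toReal (measure_ne_top _ _)]
      _ ≤ _ := ENNReal.ofReal_le_ofReal (hmark _ (le_max_right _ _))
  have hlt : ENNReal.ofReal ((κ / ρ + 1) / 2) < 1 := by
    rw [← ENNReal.ofReal_one]
    refine (ENNReal.ofReal_lt_ofReal_iff one_pos).mpr ?_
    have : κ / ρ < 1 := (div_lt_one hρ0).mpr hκρ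
    linarith
  have := (measure_mono hset).trans hle
  rw [hcompl] at this
  exact absurd (this.trans_lt hlt) (lt_irrefl _)

variable {Ω : Type*} [mΩ : MeasurableSpace Ω] {P : Measure (Env 2)} {μ : Measure Ω}
  {env : Ω → Env 2} {X : ℕ → Ω → Site 2}

/-- **Recurrence criterion in the plane.** -/
theorem IsERW.recurrent_plane [IsProbabilityMeasure μ] [IsProbabilityMeasure P]
    (h : IsERW P μ env X)
    (hP : ∀ᵐ ω ∂P, IsCookieEnv ω) (hB : ∀ᵐ ω ∂P, IsBalanced ω) (hSE : SE P) (hE : UEL P)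
    {a : ℝ} (ha0 : 0 < a) (ha1 : a < 1)
    {U W : Stack 2 → ℝ} (hUm : Measurable U) (hWm : Measurable W)
    (hUi : Integrable (fun ω : Env 2 => U (ω 0)) P)
    (hWi : Integrable (fun ω : Env 2 => W (ω 0)) P)
    (hU : ∀ᵐ ω ∂P, ∀ j : ℕ, ∑ i ∈ Finset.range j, (2 * ω 0 (0, true) i - a) ≤ U (ω 0))
    (hW : ∀ᵐ ω ∂P, ∀ j : ℕ, -∑ i ∈ Finset.range j, (2 * ω 0 (0, true) i - a) ≤ W (ω 0))
    (hsmall : ∫ ω, U (ω 0) ∂P + ∫ ω, W (ω 0) ∂P < Real.sqrt (a * (1 - a))) :
    Recurrent μ X := by
  set b := 1 - a with hb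
  have hb0 : 0 < b := by rw [hb]; linarith
  have hab : a + b = 1 := by rw [hb]; ring
  obtain ⟨R, C, hC, hbase, hs1, hs2, hfar⟩ := lyap_spec ha0 hb0 hab
  have hpm : ∀ m, Measurable (fun s : Stack 2 => psum a s m) := by
    intro m
    unfold psum
    refine Finset.measurable_sum _ fun i _ => ?_
    fun_prop
  have hm0 : Measurable (fun ω : Env 2 => ω 0) := measurable_pi_apply 0
  have hU' : ∀ᵐ ω ∂P, ∀ z m, psum a (ω z) m ≤ U (ω z) := by
    rw [ae_all_iff]
    intro z
    have hms : MeasurableSet {s : Stack 2 | ∀ m, psum a s m ≤ U s} := by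
      have : {s : Stack 2 | ∀ m, psum a s m ≤ U s} = ⋂ m, {s | psum a s m ≤ U s} := by
        ext s; simp
      rw [this]
      exact MeasurableSet.iInter fun m => measurableSet_le (hpm m) hUm
    have h1 : ∀ᵐ s ∂(P.map (fun ω : Env 2 => ω 0)), ∀ m, psum a s m ≤ U s :=
      (ae_map_iff hm0.aemeasurable hms).mpr hU
    rw [← hSE.map_eq z] at h1
    have hmz : Measurable (fun ω : Env 2 => ω z) := measurable_pi_apply z
    exact ae_of_ae_map hmz.aemeasurable h1
  have hW' : ∀ᵐ ω ∂P, ∀ z m, -psum a (ω z) m ≤ W (ω z) := by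
    rw [ae_all_iff]
    intro z
    have hms : MeasurableSet {s : Stack 2 | ∀ m, -psum a s m ≤ W s} := by
      have : {s : Stack 2 | ∀ m, -psum a s m ≤ W s} = ⋂ m, {s | -psum a s m ≤ W s} := by
        ext s; simp
      rw [this]
      exact MeasurableSet.iInter fun m => measurableSet_le (hpm m).neg hWm
    have h1 : ∀ᵐ s ∂(P.map (fun ω : Env 2 => ω 0)), ∀ m, -psum a s m ≤ W s :=
      (ae_map_iff hm0.aemeasurable hms).mpr hW
    rw [← hSE.map_eq z] at h1
    have hmz : Measurable (fun ω : Env 2 => ω z) := measurable_pi_apply z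
    exact ae_of_ae_map hmz.aemeasurable h1
  have hU0 : ∀ᵐ ω ∂P, ∀ z, 0 ≤ U (ω z) := by
    filter_upwards [hU'] with ω hω z
    simpa [psum] using hω z 0
  have hW0 : ∀ᵐ ω ∂P, ∀ z, 0 ≤ W (ω z) := by
    filter_upwards [hW'] with ω hω z
    simpa [psum] using hω z 0
  obtain ⟨ρ, hρ0, hρ1, hpos⟩ := goodSet_pos hSE ha0 hb0 hC hs1 hs2 hUm hWm hUi hWi hU0 hW0 hsmall
  set G := goodSet a b R U W ρ with hG
  have hGm : MeasurableSet G := measurableSet_goodSet a b R hUm hWm ρ
  have hone := hSE.iUnion_eq_one hGm hpos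
  -- almost surely some centre is good
  have hcenter : ∀ᵐ w ∂μ, ∃ y, shift y (env w) ∈ G := by
    refine h.ae_env (p := fun ω => ∃ y, shift y ω ∈ G) ?_
    have hm : MeasurableSet (⋃ y, shift y ⁻¹' G : Set (Env 2)) :=
      MeasurableSet.iUnion fun y => measurable_shift y hGm
    have h1 : P (⋃ y, shift y ⁻¹' G : Set (Env 2))ᶜ = 0 := (prob_compl_eq_zero_iff hm).mpr hone
    filter_upwards [measure_eq_zero_iff_ae_notMem.mp h1] with ω hω
    rw [Set.mem_compl_iff, not_not, Set.mem_iUnion] at hω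
    exact hω
  -- around a good centre the ball is hit at arbitrarily large times
  set η := (1 - ρ) / 2 with hη
  have hη0 : 0 < η := by rw [hη]; linarith
  have hio : ∀ y : Site 2, ∀ᵐ w ∂μ, shift y (env w) ∈ G → ∀ m, w ∈ hitSet X R y m := by
    intro y
    have hnull : ∀ m, μ ({w | shift y (env w) ∈ G} \ hitSet X R y m) = 0 := by
      intro m
      have hle : ∀ n, hist env X n ≤ ⨆ n, hist env X n := fun n => le_iSup (hist env X) n
      have hGk : ∀ k, MeasurableSet[hist env X k] {w | shift y (env w) ∈ G} := fun k =>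
        ((measurable_shift y).comp (measurable_env_hist env X k)) hGm
      have hTm : MeasurableSet[⨆ n, hist env X n]
          ({w | shift y (env w) ∈ G} \ hitSet X R y m) := by
        refine MeasurableSet.diff (hle 0 _ (hGk 0)) ?_
        have : hitSet X R y m = ⋃ i, ⋃ _ : m ≤ i, X i ⁻¹' {x | x - y ∈ box 2 R} := by
          ext w
          simp [hitSet]
        rw [this]
        refine MeasurableSet.iUnion fun i => MeasurableSet.iUnion fun _ => ?_
        exact measurable_walk_iSup env X i (Set.Countable.measurableSet (Set.to_countable _))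
      refine h.null_of_condexp_bound hTm (c := ρ + η) (by rw [hη]; linarith)
        ⟨m, fun k hk A hA => ?_⟩
      have h1 := h.hit_good hP hB hab hbase hfar hUm hWm hU' hW' hρ0 hη0 y k
        (E := A ∩ {w | shift y (env w) ∈ G}) (hA.inter (hGk k)) (fun w hw => hw.2)
      have h2 : μ.real ((A ∩ {w | shift y (env w) ∈ G}) \ hitSet X R y k) ≤
          (ρ + η) * μ.real (A ∩ {w | shift y (env w) ∈ G}) := by
        have h3 := ENNReal.toReal_mono (ENNReal.mul_ne_top ENNReal.ofReal_ne_top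
          (measure_ne_top μ _)) h1
        rw [ENNReal.toReal_mul, ENNReal.toReal_ofReal (by positivity)] at h3
        exact h3
      calc μ.real (A ∩ ({w | shift y (env w) ∈ G} \ hitSet X R y m)) ≤
          μ.real ((A ∩ {w | shift y (env w) ∈ G}) \ hitSet X R y k) := by
            refine measureReal_mono ?_
            rintro w ⟨hw1, hw2, hw3⟩
            refine ⟨⟨hw1, hw2⟩, ?_⟩
            rintro ⟨i, hi1, hi2⟩
            exact hw3 ⟨i, hk.trans hi1, hi2⟩
        _ ≤ (ρ + η) * μ.real (A ∩ {w | shift y (env w) ∈ G}) := h2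
        _ ≤ (ρ + η) * μ.real A := by
            refine mul_le_mul_of_nonneg_left (measureReal_mono Set.inter_subset_left) ?_
            positivity
    have hnull' : ∀ᵐ w ∂μ, ∀ m, w ∉ {w | shift y (env w) ∈ G} \ hitSet X R y m := by
      rw [ae_all_iff]
      exact fun m => measure_eq_zero_iff_ae_notMem.mp (hnull m)
    filter_upwards [hnull'] with w hw hwG m
    by_contra hcon
    exact hw m ⟨hwG, hcon⟩
  have hio' : ∀ᵐ w ∂μ, ∀ y : Site 2, shift y (env w) ∈ G → ∀ m, w ∈ hitSet X R y m :=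
    ae_all_iff.mpr hio
  have hstep : ∀ᵐ w ∂μ, ∀ (z : Site 2) (e : Dir 2),
      (∃ᶠ n in atTop, X n w = z) → ∃ᶠ n in atTop, X n w = z + vec e := by
    rw [ae_all_iff]
    intro z
    rw [ae_all_iff]
    intro e
    exact h.io_step hE z e
  filter_upwards [hcenter, hio', hstep] with w hc hi hs
  obtain ⟨y, hy⟩ := hc
  have hhit := hi y hy
  -- some site of the ball is visited infinitely often
  have hfreq : ∃ᶠ n in atTop, ∃ x ∈ box 2 R, X n w = x + y := by
    rw [frequently_atTop]
    intro m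
    obtain ⟨i, hi1, hi2⟩ := hhit m
    exact ⟨i, hi1, X i w - y, hi2, by abel⟩
  have hex : ∃ x ∈ box 2 R, ∃ᶠ n in atTop, X n w = x + y := by
    by_contra hcon
    push Not at hcon
    have h1 : ∀ x ∈ box 2 R, ∀ᶠ n in atTop, ¬ X n w = x + y := fun x hx =>
      not_frequently.mp (by
        have := hcon x hx
        simpa [Filter.Frequently] using this)
    have h2 := (Finset.eventually_all (box 2 R)).mpr h1
    apply hfreq
    filter_upwards [h2] with n hn
    rintro ⟨x, hx, hxe⟩
    exact hn x hx hxe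
  obtain ⟨x, _, hx⟩ := hex
  exact fun z => forall_of_step (fun z => ∃ᶠ n in atTop, X n w = z) (fun z hz e => hs z e hz)
    (x + y) hx z

end Pool.Agent.Helper99.ERW
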