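import Pool.Agent.Helper99.ERW.OneStep

namespace Pool.Agent.Helper99.ERW

variable {d : ℕ}

lemma visits_zero (x : ℕ → Site d) (z : Site d) : visits x 0 z = 0 := by
  simp [visits]

lemma visits_succ (x : ℕ → Site d) (n : ℕ) (z : Site d) :
    visits x (n + 1) z = visits x n z + if x n = z then 1 else 0 := by
  unfold visits
  rw [Finset.range_add_one, Finset.filter_insert]
  split_ifs with h
  · rw [Finset.card_insert_of_notMem (by simp)]
  · rfl

lemma visits_mono (x : ℕ → Site d) (z : Site d) : Monotone (fun n => visits x n z) := by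
  refine monotone_nat_of_le_succ fun n => ?_
  simp only [visits_succ]
  exact Nat.le_add_right _ _

lemma visits_le (x : ℕ → Site d) (n : ℕ) (z : Site d) : visits x n z ≤ n := by
  unfold visits
  calc _ ≤ (Finset.range n).card := Finset.card_filter_le _ _
    _ = n := Finset.card_range n

/-- Telescoping of the charges collected along a path, site by site. -/
lemma sum_Ico_eq_sum_sites (x : ℕ → Site d) (c : Site d → ℕ → ℝ) (D : Site d → ℝ)
    {m n : ℕ} (hmn : m ≤ n) (Λ : Finset (Site d)) (hΛ : ∀ j, m ≤ j → j < n → x j ∈ Λ) :
    ∑ j ∈ Finset.Ico m n, c (x j) (visits x j (x j)) * D (x j) =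
      ∑ z ∈ Λ, D z * ((∑ i ∈ Finset.range (visits x n z), c z i) -
        ∑ i ∈ Finset.range (visits x m z), c z i) := by
  induction n, hmn using Nat.le_induction with
  | base => simp
  | succ n hmn ih =>
    rw [Finset.sum_Ico_succ_top hmn, ih (fun j h1 h2 => hΛ j h1 (by omega))]
    have hx : x n ∈ Λ := hΛ n hmn (by omega)
    have h1 : ∀ z ∈ Λ, D z * ((∑ i ∈ Finset.range (visits x (n + 1) z), c z i) -
        ∑ i ∈ Finset.range (visits x m z), c z i) =
        D z * ((∑ i ∈ Finset.range (visits x n z), c z i) -
        ∑ i ∈ Finset.range (visits x m z), c z i) +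
        (if z = x n then c (x n) (visits x n (x n)) * D (x n) else 0) := by
      intro z _
      rw [visits_succ]
      by_cases hz : x n = z
      · subst hz
        simp only [if_true]
        rw [Finset.sum_range_succ]
        ring
      · have hz' : z ≠ x n := fun h => hz h.symm
        simp [hz, hz']
    rw [Finset.sum_congr rfl h1, Finset.sum_add_distrib, Finset.sum_ite_eq' Λ (x n), if_pos hx]

end Pool.Agent.Helper99.ERW
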