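import Mathlib

/-!
# Excited random walks in random cookie environments

Definitions used in the statements about balanced excited random walks on `ℤ^d`.
-/

open MeasureTheory ProbabilityTheory Filter

namespace Pool.Agent.Helper99.ERW

/-- The lattice `ℤ^d`. -/
abbrev Site (d : ℕ) := Fin d → ℤ

/-- The `2d` unit directions: `(l, true)` stands for `+e_l`, `(l, false)` for `-e_l`. -/
abbrev Dir (d : ℕ) := Fin d × Bool

/-- The unit vector of a direction. -/
def vec {d : ℕ} (e : Dir d) : Site d := Pi.single e.1 (if e.2 then 1 else -1)

/-- A stack of cookies at one site: `s e i` is the probability of stepping in direction `e`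
at the visit number `i + 1` to the site (so cookies are numbered from `0`). -/
abbrev Stack (d : ℕ) := Dir d → ℕ → ℝ

/-- A cookie environment: `ω z e i` is the probability of stepping from `z` in direction `e`
at the visit number `i + 1` to `z`. -/
abbrev Env (d : ℕ) := Site d → Stack d

/-- `ω` is a cookie environment: nonnegative entries, summing to one over directions. -/
def IsCookieEnv {d : ℕ} (ω : Env d) : Prop :=
  ∀ z i, (∀ e, 0 ≤ ω z e i) ∧ ∑ e, ω z e i = 1

/-- `ω` is balanced: opposite directions have the same probability. -/
def IsBalanced {d : ℕ} (ω : Env d) : Prop :=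
  ∀ z l i, ω z (l, true) i = ω z (l, false) i

/-- (UEL) uniform ellipticity of the law `P` of the environment. -/
def UEL {d : ℕ} (P : Measure (Env d)) : Prop :=
  ∃ κ : ℝ, 0 < κ ∧ ∀ᵐ ω ∂P, ∀ z e i, κ ≤ ω z e i

/-- Spatial shift of an environment. -/
def shift {d : ℕ} (x : Site d) (ω : Env d) : Env d := fun z => ω (z + x)

/-- (SE) `P` is stationary and ergodic under the spatial shifts. -/
def SE {d : ℕ} (P : Measure (Env d)) : Prop :=
  (∀ x, P.map (shift x) = P) ∧
    ∀ A : Set (Env d), MeasurableSet A → (∀ x, shift x ⁻¹' A = A) → P A = 0 ∨ P A = 1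

/-- (IID) the stacks at the different sites are independent and identically distributed. -/
def IID {d : ℕ} (P : Measure (Env d)) : Prop :=
  iIndepFun (fun (z : Site d) (ω : Env d) => ω z) P ∧
    ∀ z, P.map (fun ω : Env d => ω z) = P.map (fun ω : Env d => ω 0)

/-- Number of visits of the path to its current site strictly before time `n`. -/
def pastVisits {d : ℕ} (x : ℕ → Site d) (n : ℕ) : ℕ :=
  ((Finset.range n).filter (fun r => x r = x n)).card

/-- The information given by the environment and the walk up to time `n`. -/
abbrev hist {d : ℕ} {Ω : Type*} (env : Ω → Env d) (X : ℕ → Ω → Site d) (n : ℕ) :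
    MeasurableSpace Ω :=
  MeasurableSpace.comap env inferInstance ⊔
    ⨆ k ∈ Finset.range (n + 1), MeasurableSpace.comap (X k) inferInstance

/-- `X`, defined on the probability space `(Ω, μ)`, is the excited random walk started at `0` in
the random environment `env` of law `P`: given the environment and the walk up to time `n`, the
walk steps in direction `e` with probability `ω(X_n, e, j)`, where `j` is the number of
visits to `X_n` up to time `n`. (So the law of `X` under `μ` is the averaged law `P₀`.) -/
structure IsERW {d : ℕ} {Ω : Type*} [mΩ : MeasurableSpace Ω] (P : Measure (Env d))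
    (μ : Measure Ω) (env : Ω → Env d) (X : ℕ → Ω → Site d) : Prop where
  measurable_env : Measurable env
  measurable_walk : ∀ n, Measurable (X n)
  law_env : μ.map env = P
  start : ∀ᵐ w ∂μ, X 0 w = 0
  step : ∀ n (e : Dir d),
    μ[Set.indicator {w | X (n + 1) w = X n w + vec e} (fun _ => (1 : ℝ)) | hist env X n]
      =ᵐ[μ] fun w => env w (X n w) e (pastVisits (fun k => X k w) n)

/-- The walk is recurrent: almost surely every site is visited infinitely often. -/
def Recurrent {d : ℕ} {Ω : Type*} [MeasurableSpace Ω] (μ : Measure Ω)
    (X : ℕ → Ω → Site d) : Prop :=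
  ∀ᵐ w ∂μ, ∀ z : Site d, ∃ᶠ n in atTop, X n w = z

/-- The walk is transient: almost surely `|X_n| → ∞`. -/
def Transient {d : ℕ} {Ω : Type*} [MeasurableSpace Ω] (μ : Measure Ω)
    (X : ℕ → Ω → Site d) : Prop :=
  ∀ᵐ w ∂μ, Tendsto (fun n => ‖X n w‖) atTop atTop

end Pool.Agent.Helper99.ERW
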