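import Pool.Agent.Helper99.ERW.OneStep

open MeasureTheory ProbabilityTheory Filter

namespace Pool.Agent.Helper99.ERW

variable {d : ℕ}

/-- probability of the step made by the path `x` at time `k` in the environment `ω` -/
noncomputable def stepProb (ω : Env d) (x : ℕ → Site d) (k : ℕ) : ℝ :=
  ∑ e : Dir d, if x (k + 1) = x k + vec e then ω (x k) e (pastVisits x k) else 0

/-- quenched probability of the first `m` steps of the path `x` -/
noncomputable def pathProb (ω : Env d) (x : ℕ → Site d) (m : ℕ) : ℝ :=
  ∏ k ∈ Finset.range m, stepProb ω x k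

lemma measurable_stepProb (x : ℕ → Site d) (k : ℕ) : Measurable (fun ω : Env d => stepProb ω x k) := by
  unfold stepProb
  refine Finset.measurable_sum _ fun e _ => ?_
  split_ifs
  · fun_prop
  · exact measurable_const

lemma measurable_pathProb (x : ℕ → Site d) (m : ℕ) : Measurable (fun ω : Env d => pathProb ω x m) := by
  unfold pathProb
  exact Finset.measurable_prod _ fun k _ => measurable_stepProb x k

lemma stepProb_nonneg {ω : Env d} (hω : IsCookieEnv ω) (x : ℕ → Site d) (k : ℕ) :
    0 ≤ stepProb ω x k := by
  unfold stepProb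
  refine Finset.sum_nonneg fun e _ => ?_
  split_ifs
  · exact (hω _ _).1 _
  · exact le_rfl

lemma pathProb_nonneg {ω : Env d} (hω : IsCookieEnv ω) (x : ℕ → Site d) (m : ℕ) :
    0 ≤ pathProb ω x m :=
  Finset.prod_nonneg fun k _ => stepProb_nonneg hω x k

lemma stepProb_eq {ω : Env d} {x : ℕ → Site d} {k : ℕ} {e : Dir d} (h : x (k + 1) = x k + vec e) :
    stepProb ω x k = ω (x k) e (pastVisits x k) := by
  unfold stepProb
  rw [Finset.sum_eq_single e]
  · rw [if_pos h]
  · intro e' _ hne
    rw [if_neg]
    intro h'
    apply hne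
    rw [h] at h'
    exact (vec_injective (add_left_cancel h')).symm
  · intro h'
    exact absurd (Finset.mem_univ e) h'

lemma stepProb_eq_zero {ω : Env d} {x : ℕ → Site d} {k : ℕ} (h : ∀ e : Dir d, x (k + 1) ≠ x k + vec e) :
    stepProb ω x k = 0 := by
  unfold stepProb
  exact Finset.sum_eq_zero fun e _ => if_neg (h e)

lemma pathProb_succ (ω : Env d) (x : ℕ → Site d) (m : ℕ) :
    pathProb ω x (m + 1) = pathProb ω x m * stepProb ω x m := by
  unfold pathProb
  rw [Finset.prod_range_succ]

section

variable {Ω : Type*} [mΩ : MeasurableSpace Ω] {P : Measure (Env d)} {μ : Measure Ω}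
  {env : Ω → Env d} {X : ℕ → Ω → Site d}

/-- the event that the walk follows the path `x` up to time `m` -/
def cyl (X : ℕ → Ω → Site d) (x : ℕ → Site d) (m : ℕ) : Set Ω := {w | ∀ k ≤ m, X k w = x k}

omit mΩ in
lemma measurableSet_cyl_hist (env : Ω → Env d) (X : ℕ → Ω → Site d) (x : ℕ → Site d) (m : ℕ) :
    MeasurableSet[hist env X m] (cyl X x m) := by
  have : cyl X x m = ⋂ k ∈ Finset.range (m + 1), X k ⁻¹' {x k} := by
    ext w
    simp only [cyl, Set.mem_ofPred_eq, Set.mem_iInter, Finset.mem_range, Set.mem_preimage,
      Set.mem_singleton_iff]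
    constructor
    · intro h k hk; exact h k (by omega)
    · intro h k hk; exact h k (by omega)
  rw [this]
  refine Finset.measurableSet_biInter _ fun k hk => ?_
  exact measurable_walk_hist env X (by simp only [Finset.mem_range] at hk; omega)
    (measurableSet_singleton _)

lemma pastVisits_congr {x y : ℕ → Site d} {m : ℕ} (h : ∀ k ≤ m, x k = y k) :
    pastVisits x m = pastVisits y m := by
  unfold pastVisits
  congr 1
  refine Finset.filter_congr fun r hr => ?_
  rw [h r (by simp only [Finset.mem_range] at hr; omega), h m le_rfl]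

lemma IsERW.lintegral_cyl_step [IsProbabilityMeasure μ] (h : IsERW P μ env X)
    (hP : ∀ᵐ ω ∂P, IsCookieEnv ω) (x : ℕ → Site d) (m : ℕ) (e : Dir d)
    (g : Env d → ENNReal) (hg : Measurable g) :
    ∫⁻ w in cyl X x m ∩ stepSet X m e, g (env w) ∂μ =
      ∫⁻ w in cyl X x m, g (env w) * ENNReal.ofReal (env w (x m) e (pastVisits x m)) ∂μ := by
  have hcyl : MeasurableSet (cyl X x m) := h.hist_le m _ (measurableSet_cyl_hist env X x m)
  have hq : Measurable (fun ω : Env d => ENNReal.ofReal (ω (x m) e (pastVisits x m))) := by
    fun_prop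
  have hmeq : (μ.restrict (cyl X x m ∩ stepSet X m e)).map env =
      ((μ.restrict (cyl X x m)).map env).withDensity
        (fun ω => ENNReal.ofReal (ω (x m) e (pastVisits x m))) := by
    ext B hB
    have hE : MeasurableSet[hist env X m] (env ⁻¹' B ∩ cyl X x m) :=
      (measurable_env_hist env X m hB).inter (measurableSet_cyl_hist env X x m)
    have h1 := h.measureReal_step m e hE
    rw [Measure.map_apply h.measurable_env hB, withDensity_apply _ hB,
      Measure.restrict_apply (h.measurable_env hB),
      setLIntegral_map hB hq h.measurable_env,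
      Measure.restrict_restrict (h.measurable_env hB), ← Set.inter_assoc]
    have h2 : μ (env ⁻¹' B ∩ cyl X x m ∩ stepSet X m e) =
        ENNReal.ofReal (μ.real (env ⁻¹' B ∩ cyl X x m ∩ stepSet X m e)) := by
      rw [measureReal_def, ENNReal.ofReal_toReal (measure_ne_top _ _)]
    rw [h2, h1, ofReal_integral_eq_lintegral_ofReal]
    · refine setLIntegral_congr_fun (h.hist_le m _ hE) fun w hw => ?_
      have hw2 : ∀ k ≤ m, X k w = x k := hw.2
      rw [hw2 m le_rfl, pastVisits_congr (y := x) hw2]
    · exact (h.integrable_cookie hP m e).integrableOn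
    · refine ae_restrict_of_ae ?_
      filter_upwards [h.ae_env hP] with w hw
      exact (hw _ _).1 _
  have h3 : ∫⁻ w in cyl X x m ∩ stepSet X m e, g (env w) ∂μ =
      ∫⁻ ω, g ω ∂((μ.restrict (cyl X x m ∩ stepSet X m e)).map env) := by
    rw [lintegral_map hg h.measurable_env]
  rw [h3, hmeq, lintegral_withDensity_eq_lintegral_mul _ hq hg,
    lintegral_map (hq.mul hg) h.measurable_env]
  refine lintegral_congr fun w => ?_
  simp only [Pi.mul_apply]
  rw [mul_comm]

/-- The joint law of the environment and of the first `m` steps. -/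
lemma IsERW.lintegral_cyl [IsProbabilityMeasure μ] (h : IsERW P μ env X)
    (hP : ∀ᵐ ω ∂P, IsCookieEnv ω) (x : ℕ → Site d) (hx : x 0 = 0) (m : ℕ) :
    ∀ (g : Env d → ENNReal), Measurable g →
    ∫⁻ w in cyl X x m, g (env w) ∂μ = ∫⁻ ω, g ω * ENNReal.ofReal (pathProb ω x m) ∂P := by
  induction m with
  | zero =>
    intro g hg
    have h1 : ∀ᵐ w ∂μ, w ∈ cyl X x 0 := by
      filter_upwards [h.start] with w hw k hk
      have : k = 0 := by omega
      subst this
      rw [hw, hx]
    rw [Measure.restrict_eq_self_of_ae_mem h1]
    · simp only [pathProb, Finset.range_zero, Finset.prod_empty, ENNReal.ofReal_one, mul_one]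
      rw [← h.law_env, lintegral_map hg h.measurable_env]
  | succ m ih =>
    intro g hg
    by_cases hex : ∃ e : Dir d, x (m + 1) = x m + vec e
    · obtain ⟨e, he⟩ := hex
      have h1 : cyl X x (m + 1) = cyl X x m ∩ stepSet X m e := by
        ext w
        simp only [cyl, stepSet, Set.mem_ofPred_eq, Set.mem_inter_iff]
        constructor
        · intro hw
          refine ⟨fun k hk => hw k (by omega), ?_⟩
          rw [hw (m + 1) le_rfl, hw m (by omega), he]
        · rintro ⟨h1, h2⟩ k hk
          rcases Nat.lt_or_ge k (m + 1) with hlt | hge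
          · exact h1 k (by omega)
          · have : k = m + 1 := by omega
            subst this
            rw [h2, h1 m le_rfl, he]
      have hq : Measurable (fun ω : Env d => ENNReal.ofReal (ω (x m) e (pastVisits x m))) := by
        fun_prop
      rw [h1, h.lintegral_cyl_step hP x m e g hg,
        ih (fun ω => g ω * ENNReal.ofReal (ω (x m) e (pastVisits x m))) (hg.mul hq)]
      refine lintegral_congr_ae ?_
      filter_upwards [hP] with ω hω
      rw [pathProb_succ, stepProb_eq he, ENNReal.ofReal_mul (pathProb_nonneg hω x m)]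
      ring
    · push Not at hex
      have h1 : μ (cyl X x (m + 1)) = 0 := by
        have := h.ae_exists_step hP m
        refine measure_mono_null ?_ this
        intro w hw hcon
        obtain ⟨e, he⟩ := hcon
        apply hex e
        rw [← hw (m + 1) le_rfl, ← hw m (by omega), he]
      rw [Measure.restrict_eq_zero.mpr h1, lintegral_zero_measure]
      symm
      rw [lintegral_eq_zero_iff']
      · refine Filter.Eventually.of_forall fun ω => ?_
        simp only [pathProb_succ, stepProb_eq_zero hex, mul_zero, ENNReal.ofReal_zero, Pi.zero_apply]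
      · exact (hg.mul ((measurable_pathProb x (m + 1)).ennreal_ofReal)).aemeasurable

end

end Pool.Agent.Helper99.ERW
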