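import Pool.Agent.Helper99.ERW.Cylinder

open MeasureTheory ProbabilityTheory Filter

namespace Pool.Agent.Helper99.ERW

variable {d : ℕ}

/-- extend a family of stacks indexed by a finite set of sites by zero -/
noncomputable def extEnv (T : Finset (Site d)) (f : T → Stack d) : Env d :=
  fun y => if h : y ∈ T then f ⟨y, h⟩ else 0

lemma measurable_extEnv (T : Finset (Site d)) : Measurable (extEnv T) := by
  unfold extEnv
  refine measurable_pi_lambda _ fun y => ?_
  by_cases h : y ∈ T
  · simp only [h, dif_pos]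
    exact measurable_pi_apply _
  · simp only [h, dif_neg, not_false_iff]
    exact measurable_const

lemma pathProb_extEnv (x : ℕ → Site d) (m : ℕ) (T : Finset (Site d))
    (hT : ∀ k < m, x k ∈ T) (ω : Env d) :
    pathProb (extEnv T (fun i : T => ω i)) x m = pathProb ω x m := by
  unfold pathProb
  refine Finset.prod_congr rfl fun k hk => ?_
  unfold stepProb
  refine Finset.sum_congr rfl fun e _ => ?_
  have h1 : x k ∈ T := hT k (Finset.mem_range.mp hk)
  have h2 : extEnv T (fun i : T => ω i) (x k) = ω (x k) := by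
    unfold extEnv
    rw [dif_pos h1]
  rw [h2]

/-- Under (IID) the stack at a site not used by the path is independent of its probability. -/
lemma IID.lintegral_mul_pathProb {P : Measure (Env d)} [IsProbabilityMeasure P] (hI : IID P)
    (x : ℕ → Site d) (m : ℕ) (z : Site d) (hz : ∀ k < m, x k ≠ z) (g : Stack d → ENNReal)
    (hg : Measurable g) :
    ∫⁻ ω, g (ω z) * ENNReal.ofReal (pathProb ω x m) ∂P =
      (∫⁻ ω, g (ω 0) ∂P) * ∫⁻ ω, ENNReal.ofReal (pathProb ω x m) ∂P := by
  classical
  set T : Finset (Site d) := (Finset.range m).image x with hT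
  have hTmem : ∀ k < m, x k ∈ T := fun k hk =>
    Finset.mem_image_of_mem _ (Finset.mem_range.mpr hk)
  have hzT : z ∉ T := by
    rw [hT, Finset.mem_image]
    rintro ⟨k, hk, hkz⟩
    exact hz k (Finset.mem_range.mp hk) hkz
  have hdisj : Disjoint ({z} : Finset (Site d)) T := Finset.disjoint_singleton_left.mpr hzT
  have h1 := hI.1.indepFun_finset {z} T hdisj (fun i => measurable_pi_apply i)
  have hz' : z ∈ ({z} : Finset (Site d)) := Finset.mem_singleton_self z
  have h2 := h1.comp (φ := fun f : (({z} : Finset (Site d)) → Stack d) => g (f ⟨z, hz'⟩))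
    (ψ := fun f : (T → Stack d) => ENNReal.ofReal (pathProb (extEnv T f) x m))
    (hg.comp (measurable_pi_apply _))
    (((measurable_pathProb x m).comp (measurable_extEnv T)).ennreal_ofReal)
  have h3 := lintegral_mul_eq_lintegral_mul_lintegral_of_indepFun
    (f := fun ω : Env d => g (ω z))
    (g := fun ω : Env d => ENNReal.ofReal (pathProb ω x m))
    (hg.comp (measurable_pi_apply z)) (measurable_pathProb x m).ennreal_ofReal (by
      have e1 : (fun ω : Env d => ENNReal.ofReal (pathProb ω x m)) =
          (fun f : (T → Stack d) => ENNReal.ofReal (pathProb (extEnv T f) x m)) ∘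
            (fun (ω : Env d) (i : T) => ω i) := by
        funext ω
        simp only [Function.comp]
        rw [pathProb_extEnv x m T hTmem ω]
      rw [e1]
      exact h2)
  simp only [Pi.mul_apply] at h3
  rw [h3]
  congr 1
  have h4 := hI.2 z
  calc ∫⁻ ω, g (ω z) ∂P = ∫⁻ s, g s ∂(P.map (fun ω : Env d => ω z)) := by
        rw [lintegral_map hg (measurable_pi_apply z)]
    _ = ∫⁻ s, g s ∂(P.map (fun ω : Env d => ω 0)) := by rw [h4]
    _ = _ := by rw [lintegral_map hg (measurable_pi_apply 0)]

section

variable {Ω : Type*} [mΩ : MeasurableSpace Ω] {P : Measure (Env d)} {μ : Measure Ω}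
  {env : Ω → Env d} {X : ℕ → Ω → Site d}

/-- Under (IID), the stack at `z` is independent of the walk until the first visit to `z`. -/
lemma IsERW.lintegral_firstVisit [IsProbabilityMeasure μ] [IsProbabilityMeasure P]
    (h : IsERW P μ env X)
    (hP : ∀ᵐ ω ∂P, IsCookieEnv ω) (hI : IID P) (z : Site d) (m : ℕ) (g : Stack d → ENNReal)
    (hg : Measurable g) :
    ∫⁻ w in {w | X m w = z ∧ ∀ k < m, X k w ≠ z}, g (env w z) ∂μ =
      (∫⁻ ω, g (ω 0) ∂P) * μ {w | X m w = z ∧ ∀ k < m, X k w ≠ z} := by
  classical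
  -- index the paths
  set ext : (Fin (m + 1) → Site d) → ℕ → Site d :=
    fun p k => if hk : k < m + 1 then p ⟨k, hk⟩ else z with hext
  set G : Set (Fin (m + 1) → Site d) := {p | ext p m = z ∧ ∀ k < m, ext p k ≠ z} with hG
  have hext_eq : ∀ (p : Fin (m + 1) → Site d) (w : Ω), w ∈ cyl X (ext p) m ↔
      ∀ k : Fin (m + 1), X k w = p k := by
    intro p w
    constructor
    · intro hw k
      have := hw k (by omega)
      rw [this, hext]
      simp only [Fin.is_lt, dif_pos, Fin.eta]
    · intro hw k hk
      have := hw ⟨k, by omega⟩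
      simp only at this
      rw [this, hext]
      simp only
      rw [dif_pos (by omega : k < m + 1)]
  have hcover : {w | X m w = z ∧ ∀ k < m, X k w ≠ z} = ⋃ p : G, cyl X (ext p.1) m := by
    ext w
    simp only [Set.mem_ofPred_eq, Set.mem_iUnion]
    constructor
    · rintro ⟨h1, h2⟩
      have hp : w ∈ cyl X (ext (fun k : Fin (m + 1) => X k w)) m :=
        (hext_eq _ w).mpr fun k => rfl
      refine ⟨⟨fun k => X k w, ?_, ?_⟩, hp⟩
      · rw [← hp m le_rfl, h1]
      · intro k hk
        rw [← hp k hk.le]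
        exact h2 k hk
    · rintro ⟨⟨p, hp1, hp2⟩, hw⟩
      refine ⟨by rw [hw m le_rfl, hp1], fun k hk => ?_⟩
      rw [hw k hk.le]
      exact hp2 k hk
  have hmeas : ∀ p : G, MeasurableSet (cyl X (ext p.1) m) := fun p =>
    h.hist_le m _ (measurableSet_cyl_hist env X _ m)
  have hdisj : Pairwise (Function.onFun Disjoint fun p : G => cyl X (ext p.1) m) := by
    intro p q hpq
    rw [Function.onFun, Set.disjoint_left]
    intro w hw hw'
    apply hpq
    apply Subtype.ext
    funext k
    rw [← (hext_eq p.1 w).mp hw k, (hext_eq q.1 w).mp hw' k]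
  rw [hcover, lintegral_iUnion hmeas hdisj, measure_iUnion hdisj hmeas, ← ENNReal.tsum_mul_left]
  refine tsum_congr fun p => ?_
  by_cases h0 : ext p.1 0 = 0
  · rw [h.lintegral_cyl hP (ext p.1) h0 m (fun ω => g (ω z)) (hg.comp (measurable_pi_apply z)),
      hI.lintegral_mul_pathProb (ext p.1) m z p.2.2 g hg]
    congr 1
    have := h.lintegral_cyl hP (ext p.1) h0 m (fun _ => 1) measurable_const
    simp only [one_mul, lintegral_const, MeasurableSet.univ, Measure.restrict_apply,
      Set.univ_inter] at this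
    exact this.symm
  · have h1 : μ (cyl X (ext p.1) m) = 0 := by
      refine measure_mono_null ?_ h.start
      intro w hw hcon
      apply h0
      rw [← hw 0 (Nat.zero_le _)]
      exact hcon
    rw [Measure.restrict_eq_zero.mpr h1, lintegral_zero_measure, h1, mul_zero]

/-- the event that `z` is visited strictly before time `n` -/
def visitedBy (X : ℕ → Ω → Site d) (z : Site d) (n : ℕ) : Set Ω := {w | ∃ k < n, X k w = z}

lemma IsERW.measurableSet_visitedBy (h : IsERW P μ env X) (z : Site d) (n : ℕ) :
    MeasurableSet (visitedBy X z n) := by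
  have : visitedBy X z n = ⋃ k ∈ Finset.range n, X k ⁻¹' {z} := by
    ext w
    simp [visitedBy]
  rw [this]
  exact Finset.measurableSet_biUnion _ fun k _ => h.measurable_walk k (measurableSet_singleton z)

lemma IsERW.lintegral_visitedBy [IsProbabilityMeasure μ] [IsProbabilityMeasure P]
    (h : IsERW P μ env X)
    (hP : ∀ᵐ ω ∂P, IsCookieEnv ω) (hI : IID P) (z : Site d) (n : ℕ) (g : Stack d → ENNReal)
    (hg : Measurable g) :
    ∫⁻ w in visitedBy X z n, g (env w z) ∂μ = (∫⁻ ω, g (ω 0) ∂P) * μ (visitedBy X z n) := by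
  have hcover : visitedBy X z n =
      ⋃ m : Fin n, {w | X m w = z ∧ ∀ k < (m : ℕ), X k w ≠ z} := by
    ext w
    simp only [visitedBy, Set.mem_ofPred_eq, Set.mem_iUnion]
    constructor
    · rintro ⟨k, hk, hkz⟩
      have hex : ∃ k, X k w = z := ⟨k, hkz⟩
      classical
      refine ⟨⟨Nat.find hex, lt_of_le_of_lt (Nat.find_min' hex hkz) hk⟩, Nat.find_spec hex, ?_⟩
      intro j hj
      exact Nat.find_min hex hj
    · rintro ⟨m, h1, _⟩
      exact ⟨m, m.2, h1⟩
  have hmeas : ∀ m : Fin n, MeasurableSet {w | X m w = z ∧ ∀ k < (m : ℕ), X k w ≠ z} := by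
    intro m
    refine MeasurableSet.inter (h.measurable_walk m (measurableSet_singleton z)) ?_
    have : {w | ∀ k < (m : ℕ), X k w ≠ z} = ⋂ k ∈ Finset.range m, (X k ⁻¹' {z})ᶜ := by
      ext w
      simp
    rw [show (fun w => ∀ k < (m : ℕ), X k w ≠ z) = {w | ∀ k < (m : ℕ), X k w ≠ z} from rfl, this]
    exact Finset.measurableSet_biInter _ fun k _ =>
      (h.measurable_walk k (measurableSet_singleton z)).compl
  have hdisj : Pairwise (Function.onFun Disjoint
      fun m : Fin n => {w | X m w = z ∧ ∀ k < (m : ℕ), X k w ≠ z}) := by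
    intro p q hpq
    rw [Function.onFun, Set.disjoint_left]
    rintro w ⟨hw1, hw2⟩ ⟨hw3, hw4⟩
    rcases lt_trichotomy (p : ℕ) q with hlt | heq | hgt
    · exact hw4 p hlt hw1
    · exact hpq (Fin.ext heq)
    · exact hw2 q hgt hw3
  rw [hcover, lintegral_iUnion hmeas hdisj, measure_iUnion hdisj hmeas, ← ENNReal.tsum_mul_left]
  exact tsum_congr fun m => h.lintegral_firstVisit hP hI z m g hg

end

end Pool.Agent.Helper99.ERW
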