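import Pool.Agent.Helper99.ERW.Basic

open MeasureTheory ProbabilityTheory Filter

namespace Pool.Agent.Helper99.ERW

variable {d : ℕ}

lemma vec_injective : Function.Injective (vec : Dir d → Site d) := by
  rintro ⟨l, b⟩ ⟨l', b'⟩ h
  unfold vec at h
  simp only at h
  have hl : l = l' := by
    by_contra hne
    have h1 := congrFun h l
    rw [Pi.single_eq_same, Pi.single_eq_of_ne hne] at h1
    cases b <;> simp at h1
  subst hl
  have h1 := congrFun h l
  rw [Pi.single_eq_same, Pi.single_eq_same] at h1
  cases b <;> cases b' <;> simp at h1 <;> rfl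

lemma abs_vec_le (e : Dir d) (l : Fin d) : |vec e l| ≤ 1 := by
  obtain ⟨k, b⟩ := e
  unfold vec
  by_cases h : l = k
  · subst h
    rw [Pi.single_eq_same]
    cases b <;> simp
  · rw [Pi.single_eq_of_ne h]
    simp

/-- Second difference of `f` in the coordinate direction `l`. -/
def secondDiff (f : Site d → ℝ) (l : Fin d) (x : Site d) : ℝ :=
  f (x + vec (l, true)) + f (x + vec (l, false)) - 2 * f x

/-- The box of sup-norm radius `n` around the origin. -/
noncomputable def box (d n : ℕ) : Finset (Site d) := Fintype.piFinset fun _ => Finset.Icc (-(n : ℤ)) n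

lemma mem_box {n : ℕ} {x : Site d} : x ∈ box d n ↔ ∀ l, |x l| ≤ n := by
  unfold box
  rw [Fintype.mem_piFinset]
  simp only [Finset.mem_Icc, abs_le]

lemma exists_bound_box (f : Site d → ℝ) (n : ℕ) : ∃ C : ℝ, 0 ≤ C ∧ ∀ x ∈ box d n, |f x| ≤ C := by
  refine ⟨∑ x ∈ box d n, |f x|, Finset.sum_nonneg fun _ _ => abs_nonneg _, fun x hx => ?_⟩
  exact Finset.single_le_sum (f := fun x => |f x|) (fun _ _ => abs_nonneg _) hx

/-- number of visits to `z` strictly before time `n` -/
def visits (x : ℕ → Site d) (n : ℕ) (z : Site d) : ℕ :=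
  ((Finset.range n).filter (fun r => x r = z)).card

lemma pastVisits_eq (x : ℕ → Site d) (n : ℕ) : pastVisits x n = visits x n (x n) := rfl

section hist

variable {Ω : Type*}

lemma hist_mono (env : Ω → Env d) (X : ℕ → Ω → Site d) : Monotone (hist env X) := by
  intro n m hnm
  unfold hist
  refine sup_le_sup le_rfl ?_
  refine iSup₂_le fun k hk => ?_
  refine le_iSup₂_of_le k ?_ le_rfl
  simp only [Finset.mem_range] at hk ⊢
  omega

lemma measurable_env_hist (env : Ω → Env d) (X : ℕ → Ω → Site d) (n : ℕ) :
    Measurable[hist env X n] env := by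
  rw [measurable_iff_comap_le]
  exact le_sup_left

lemma measurable_walk_hist (env : Ω → Env d) (X : ℕ → Ω → Site d) {k n : ℕ} (hk : k ≤ n) :
    Measurable[hist env X n] (X k) := by
  rw [measurable_iff_comap_le]
  refine le_trans ?_ le_sup_right
  refine le_iSup₂_of_le k ?_ le_rfl
  simp only [Finset.mem_range]
  omega

lemma measurable_visits_hist (env : Ω → Env d) (X : ℕ → Ω → Site d) {k n : ℕ} (hk : k ≤ n)
    (z : Site d) : Measurable[hist env X n] (fun w => visits (fun j => X j w) k z) := by
  unfold visits
  simp only [Finset.card_filter]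
  refine Finset.measurable_sum _ fun r hr => ?_
  refine Measurable.ite ?_ measurable_const measurable_const
  have h1 : Measurable[hist env X n] (X r) :=
    measurable_walk_hist env X (by simp only [Finset.mem_range] at hr; omega)
  exact h1 (measurableSet_singleton z)

lemma measurable_pastVisits_hist (env : Ω → Env d) (X : ℕ → Ω → Site d) {k n : ℕ} (hk : k ≤ n) :
    Measurable[hist env X n] (fun w => pastVisits (fun j => X j w) k) := by
  unfold pastVisits
  simp only [Finset.card_filter]
  refine Finset.measurable_sum _ fun r hr => ?_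
  refine Measurable.ite ?_ measurable_const measurable_const
  have h1 : Measurable[hist env X n] (X r) :=
    measurable_walk_hist env X (by simp only [Finset.mem_range] at hr; omega)
  have h2 : Measurable[hist env X n] (X k) := measurable_walk_hist env X hk
  exact measurableSet_eq_fun h1 h2

lemma measurable_cookie_hist (env : Ω → Env d) (X : ℕ → Ω → Site d) {k n : ℕ} (hk : k ≤ n)
    (e : Dir d) :
    Measurable[hist env X n]
      (fun w => env w (X k w) e (pastVisits (fun j => X j w) k)) := by
  have hX : Measurable[hist env X n] (X k) := measurable_walk_hist env X hk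
  have hE : Measurable[hist env X n] env := measurable_env_hist env X n
  have hV := measurable_pastVisits_hist env X hk
  have hF : Measurable (fun p : Env d × (Site d × ℕ) => p.1 p.2.1 e p.2.2) := by
    refine measurable_from_prod_countable_left fun p => ?_
    have : Measurable (fun ω : Env d => ω p.1 e p.2) := by fun_prop
    exact this
  exact hF.comp (hE.prodMk (hX.prodMk hV))

end hist

section ERW

variable {Ω : Type*} [mΩ : MeasurableSpace Ω] {P : Measure (Env d)} {μ : Measure Ω}
  {env : Ω → Env d} {X : ℕ → Ω → Site d}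

lemma IsERW.hist_le (h : IsERW P μ env X) (n : ℕ) : hist env X n ≤ mΩ := by
  unfold hist
  refine sup_le h.measurable_env.comap_le ?_
  exact iSup₂_le fun k _ => (h.measurable_walk k).comap_le

/-- The filtration generated by the environment and the walk. -/
def IsERW.filt (h : IsERW P μ env X) : Filtration ℕ mΩ where
  seq := hist env X
  mono' := hist_mono env X
  le' := h.hist_le

/-- cookie environment property transferred to `Ω` -/
lemma IsERW.ae_env (h : IsERW P μ env X) {p : Env d → Prop} (hp : ∀ᵐ ω ∂P, p ω) :
    ∀ᵐ w ∂μ, p (env w) := by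
  rw [← h.law_env] at hp
  exact ae_of_ae_map h.measurable_env.aemeasurable hp

/-- The event that the walk makes step `e` at time `n`. -/
def stepSet (X : ℕ → Ω → Site d) (n : ℕ) (e : Dir d) : Set Ω :=
  {w | X (n + 1) w = X n w + vec e}

lemma IsERW.measurableSet_stepSet (h : IsERW P μ env X) (n : ℕ) (e : Dir d) :
    MeasurableSet (stepSet X n e) :=
  measurableSet_eq_fun (h.measurable_walk _) ((h.measurable_walk n).add_const _)

/-- Conditional probability integrated over an event of the past. -/
lemma IsERW.measureReal_step [IsFiniteMeasure μ] (h : IsERW P μ env X) (n : ℕ) (e : Dir d)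
    {E : Set Ω} (hE : MeasurableSet[hist env X n] E) :
    μ.real (E ∩ stepSet X n e) =
      ∫ w in E, env w (X n w) e (pastVisits (fun k => X k w) n) ∂μ := by
  have h1 := setIntegral_condExp (μ := μ) (f := Set.indicator (stepSet X n e) (fun _ => (1 : ℝ)))
    (h.hist_le n) ((integrable_const (1 : ℝ)).indicator (h.measurableSet_stepSet n e)) hE
  rw [setIntegral_congr_ae (h.hist_le n _ hE)
    (g := fun w => env w (X n w) e (pastVisits (fun k => X k w) n))] at h1
  · rw [h1, setIntegral_indicator (h.measurableSet_stepSet n e)]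
    simp
  · filter_upwards [h.step n e] with w hw _
    exact hw

/-- basic assumptions on the law of the environment -/
structure GoodEnv (P : Measure (Env d)) : Prop where
  cookie : ∀ᵐ ω ∂P, IsCookieEnv ω
  balanced : ∀ᵐ ω ∂P, IsBalanced ω

lemma cookie_le_one {ω : Env d} (hω : IsCookieEnv ω) (z : Site d) (e : Dir d) (i : ℕ) :
    ω z e i ≤ 1 := by
  have h1 := (hω z i).2
  rw [← h1]
  exact Finset.single_le_sum (f := fun e => ω z e i) (fun e _ => (hω z i).1 e) (Finset.mem_univ e)

lemma IsERW.integrable_cookie [IsFiniteMeasure μ] (h : IsERW P μ env X)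
    (hP : ∀ᵐ ω ∂P, IsCookieEnv ω) (n : ℕ) (e : Dir d) :
    Integrable (fun w => env w (X n w) e (pastVisits (fun k => X k w) n)) μ := by
  refine Integrable.of_bound (C := 1) ?_ ?_
  · exact ((measurable_cookie_hist env X le_rfl e).mono (h.hist_le n) le_rfl).aestronglyMeasurable
  · filter_upwards [h.ae_env hP] with w hw
    rw [Real.norm_eq_abs, abs_of_nonneg ((hw _ _).1 _)]
    exact cookie_le_one hw _ _ _

/-- Almost surely the walk makes one of the `2d` unit steps. -/
lemma IsERW.ae_exists_step [IsProbabilityMeasure μ] (h : IsERW P μ env X)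
    (hP : ∀ᵐ ω ∂P, IsCookieEnv ω) (n : ℕ) :
    ∀ᵐ w ∂μ, ∃ e : Dir d, X (n + 1) w = X n w + vec e := by
  have h1 : ∑ e : Dir d, μ.real (stepSet X n e) = 1 := by
    have h2 : ∀ e : Dir d, μ.real (stepSet X n e) =
        ∫ w, env w (X n w) e (pastVisits (fun k => X k w) n) ∂μ := by
      intro e
      have := h.measureReal_step n e (E := Set.univ) MeasurableSet.univ
      simpa using this
    simp_rw [h2]
    rw [← integral_finsetSum _ (fun e _ => h.integrable_cookie hP n e)]
    have h3 : ∀ᵐ w ∂μ, ∑ e : Dir d, env w (X n w) e (pastVisits (fun k => X k w) n) = 1 := by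
      filter_upwards [h.ae_env hP] with w hw
      exact (hw _ _).2
    rw [integral_congr_ae h3]
    simp
  have h2 : μ.real (⋃ e : Dir d, stepSet X n e) = 1 := by
    rw [← h1, measureReal_iUnion_fintype ?_ (fun e => h.measurableSet_stepSet n e)]
    intro e e' hne
    rw [Function.onFun, Set.disjoint_left]
    intro w hw hw'
    apply hne
    have : X n w + vec e = X n w + vec e' := by
      rw [← show X (n+1) w = X n w + vec e from hw, show X (n+1) w = X n w + vec e' from hw']
    exact vec_injective (add_left_cancel this)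
  have h3 : μ (⋃ e : Dir d, stepSet X n e) = 1 := by
    rw [measureReal_def] at h2
    rw [← ENNReal.toReal_eq_one_iff]
    exact h2
  have h4 : MeasurableSet (⋃ e : Dir d, stepSet X n e) :=
    MeasurableSet.iUnion fun e => h.measurableSet_stepSet n e
  rw [prob_compl_eq_zero_iff h4 |>.symm] at h3
  filter_upwards [measure_eq_zero_iff_ae_notMem.mp h3] with w hw
  rw [Set.mem_compl_iff, not_not, Set.mem_iUnion] at hw
  exact hw

/-- Almost surely the walk is a nearest neighbour path started at `0`. -/
lemma IsERW.ae_mem_box [IsProbabilityMeasure μ] (h : IsERW P μ env X)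
    (hP : ∀ᵐ ω ∂P, IsCookieEnv ω) :
    ∀ᵐ w ∂μ, ∀ n, X n w ∈ box d n := by
  have h1 : ∀ᵐ w ∂μ, ∀ n, ∃ e : Dir d, X (n + 1) w = X n w + vec e :=
    ae_all_iff.mpr fun n => h.ae_exists_step hP n
  filter_upwards [h1, h.start] with w hw h0 n
  rw [mem_box]
  induction n with
  | zero => intro l; simp [h0]
  | succ n ih =>
    intro l
    obtain ⟨e, he⟩ := hw n
    rw [he]
    calc |(X n w + vec e) l| = |X n w l + vec e l| := rfl
      _ ≤ |X n w l| + |vec e l| := abs_add_le _ _
      _ ≤ n + 1 := add_le_add (ih l) (abs_vec_le e l)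
      _ = ((n + 1 : ℕ) : ℤ) := by push_cast; ring

/-- The drift of `f` along the walk at time `n`. -/
def drift (env : Ω → Env d) (X : ℕ → Ω → Site d) (f : Site d → ℝ) (n : ℕ) (w : Ω) : ℝ :=
  ∑ l : Fin d, env w (X n w) (l, true) (pastVisits (fun k => X k w) n) * secondDiff f l (X n w)

lemma IsERW.integrable_comp [IsProbabilityMeasure μ] (h : IsERW P μ env X)
    (hP : ∀ᵐ ω ∂P, IsCookieEnv ω) (f : Site d → ℝ) (n : ℕ) :
    Integrable (fun w => f (X n w)) μ := by
  obtain ⟨C, hC, hfC⟩ := exists_bound_box f n
  refine Integrable.of_bound (C := C) ?_ ?_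
  · exact ((measurable_of_countable f).comp (h.measurable_walk n)).aestronglyMeasurable
  · filter_upwards [h.ae_mem_box hP] with w hw
    exact hfC _ (hw n)

omit mΩ in
lemma measurable_drift_hist (env : Ω → Env d) (X : ℕ → Ω → Site d) (f : Site d → ℝ)
    {k n : ℕ} (hk : k ≤ n) : Measurable[hist env X n] (drift env X f k) := by
  unfold drift
  refine Finset.measurable_sum _ fun l _ => ?_
  refine (measurable_cookie_hist env X hk _).mul ?_
  exact (measurable_of_countable (secondDiff f l)).comp (measurable_walk_hist env X hk)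

lemma IsERW.integrable_drift [IsProbabilityMeasure μ] (h : IsERW P μ env X)
    (hP : ∀ᵐ ω ∂P, IsCookieEnv ω) (f : Site d → ℝ) (n : ℕ) :
    Integrable (drift env X f n) μ := by
  unfold drift
  refine integrable_finsetSum _ fun l _ => ?_
  obtain ⟨C, hC, hfC⟩ := exists_bound_box (secondDiff f l) n
  refine Integrable.of_bound (C := C) ?_ ?_
  · refine Measurable.aestronglyMeasurable ?_
    refine Measurable.mul ?_ ?_
    · exact (measurable_cookie_hist env X le_rfl _).mono (h.hist_le n) le_rfl
    · exact (measurable_of_countable (secondDiff f l)).comp (h.measurable_walk n)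
  · filter_upwards [h.ae_env hP, h.ae_mem_box hP] with w hw hb
    rw [norm_mul, Real.norm_eq_abs, Real.norm_eq_abs, abs_of_nonneg ((hw _ _).1 _)]
    calc _ ≤ 1 * C := mul_le_mul (cookie_le_one hw _ _ _) (hfC _ (hb n)) (abs_nonneg _) zero_le_one
      _ = C := one_mul C

/-- One step identity. -/
lemma IsERW.setIntegral_succ [IsProbabilityMeasure μ] (h : IsERW P μ env X)
    (hP : ∀ᵐ ω ∂P, IsCookieEnv ω) (hB : ∀ᵐ ω ∂P, IsBalanced ω) (f : Site d → ℝ) (n : ℕ)
    {E : Set Ω} (hE : MeasurableSet[hist env X n] E) :
    ∫ w in E, f (X (n + 1) w) ∂μ =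
      ∫ w in E, f (X n w) ∂μ + ∫ w in E, drift env X f n w ∂μ := by
  have hEm : MeasurableSet E := h.hist_le n _ hE
  -- the increment is a sum over directions
  have h1 : ∀ᵐ w ∂μ, f (X (n + 1) w) = ∑ e : Dir d,
      f (X n w + vec e) * Set.indicator (stepSet X n e) (fun _ => (1 : ℝ)) w := by
    filter_upwards [h.ae_exists_step hP n] with w hw
    obtain ⟨e, he⟩ := hw
    rw [Finset.sum_eq_single e]
    · rw [Set.indicator_of_mem (show w ∈ stepSet X n e from he), mul_one, he]
    · intro e' _ hne
      rw [Set.indicator_of_notMem, mul_zero]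
      intro hmem
      apply hne
      have : X n w + vec e' = X n w + vec e := by
        rw [← show X (n+1) w = X n w + vec e' from hmem, he]
      exact vec_injective (add_left_cancel this)
    · intro hne
      exact absurd (Finset.mem_univ e) hne
  have hmeasf : ∀ e : Dir d, Measurable[hist env X n] (fun w => f (X n w + vec e)) := by
    intro e
    exact (measurable_of_countable (fun x => f (x + vec e))).comp (measurable_walk_hist env X le_rfl)
  have hint : ∀ e : Dir d, Integrable (fun w => f (X n w + vec e) *
      Set.indicator (stepSet X n e) (fun _ => (1 : ℝ)) w) μ := by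
    intro e
    obtain ⟨C, hC, hfC⟩ := exists_bound_box (fun x => f (x + vec e)) n
    refine Integrable.of_bound (C := C) ?_ ?_
    · refine Measurable.aestronglyMeasurable ?_
      exact ((hmeasf e).mono (h.hist_le n) le_rfl).mul
        (measurable_const.indicator (h.measurableSet_stepSet n e))
    · filter_upwards [h.ae_mem_box hP] with w hb
      rw [norm_mul]
      calc _ ≤ C * 1 := by
            refine mul_le_mul (hfC _ (hb n)) ?_ (norm_nonneg _) hC
            refine (norm_indicator_le_norm_self _ _).trans ?_
            simp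
        _ = C := mul_one C
  have h2 : ∀ e : Dir d, ∫ w in E, f (X n w + vec e) *
      Set.indicator (stepSet X n e) (fun _ => (1 : ℝ)) w ∂μ =
      ∫ w in E, f (X n w + vec e) * env w (X n w) e (pastVisits (fun k => X k w) n) ∂μ := by
    intro e
    obtain ⟨C, hC, hfC⟩ := exists_bound_box (fun x => f (x + vec e)) n
    have h3 := condExp_stronglyMeasurable_mul_of_bound (μ := μ) (h.hist_le n)
      (f := fun w => f (X n w + vec e))
      (g := Set.indicator (stepSet X n e) (fun _ => (1 : ℝ)))
      (hmeasf e).stronglyMeasurable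
      ((integrable_const (1 : ℝ)).indicator (h.measurableSet_stepSet n e)) C (by
        filter_upwards [h.ae_mem_box hP] with w hb
        exact hfC _ (hb n))
    have h4 := setIntegral_condExp (μ := μ) (h.hist_le n) (hint e) hE
    rw [← h4]
    refine setIntegral_congr_ae hEm ?_
    filter_upwards [h3, h.step n e] with w hw3 hw4 _
    rw [show (fun w => f (X n w + vec e) * Set.indicator (stepSet X n e) (fun _ => (1 : ℝ)) w) =
      (fun w => f (X n w + vec e)) * Set.indicator (stepSet X n e) (fun _ => (1 : ℝ)) from rfl,
      hw3, Pi.mul_apply]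
    congr 1
  have hint2 : ∀ e : Dir d, Integrable (fun w => f (X n w + vec e) *
      env w (X n w) e (pastVisits (fun k => X k w) n)) μ := by
    intro e
    obtain ⟨C, hC, hfC⟩ := exists_bound_box (fun x => f (x + vec e)) n
    refine Integrable.of_bound (C := C) ?_ ?_
    · refine Measurable.aestronglyMeasurable ?_
      exact ((hmeasf e).mono (h.hist_le n) le_rfl).mul
        ((measurable_cookie_hist env X le_rfl _).mono (h.hist_le n) le_rfl)
    · filter_upwards [h.ae_mem_box hP, h.ae_env hP] with w hb hw
      rw [norm_mul, Real.norm_eq_abs (env w _ _ _), abs_of_nonneg ((hw _ _).1 _)]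
      calc _ ≤ C * 1 := mul_le_mul (hfC _ (hb n)) (cookie_le_one hw _ _ _) ((hw _ _).1 _) hC
        _ = C := mul_one C
  rw [setIntegral_congr_ae (g := fun w => ∑ e : Dir d, f (X n w + vec e) *
      Set.indicator (stepSet X n e) (fun _ => (1 : ℝ)) w) hEm
      (by filter_upwards [h1] with w hw _; exact hw),
    integral_finsetSum _ (fun e _ => (hint e).integrableOn)]
  simp_rw [h2]
  rw [← integral_finsetSum _ (fun e _ => (hint2 e).integrableOn),
    ← integral_add (h.integrable_comp hP f n).integrableOn
      (h.integrable_drift hP f n).integrableOn]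
  refine setIntegral_congr_ae hEm ?_
  filter_upwards [h.ae_env hP, h.ae_env hB] with w hw hbal _
  unfold drift secondDiff
  have hsum := (hw (X n w) (pastVisits (fun k => X k w) n)).2
  rw [Fintype.sum_prod_type] at hsum ⊢
  simp only [Fintype.sum_bool] at hsum ⊢
  have hb := hbal (X n w)
  have e1 : ∀ l : Fin d, env w (X n w) (l, false) (pastVisits (fun k => X k w) n) =
      env w (X n w) (l, true) (pastVisits (fun k => X k w) n) := fun l => (hb l _).symm
  simp only [e1] at hsum ⊢
  have e2 : f (X n w) = ∑ l : Fin d, (env w (X n w) (l, true) (pastVisits (fun k => X k w) n) +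
      env w (X n w) (l, true) (pastVisits (fun k => X k w) n)) * f (X n w) := by
    rw [← Finset.sum_mul, hsum, one_mul]
  calc _ = ∑ l : Fin d, ((env w (X n w) (l, true) (pastVisits (fun k => X k w) n) +
        env w (X n w) (l, true) (pastVisits (fun k => X k w) n)) * f (X n w) +
        env w (X n w) (l, true) (pastVisits (fun k => X k w) n) *
          (f (X n w + vec (l, true)) + f (X n w + vec (l, false)) - 2 * f (X n w))) := by
        refine Finset.sum_congr rfl fun l _ => ?_
        ring
    _ = _ := by rw [Finset.sum_add_distrib, ← e2]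

end ERW

end Pool.Agent.Helper99.ERW
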