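import Pool.Agent.Helper99.ERW.Telescope

open MeasureTheory ProbabilityTheory Filter

namespace Pool.Agent.Helper99.ERW

variable {d : ℕ}
variable {Ω : Type*}

/-- `E` and the walk stays in `Λ` from time `k` to time `j`. -/
def inSet (X : ℕ → Ω → Site d) (Λ : Finset (Site d)) (E : Set Ω) (k j : ℕ) : Set Ω :=
  E ∩ {w | ∀ i, k ≤ i → i ≤ j → X i w ∈ Λ}

lemma inSet_succ (X : ℕ → Ω → Site d) (Λ : Finset (Site d)) (E : Set Ω) {k j : ℕ}
    (hkj : k ≤ j) : inSet X Λ E k (j + 1) = inSet X Λ E k j ∩ {w | X (j + 1) w ∈ Λ} := by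
  ext w
  simp only [inSet, Set.mem_inter_iff, Set.mem_ofPred_eq]
  constructor
  · rintro ⟨h1, h2⟩
    exact ⟨⟨h1, fun i hi hij => h2 i hi (by omega)⟩, h2 (j + 1) (by omega) le_rfl⟩
  · rintro ⟨⟨h1, h2⟩, h3⟩
    refine ⟨h1, fun i hi hij => ?_⟩
    rcases Nat.lt_or_ge j i with h | h
    · have : i = j + 1 := by omega
      rw [this]; exact h3
    · exact h2 i hi h

lemma inSet_self (X : ℕ → Ω → Site d) (Λ : Finset (Site d)) (E : Set Ω) (k : ℕ) :
    inSet X Λ E k k = E ∩ {w | X k w ∈ Λ} := by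
  ext w
  simp only [inSet, Set.mem_inter_iff, Set.mem_ofPred_eq]
  constructor
  · rintro ⟨h1, h2⟩
    exact ⟨h1, h2 k le_rfl le_rfl⟩
  · rintro ⟨h1, h2⟩
    refine ⟨h1, fun i hi hik => ?_⟩
    have : i = k := by omega
    rw [this]; exact h2

lemma inSet_subset (X : ℕ → Ω → Site d) (Λ : Finset (Site d)) (E : Set Ω) (k j : ℕ) :
    inSet X Λ E k j ⊆ E := Set.inter_subset_left

lemma measurableSet_inSet_hist (env : Ω → Env d) (X : ℕ → Ω → Site d) (Λ : Finset (Site d))
    {E : Set Ω} {k j : ℕ} (hkj : k ≤ j) (hE : MeasurableSet[hist env X k] E) :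
    MeasurableSet[hist env X j] (inSet X Λ E k j) := by
  refine MeasurableSet.inter (hist_mono env X hkj _ hE) ?_
  have : {w | ∀ i, k ≤ i → i ≤ j → X i w ∈ Λ} =
      ⋂ i ∈ Finset.Icc k j, X i ⁻¹' (Λ : Set (Site d)) := by
    ext w
    simp only [Set.mem_ofPred_eq, Set.mem_iInter, Finset.mem_Icc, Set.mem_preimage,
      Finset.mem_coe]
    exact ⟨fun h i hi => h i hi.1 hi.2, fun h i h1 h2 => h i ⟨h1, h2⟩⟩
  rw [this]
  refine Finset.measurableSet_biInter _ fun i hi => ?_
  exact measurable_walk_hist env X (Finset.mem_Icc.mp hi).2 (Finset.measurableSet Λ)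

/-- For every trajectory the times spent inside form an interval. -/
lemma exists_exit (X : ℕ → Ω → Site d) (Λ : Finset (Site d)) (E : Set Ω) {k n : ℕ}
    (hkn : k ≤ n) (w : Ω) (hw : w ∈ E) : ∃ T, k ≤ T ∧ T ≤ n ∧
      (∀ j, k ≤ j → j < T → X j w ∈ Λ) ∧
      ∀ (g : ℕ → ℝ), ∑ j ∈ Finset.Ico k n, (inSet X Λ E k j).indicator (fun _ => g j) w =
        ∑ j ∈ Finset.Ico k T, g j := by
  induction n, hkn using Nat.le_induction with
  | base => exact ⟨k, le_rfl, le_rfl, fun j h1 h2 => absurd h2 (by omega), fun g => by simp⟩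
  | succ n hkn ih =>
    obtain ⟨T, h1, h2, h3, h4⟩ := ih
    by_cases hin : w ∈ inSet X Λ E k n
    · -- then T = n for the previous step up to equality of sums; take n + 1
      refine ⟨n + 1, by omega, le_rfl, fun j hj1 hj2 => hin.2 j hj1 (by omega), fun g => ?_⟩
      refine Finset.sum_congr rfl fun j hj => ?_
      rw [Finset.mem_Ico] at hj
      rw [Set.indicator_of_mem]
      exact ⟨hw, fun i hi1 hi2 => hin.2 i hi1 (by omega)⟩
    · refine ⟨T, h1, by omega, h3, fun g => ?_⟩
      rw [Finset.sum_Ico_succ_top hkn, h4, Set.indicator_of_notMem hin, add_zero]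

section

variable [mΩ : MeasurableSpace Ω] {P : Measure (Env d)} {μ : Measure Ω}
  {env : Ω → Env d} {X : ℕ → Ω → Site d}

/-- Optional stopping at the exit from `Λ`. -/
lemma IsERW.stopped [IsProbabilityMeasure μ] (h : IsERW P μ env X)
    (hP : ∀ᵐ ω ∂P, IsCookieEnv ω) (hB : ∀ᵐ ω ∂P, IsBalanced ω) (f : Site d → ℝ)
    (Λ : Finset (Site d)) {E : Set Ω} {k n : ℕ} (hkn : k ≤ n)
    (hE : MeasurableSet[hist env X k] E) :
    ∫ w in inSet X Λ E k n, f (X n w) ∂μ +
      ∑ j ∈ Finset.Ico k n, ∫ w in inSet X Λ E k j \ {w | X (j + 1) w ∈ Λ}, f (X (j + 1) w) ∂μ =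
    ∫ w in inSet X Λ E k k, f (X k w) ∂μ +
      ∑ j ∈ Finset.Ico k n, ∫ w in inSet X Λ E k j, drift env X f j w ∂μ := by
  induction n, hkn using Nat.le_induction with
  | base => simp
  | succ n hkn ih =>
    rw [Finset.sum_Ico_succ_top hkn, Finset.sum_Ico_succ_top hkn]
    have hIn := measurableSet_inSet_hist env X Λ hkn hE
    have h1 := h.setIntegral_succ hP hB f n hIn
    have hms : MeasurableSet {w | X (n + 1) w ∈ Λ} :=
      h.measurable_walk (n + 1) (Finset.measurableSet Λ)
    have h2 := integral_inter_add_sdiff (μ := μ) (f := fun w => f (X (n + 1) w))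
      (s := inSet X Λ E k n) hms (h.integrable_comp hP f (n + 1)).integrableOn
    rw [← inSet_succ X Λ E hkn] at h2
    linarith

/-- The second differences of the square norm. -/
lemma secondDiff_sq (l : Fin d) (x : Site d) :
    secondDiff (fun x => ∑ k, (x k : ℝ) ^ 2) l x = 2 := by
  unfold secondDiff
  simp only
  rw [← Finset.sum_add_distrib, Finset.mul_sum, ← Finset.sum_sub_distrib]
  rw [Finset.sum_eq_single l]
  · simp [vec]
    ring
  · intro k _ hk
    have : ∀ b, (x + vec (l, b)) k = x k := by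
      intro b
      simp [vec, Pi.single_eq_of_ne hk]
    rw [this, this]
    ring
  · intro hl
    exact absurd (Finset.mem_univ l) hl

/-- The walk leaves every finite set. -/
lemma IsERW.tendsto_inSet [IsProbabilityMeasure μ] (h : IsERW P μ env X)
    (hP : ∀ᵐ ω ∂P, IsCookieEnv ω) (hB : ∀ᵐ ω ∂P, IsBalanced ω)
    (Λ : Finset (Site d)) {E : Set Ω} {k : ℕ} (hE : MeasurableSet[hist env X k] E) :
    Tendsto (fun n => μ.real (inSet X Λ E k n)) atTop (nhds 0) := by
  set f : Site d → ℝ := fun x => ∑ l, (x l : ℝ) ^ 2 with hf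
  have hf0 : ∀ x, 0 ≤ f x := fun x => Finset.sum_nonneg fun l _ => sq_nonneg _
  -- bound of f on Λ and its neighbours
  set C : ℝ := ∑ x ∈ Λ, f x + ∑ e : Dir d, ∑ x ∈ Λ, f (x + vec e) with hC
  have hC0 : 0 ≤ C := add_nonneg (Finset.sum_nonneg fun x _ => hf0 x)
    (Finset.sum_nonneg fun e _ => Finset.sum_nonneg fun x _ => hf0 _)
  have hC1 : ∀ x ∈ Λ, f x ≤ C := by
    intro x hx
    have h1 : f x ≤ ∑ x ∈ Λ, f x := Finset.single_le_sum (f := f) (fun x _ => hf0 x) hx
    have h2 : 0 ≤ ∑ e : Dir d, ∑ x ∈ Λ, f (x + vec e) :=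
      Finset.sum_nonneg fun e _ => Finset.sum_nonneg fun x _ => hf0 _
    linarith
  have hC2 : ∀ x ∈ Λ, ∀ e : Dir d, f (x + vec e) ≤ C := by
    intro x hx e
    have h1 : f (x + vec e) ≤ ∑ x ∈ Λ, f (x + vec e) :=
      Finset.single_le_sum (f := fun x => f (x + vec e)) (fun x _ => hf0 _) hx
    have h2 : ∑ x ∈ Λ, f (x + vec e) ≤ ∑ e : Dir d, ∑ x ∈ Λ, f (x + vec e) :=
      Finset.single_le_sum (f := fun e : Dir d => ∑ x ∈ Λ, f (x + vec e))
        (fun e _ => Finset.sum_nonneg fun x _ => hf0 _) (Finset.mem_univ e)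
    have h3 : 0 ≤ ∑ x ∈ Λ, f x := Finset.sum_nonneg fun x _ => hf0 x
    linarith
  -- the drift of f is one
  have hdrift : ∀ j, ∀ᵐ w ∂μ, drift env X f j w = 1 := by
    intro j
    filter_upwards [h.ae_env hP, h.ae_env hB] with w hw hb
    unfold drift
    simp only [hf, secondDiff_sq]
    have h2 := (hw (X j w) (pastVisits (fun k => X k w) j)).2
    rw [Fintype.sum_prod_type] at h2
    simp only [Fintype.sum_bool] at h2
    rw [← h2]
    refine Finset.sum_congr rfl fun l _ => ?_
    rw [← hb (X j w) l]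
    ring
  -- the sum of the probabilities is bounded
  have hbound : ∀ n, k ≤ n → ∑ j ∈ Finset.Ico k n, μ.real (inSet X Λ E k j) ≤ 3 * C := by
    intro n hkn
    have h1 := h.stopped hP hB f Λ hkn hE
    have h2 : ∑ j ∈ Finset.Ico k n, ∫ w in inSet X Λ E k j, drift env X f j w ∂μ =
        ∑ j ∈ Finset.Ico k n, μ.real (inSet X Λ E k j) := by
      refine Finset.sum_congr rfl fun j hj => ?_
      rw [setIntegral_congr_ae (g := fun _ => (1 : ℝ))]
      · simp
      · exact h.hist_le j _ (measurableSet_inSet_hist env X Λ (Finset.mem_Ico.mp hj).1 hE)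
      · filter_upwards [hdrift j] with w hw _
        exact hw
    have h3 : 0 ≤ ∫ w in inSet X Λ E k k, f (X k w) ∂μ := by
      refine integral_nonneg fun w => hf0 _
    have h4 : ∫ w in inSet X Λ E k n, f (X n w) ∂μ ≤ C := by
      have hms := h.hist_le n _ (measurableSet_inSet_hist env X Λ hkn hE)
      calc ∫ w in inSet X Λ E k n, f (X n w) ∂μ ≤ ∫ w in inSet X Λ E k n, C ∂μ := by
            refine setIntegral_mono_on (h.integrable_comp hP f n).integrableOn
              (integrable_const C).integrableOn hms fun w hw => ?_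
            exact hC1 _ (hw.2 n hkn le_rfl)
        _ = μ.real (inSet X Λ E k n) * C := by simp
        _ ≤ 1 * C := mul_le_mul_of_nonneg_right measureReal_le_one hC0
        _ = C := one_mul C
    -- exit terms
    have hdisj : ∑ j ∈ Finset.Ico k n, μ.real (inSet X Λ E k j \ {w | X (j + 1) w ∈ Λ}) ≤ 1 := by
      have h5 : ∀ n, k ≤ n → ∑ j ∈ Finset.Ico k n,
          μ.real (inSet X Λ E k j \ {w | X (j + 1) w ∈ Λ}) =
          μ.real (inSet X Λ E k k) - μ.real (inSet X Λ E k n) := by
        intro n hkn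
        induction n, hkn using Nat.le_induction with
        | base => simp
        | succ n hkn ih =>
          rw [Finset.sum_Ico_succ_top hkn, ih]
          have h6 : μ.real (inSet X Λ E k n ∩ {w | X (n + 1) w ∈ Λ}) +
              μ.real (inSet X Λ E k n \ {w | X (n + 1) w ∈ Λ}) = μ.real (inSet X Λ E k n) :=
            measureReal_inter_add_sdiff
              (h.measurable_walk (n + 1) (Finset.measurableSet Λ))
          rw [← inSet_succ X Λ E hkn] at h6
          linarith
      rw [h5 n hkn]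
      have : μ.real (inSet X Λ E k k) ≤ 1 := measureReal_le_one
      have : 0 ≤ μ.real (inSet X Λ E k n) := measureReal_nonneg
      linarith
    have h5 : ∑ j ∈ Finset.Ico k n,
        ∫ w in inSet X Λ E k j \ {w | X (j + 1) w ∈ Λ}, f (X (j + 1) w) ∂μ ≤ C := by
      calc _ ≤ ∑ j ∈ Finset.Ico k n,
            μ.real (inSet X Λ E k j \ {w | X (j + 1) w ∈ Λ}) * C := by
            refine Finset.sum_le_sum fun j hj => ?_
            have hkj := (Finset.mem_Ico.mp hj).1
            have hms : MeasurableSet (inSet X Λ E k j \ {w | X (j + 1) w ∈ Λ}) :=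
              (h.hist_le j _ (measurableSet_inSet_hist env X Λ hkj hE)).diff
                (h.measurable_walk (j + 1) (Finset.measurableSet Λ))
            calc _ ≤ ∫ w in inSet X Λ E k j \ {w | X (j + 1) w ∈ Λ}, C ∂μ := by
                  refine setIntegral_mono_on_ae (h.integrable_comp hP f (j + 1)).integrableOn
                    (integrable_const C).integrableOn hms ?_
                  filter_upwards [h.ae_exists_step hP j] with w hw hmem
                  obtain ⟨e, he⟩ := hw
                  rw [he]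
                  exact hC2 _ (hmem.1.2 j hkj le_rfl) e
              _ = _ := by simp
        _ = (∑ j ∈ Finset.Ico k n, μ.real (inSet X Λ E k j \ {w | X (j + 1) w ∈ Λ})) * C := by
            rw [Finset.sum_mul]
        _ ≤ 1 * C := mul_le_mul_of_nonneg_right hdisj hC0
        _ = C := one_mul C
    rw [h2] at h1
    linarith
  -- conclusion
  have hsum : Summable (fun j => μ.real (inSet X Λ E k (k + j))) := by
    refine summable_of_sum_range_le (c := 3 * C) (fun j => measureReal_nonneg) fun n => ?_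
    have := hbound (k + n) (by omega)
    rw [Finset.sum_Ico_eq_sum_range] at this
    simpa using this
  have h1 := hsum.tendsto_atTop_zero
  have h2 : (fun j => μ.real (inSet X Λ E k (k + j))) =
      (fun j => (fun n => μ.real (inSet X Λ E k n)) (j + k)) := by
    ext j
    rw [add_comm]
  rw [h2] at h1
  exact (tendsto_add_atTop_iff_nat k).mp h1

end

end Pool.Agent.Helper99.ERW
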