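import Pool.Agent.Helper99.ERW.Indep
import Pool.Agent.Helper99.ERW.Stopped

open MeasureTheory ProbabilityTheory Filter

namespace Pool.Agent.Helper99.ERW

variable {d : ℕ} {Ω : Type*} [mΩ : MeasurableSpace Ω] {P : Measure (Env d)} {μ : Measure Ω}
  {env : Ω → Env d} {X : ℕ → Ω → Site d}

/-- the event that the path up to time `m` belongs to `S` -/
def pathEvent (X : ℕ → Ω → Site d) (m : ℕ) (S : Set (Fin (m + 1) → Site d)) : Set Ω :=
  {w | (fun k : Fin (m + 1) => X k w) ∈ S}

lemma IsERW.measurableSet_pathEvent (h : IsERW P μ env X) (m : ℕ)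
    (S : Set (Fin (m + 1) → Site d)) : MeasurableSet (pathEvent X m S) := by
  have h1 : Measurable (fun w (k : Fin (m + 1)) => X k w) :=
    measurable_pi_lambda _ fun k => h.measurable_walk k
  exact h1 (Set.Countable.measurableSet (Set.to_countable S))

/-- Under (IID), the stack at `z` is independent of the walk until the first visit to `z`. -/
lemma IsERW.lintegral_pathEvent [IsProbabilityMeasure μ] [IsProbabilityMeasure P]
    (h : IsERW P μ env X)
    (hP : ∀ᵐ ω ∂P, IsCookieEnv ω) (hI : IID P) (z : Site d) (m : ℕ)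
    (S : Set (Fin (m + 1) → Site d)) (hS : ∀ p ∈ S, ∀ k : Fin (m + 1), (k : ℕ) < m → p k ≠ z)
    (g : Stack d → ENNReal) (hg : Measurable g) :
    ∫⁻ w in pathEvent X m S, g (env w z) ∂μ =
      (∫⁻ ω, g (ω 0) ∂P) * μ (pathEvent X m S) := by
  classical
  set ext : (Fin (m + 1) → Site d) → ℕ → Site d :=
    fun p k => if hk : k < m + 1 then p ⟨k, hk⟩ else z with hext
  have hext_eq : ∀ (p : Fin (m + 1) → Site d) (w : Ω), w ∈ cyl X (ext p) m ↔
      ∀ k : Fin (m + 1), X k w = p k := by
    intro p w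
    constructor
    · intro hw k
      have := hw k (by omega)
      rw [this, hext]
      simp only [Fin.is_lt, dif_pos, Fin.eta]
    · intro hw k hk
      have := hw ⟨k, by omega⟩
      simp only at this
      rw [this, hext]
      simp only
      rw [dif_pos (by omega : k < m + 1)]
  have hcover : pathEvent X m S = ⋃ p : S, cyl X (ext p.1) m := by
    ext w
    simp only [pathEvent, Set.mem_ofPred_eq, Set.mem_iUnion]
    constructor
    · intro hw
      exact ⟨⟨_, hw⟩, (hext_eq _ w).mpr fun k => rfl⟩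
    · rintro ⟨⟨p, hp⟩, hw⟩
      have : (fun k : Fin (m + 1) => X k w) = p := funext ((hext_eq p w).mp hw)
      rw [this]
      exact hp
  have hmeas : ∀ p : S, MeasurableSet (cyl X (ext p.1) m) := fun p =>
    h.hist_le m _ (measurableSet_cyl_hist env X _ m)
  have hdisj : Pairwise (Function.onFun Disjoint fun p : S => cyl X (ext p.1) m) := by
    intro p q hpq
    rw [Function.onFun, Set.disjoint_left]
    intro w hw hw'
    apply hpq
    apply Subtype.ext
    funext k
    rw [← (hext_eq p.1 w).mp hw k, (hext_eq q.1 w).mp hw' k]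
  rw [hcover, lintegral_iUnion hmeas hdisj, measure_iUnion hdisj hmeas, ← ENNReal.tsum_mul_left]
  refine tsum_congr fun p => ?_
  have hav : ∀ k < m, ext p.1 k ≠ z := by
    intro k hk
    rw [hext]
    simp only
    rw [dif_pos (by omega : k < m + 1)]
    exact hS p.1 p.2 ⟨k, by omega⟩ hk
  by_cases h0 : ext p.1 0 = 0
  · rw [h.lintegral_cyl hP (ext p.1) h0 m (fun ω => g (ω z)) (hg.comp (measurable_pi_apply z)),
      hI.lintegral_mul_pathProb (ext p.1) m z hav g hg]
    congr 1
    have := h.lintegral_cyl hP (ext p.1) h0 m (fun _ => 1) measurable_const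
    simp only [one_mul, lintegral_const, MeasurableSet.univ, Measure.restrict_apply,
      Set.univ_inter] at this
    exact this.symm
  · have h1 : μ (cyl X (ext p.1) m) = 0 := by
      refine measure_mono_null ?_ h.start
      intro w hw hcon
      apply h0
      rw [← hw 0 (Nat.zero_le _)]
      exact hcon
    rw [Measure.restrict_eq_zero.mpr h1, lintegral_zero_measure, h1, mul_zero]

/-- Passing from nonnegative to integrable functions of the stack at `z`. -/
lemma IsERW.setIntegral_of_lintegral [IsProbabilityMeasure μ]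
    (h : IsERW P μ env X) (z : Site d) (A : Set Ω)
    (hA : ∀ g : Stack d → ENNReal, Measurable g →
      ∫⁻ w in A, g (env w z) ∂μ = (∫⁻ ω, g (ω 0) ∂P) * μ A)
    (V : Stack d → ℝ) (hVm : Measurable V) :
    ∫ w in A, V (env w z) ∂μ = μ.real A * ∫ ω, V (ω 0) ∂P := by
  have hmz : Measurable (fun w => env w z) := (measurable_pi_apply z).comp h.measurable_env
  have hm0 : Measurable (fun ω : Env d => ω 0) := measurable_pi_apply 0
  have hmeq : (μ.restrict A).map (fun w => env w z) =
      μ A • P.map (fun ω : Env d => ω 0) := by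
    ext B hB
    have h1 := hA (B.indicator fun _ => 1) (measurable_const.indicator hB)
    rw [Measure.map_apply hmz hB, Measure.smul_apply, Measure.map_apply hm0 hB, smul_eq_mul]
    have e1 : ∫⁻ w in A, B.indicator (fun _ => (1 : ENNReal)) (env w z) ∂μ =
        (μ.restrict A) ((fun w => env w z) ⁻¹' B) := by
      rw [← lintegral_indicator_one (hmz hB)]
      rfl
    have e2 : ∫⁻ ω : Env d, B.indicator (fun _ => (1 : ENNReal)) (ω 0) ∂P =
        P ((fun ω : Env d => ω 0) ⁻¹' B) := by
      rw [← lintegral_indicator_one (hm0 hB)]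
      rfl
    rw [e1, e2] at h1
    rw [h1, mul_comm]
  have h2 : ∫ w in A, V (env w z) ∂μ =
      ∫ s, V s ∂((μ.restrict A).map (fun w => env w z)) := by
    rw [integral_map hmz.aemeasurable hVm.aestronglyMeasurable]
  rw [h2, hmeq, integral_smul_measure, integral_map hm0.aemeasurable hVm.aestronglyMeasurable]
  rfl

/-- the first visit to `z` occurs in `[k, n)` and the walk stays in `Λ` between time `k` and this
visit, and the initial path up to time `k` belongs to `S` -/
def visitIn (X : ℕ → Ω → Site d) (Λ : Finset (Site d)) (k n : ℕ) (S : Set (Fin (k + 1) → Site d))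
    (z : Site d) : Set Ω :=
  {w | w ∈ pathEvent X k S ∧ ∃ m, k ≤ m ∧ m < n ∧ X m w = z ∧ (∀ j, j < m → X j w ≠ z) ∧
    ∀ i, k ≤ i → i ≤ m → X i w ∈ Λ}

lemma IsERW.lintegral_visitIn [IsProbabilityMeasure μ] [IsProbabilityMeasure P]
    (h : IsERW P μ env X)
    (hP : ∀ᵐ ω ∂P, IsCookieEnv ω) (hI : IID P) (Λ : Finset (Site d)) (k n : ℕ)
    (S : Set (Fin (k + 1) → Site d)) (z : Site d)
    (g : Stack d → ENNReal) (hg : Measurable g) :
    ∫⁻ w in visitIn X Λ k n S z, g (env w z) ∂μ =
      (∫⁻ ω, g (ω 0) ∂P) * μ (visitIn X Λ k n S z) := by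
  -- decomposition over the time of the first visit
  set Sm : (m : ℕ) → Set (Fin (m + 1) → Site d) := fun m =>
    {p | ∃ hkm : k ≤ m, (fun i : Fin (k + 1) => p ⟨i, by omega⟩) ∈ S ∧ p ⟨m, by omega⟩ = z ∧
      (∀ j : Fin (m + 1), (j : ℕ) < m → p j ≠ z) ∧
      ∀ i : Fin (m + 1), k ≤ (i : ℕ) → p i ∈ Λ} with hSm
  have hcover : visitIn X Λ k n S z = ⋃ m : Fin n, pathEvent X m (Sm m) := by
    ext w
    simp only [visitIn, pathEvent, hSm, Set.mem_ofPred_eq, Set.mem_iUnion]
    constructor
    · rintro ⟨h1, m, h2, h3, h4, h5, h6⟩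
      exact ⟨⟨m, h3⟩, h2, h1, h4, fun j hj => h5 j hj,
        fun i hi => h6 i hi (Nat.lt_succ_iff.mp i.2)⟩
    · rintro ⟨m, h1, h2, h3, h4, h5⟩
      exact ⟨h2, m, h1, m.2, h3, fun j hj => h4 ⟨j, by omega⟩ hj,
        fun i hi1 hi2 => h5 ⟨i, by omega⟩ hi1⟩
  have hmeas : ∀ m : Fin n, MeasurableSet (pathEvent X m (Sm m)) := fun m =>
    h.measurableSet_pathEvent m _
  have hdisj : Pairwise (Function.onFun Disjoint fun m : Fin n => pathEvent X m (Sm m)) := by
    intro p q hpq
    rw [Function.onFun, Set.disjoint_left]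
    rintro w ⟨_, _, hw1, hw2, _⟩ ⟨_, _, hw3, hw4, _⟩
    rcases lt_trichotomy (p : ℕ) q with hlt | heq | hgt
    · exact hw4 ⟨p, by omega⟩ hlt hw1
    · exact hpq (Fin.ext heq)
    · exact hw2 ⟨q, by omega⟩ hgt hw3
  rw [hcover, lintegral_iUnion hmeas hdisj, measure_iUnion hdisj hmeas, ← ENNReal.tsum_mul_left]
  refine tsum_congr fun m => ?_
  exact h.lintegral_pathEvent hP hI z m (Sm m) (fun p hp j hj => by
    obtain ⟨_, _, _, h4, _⟩ := hp
    exact h4 j hj) g hg

lemma IsERW.measurableSet_visitIn (h : IsERW P μ env X) (Λ : Finset (Site d)) (k n : ℕ)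
    (S : Set (Fin (k + 1) → Site d)) (z : Site d) : MeasurableSet (visitIn X Λ k n S z) := by
  have h1 : visitIn X Λ k n S z = pathEvent X k S ∩ ⋃ m : ℕ, ⋃ _ : k ≤ m, ⋃ _ : m < n,
      ((X m ⁻¹' {z}) ∩ ((⋂ j : ℕ, ⋂ _ : j < m, (X j ⁻¹' {z})ᶜ) ∩
        ⋂ i : ℕ, ⋂ _ : k ≤ i, ⋂ _ : i ≤ m, X i ⁻¹' (Λ : Set (Site d)))) := by
    ext w
    simp only [visitIn, Set.mem_ofPred_eq, Set.mem_inter_iff, Set.mem_iUnion, Set.mem_iInter,
      Set.mem_preimage, Set.mem_singleton_iff, Set.mem_compl_iff, Finset.mem_coe, exists_prop]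
  rw [h1]
  refine (h.measurableSet_pathEvent k S).inter (MeasurableSet.iUnion fun m =>
    MeasurableSet.iUnion fun _ => MeasurableSet.iUnion fun _ => ?_)
  refine (h.measurable_walk m (measurableSet_singleton z)).inter (MeasurableSet.inter ?_ ?_)
  · exact MeasurableSet.iInter fun j => MeasurableSet.iInter fun _ =>
      (h.measurable_walk j (measurableSet_singleton z)).compl
  · exact MeasurableSet.iInter fun i => MeasurableSet.iInter fun _ => MeasurableSet.iInter
      fun _ => h.measurable_walk i (Finset.measurableSet Λ)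

omit mΩ in
/-- For every trajectory the times spent inside form an interval (maximal version). -/
lemma exists_exit_max (X : ℕ → Ω → Site d) (Λ : Finset (Site d)) (E : Set Ω) {k n : ℕ}
    (hkn : k ≤ n) (w : Ω) (hw : w ∈ E) : ∃ T, k ≤ T ∧ T ≤ n ∧
      (∀ j, k ≤ j → j < T → X j w ∈ Λ) ∧
      (∀ j, k ≤ j → j < n → (∀ i, k ≤ i → i ≤ j → X i w ∈ Λ) → j < T) ∧
      ∀ (g : ℕ → ℝ), ∑ j ∈ Finset.Ico k n, (inSet X Λ E k j).indicator (fun _ => g j) w =
        ∑ j ∈ Finset.Ico k T, g j := by
  induction n, hkn using Nat.le_induction with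
  | base => exact ⟨k, le_rfl, le_rfl, fun j h1 h2 => absurd h2 (by omega),
      fun j h1 h2 => absurd h2 (by omega), fun g => by simp⟩
  | succ n hkn ih =>
    obtain ⟨T, h1, h2, h3, h5, h4⟩ := ih
    by_cases hin : w ∈ inSet X Λ E k n
    · refine ⟨n + 1, by omega, le_rfl, fun j hj1 hj2 => hin.2 j hj1 (by omega),
        fun j _ hj2 _ => hj2, fun g => ?_⟩
      refine Finset.sum_congr rfl fun j hj => ?_
      rw [Finset.mem_Ico] at hj
      rw [Set.indicator_of_mem]
      exact ⟨hw, fun i hi1 hi2 => hin.2 i hi1 (by omega)⟩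
    · refine ⟨T, h1, by omega, h3, fun j hj1 hj2 hj3 => ?_, fun g => ?_⟩
      · rcases Nat.lt_or_ge j n with hlt | hge
        · exact h5 j hj1 hlt hj3
        · exfalso
          have : j = n := by omega
          subst this
          exact hin ⟨hw, hj3⟩
      · rw [Finset.sum_Ico_succ_top hkn, h4, Set.indicator_of_notMem hin, add_zero]

end Pool.Agent.Helper99.ERW
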