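import Pool.Agent.Helper99.ERW.PlaneMain

open MeasureTheory ProbabilityTheory Filter

namespace Pool.Agent.Helper99.ERW

variable {Ω : Type*} [mΩ : MeasurableSpace Ω] {P : Measure (Env 2)} {μ : Measure Ω}
  {env : Ω → Env 2} {X : ℕ → Ω → Site 2}

lemma IsERW.measurableSet_hitSet (h : IsERW P μ env X) (R : ℕ) (y : Site 2) (k : ℕ) :
    MeasurableSet (hitSet X R y k) := by
  have : hitSet X R y k = ⋃ i, ⋃ _ : k ≤ i, X i ⁻¹' {x | x - y ∈ box 2 R} := by
    ext w
    simp [hitSet]
  rw [this]
  refine MeasurableSet.iUnion fun i => MeasurableSet.iUnion fun _ => ?_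
  exact h.measurable_walk i (Set.Countable.measurableSet (Set.to_countable _))

/-- Main estimate: the walk hits the ball before leaving the large box. -/
lemma IsERW.hit_ineq [IsProbabilityMeasure μ] (h : IsERW P μ env X)
    (hP : ∀ᵐ ω ∂P, IsCookieEnv ω) (hB : ∀ᵐ ω ∂P, IsBalanced ω)
    {a b : ℝ} (hab : a + b = 1) {R : ℕ}
    (hbase : ∀ x ∉ box 2 R,
      a * secondDiff (lyap a b) 0 x + b * secondDiff (lyap a b) 1 x ≤ 0)
    (hfar : ∀ N, R ≤ N → ∀ x ∉ box 2 N, Real.log N ≤ lyap a b x)
    (U W : Stack 2 → ℝ)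
    (hU : ∀ᵐ ω ∂P, ∀ z m, psum a (ω z) m ≤ U (ω z))
    (hW : ∀ᵐ ω ∂P, ∀ z m, -psum a (ω z) m ≤ W (ω z))
    (y : Site 2) (k N : ℕ) (hN : R ≤ N) (hNk : ∀ x ∈ box 2 k, x - y ∈ box 2 N)
    {E : Set Ω} (hE : MeasurableSet[hist env X k] E) (Kf B : ℝ)
    (hKf : ∀ x ∈ box 2 k, lyap a b (x - y) ≤ Kf)
    (hEB : ∀ w ∈ E, push a b R U W N (shift y (env w)) + corr a b U W y k (env w) ≤ B) :
    Real.log N * μ.real (E \ hitSet X R y k) ≤ (Kf + B) * μ.real E := by
  set Λ := (box 2 N \ box 2 R).image (fun z : Site 2 => z + y) with hΛ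
  set H := hitSet X R y k with hH
  set f : Site 2 → ℝ := fun x => lyap a b (x - y) with hf
  have hf0 : ∀ x, 0 ≤ f x := fun x => lyap_nonneg a b _
  have hmemΛ : ∀ x, x ∈ Λ ↔ x - y ∈ box 2 N \ box 2 R := by
    intro x
    rw [hΛ, Finset.mem_image]
    constructor
    · rintro ⟨z, hz, rfl⟩
      simpa using hz
    · intro hx
      exact ⟨x - y, hx, by simp⟩
  have hHm : MeasurableSet H := h.measurableSet_hitSet R y k
  have hEm : MeasurableSet E := h.hist_le k _ hE
  have hlog : 0 ≤ Real.log N := by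
    rcases Nat.eq_zero_or_pos N with h0 | h0
    · subst h0; simp
    · exact Real.log_nonneg (by exact_mod_cast h0)
  have hΛm : ∀ j, MeasurableSet {w | X j w ∈ Λ} := fun j =>
    h.measurable_walk j (Finset.measurableSet Λ)
  have hNm : ∀ j, MeasurableSet {w | X j w - y ∉ box 2 N} := fun j =>
    h.measurable_walk j (Set.Countable.measurableSet (Set.to_countable {x | x - y ∉ box 2 N}))
  have hInm : ∀ j, k ≤ j → MeasurableSet (inSet X Λ E k j) := fun j hj =>
    h.hist_le j _ (measurableSet_inSet_hist env X Λ hj hE)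
  -- covering
  have hcover : ∀ n, k ≤ n → μ.real (E \ H) ≤ μ.real (inSet X Λ E k n \ H) +
      ∑ j ∈ Finset.Ico k n,
        μ.real ((inSet X Λ E k j \ {w | X (j + 1) w ∈ Λ}) ∩ {w | X (j + 1) w - y ∉ box 2 N}) := by
    intro n hkn
    induction n, hkn using Nat.le_induction with
    | base =>
      simp only [Finset.Ico_self, Finset.sum_empty, add_zero]
      refine ENNReal.toReal_mono (measure_ne_top _ _) (measure_mono_ae ?_)
      filter_upwards [h.ae_mem_box hP] with w hw hmem
      have hmem' : w ∈ E \ H := hmem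
      refine ⟨?_, hmem'.2⟩
      rw [inSet_self]
      refine ⟨hmem'.1, ?_⟩
      show X k w ∈ Λ
      rw [hmemΛ, Finset.mem_sdiff]
      refine ⟨hNk _ (hw k), fun hR => hmem'.2 ⟨k, le_rfl, hR⟩⟩
    | succ n hkn ih =>
      rw [Finset.sum_Ico_succ_top hkn]
      have h1 : inSet X Λ E k n \ H ⊆ (inSet X Λ E k (n + 1) \ H) ∪
          ((inSet X Λ E k n \ {w | X (n + 1) w ∈ Λ}) ∩ {w | X (n + 1) w - y ∉ box 2 N}) := by
        rintro w ⟨hw1, hw2⟩
        by_cases hin : X (n + 1) w ∈ Λ
        · left
          rw [inSet_succ X Λ E hkn]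
          exact ⟨⟨hw1, hin⟩, hw2⟩
        · right
          refine ⟨⟨hw1, hin⟩, fun hbN => hin ?_⟩
          rw [hmemΛ, Finset.mem_sdiff]
          exact ⟨hbN, fun hR => hw2 ⟨n + 1, by omega, hR⟩⟩
      have h2 := (measureReal_mono (μ := μ) h1).trans (measureReal_union_le _ _)
      linarith
  -- bound of the exit probabilities
  have hexit : ∀ n, k ≤ n → Real.log N * ∑ j ∈ Finset.Ico k n,
        μ.real ((inSet X Λ E k j \ {w | X (j + 1) w ∈ Λ}) ∩ {w | X (j + 1) w - y ∉ box 2 N}) ≤
      (Kf + B) * μ.real E := by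
    intro n hkn
    have hst := h.stopped hP hB f Λ hkn hE
    have h1 : Real.log N * ∑ j ∈ Finset.Ico k n,
        μ.real ((inSet X Λ E k j \ {w | X (j + 1) w ∈ Λ}) ∩ {w | X (j + 1) w - y ∉ box 2 N}) ≤
        ∑ j ∈ Finset.Ico k n,
          ∫ w in inSet X Λ E k j \ {w | X (j + 1) w ∈ Λ}, f (X (j + 1) w) ∂μ := by
      rw [Finset.mul_sum]
      refine Finset.sum_le_sum fun j hj => ?_
      have hkj := (Finset.mem_Ico.mp hj).1
      have hms : MeasurableSet (inSet X Λ E k j \ {w | X (j + 1) w ∈ Λ}) :=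
        (hInm j hkj).diff (hΛm (j + 1))
      calc Real.log N * μ.real ((inSet X Λ E k j \ {w | X (j + 1) w ∈ Λ}) ∩
            {w | X (j + 1) w - y ∉ box 2 N}) =
          ∫ w in inSet X Λ E k j \ {w | X (j + 1) w ∈ Λ},
            Set.indicator {w | X (j + 1) w - y ∉ box 2 N} (fun _ => Real.log N) w ∂μ := by
            rw [setIntegral_indicator (hNm (j + 1))]
            simp [mul_comm]
        _ ≤ _ := by
            refine setIntegral_mono_on ?_ (h.integrable_comp hP f (j + 1)).integrableOn hms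
              fun w _ => ?_
            · exact ((integrable_const _).indicator (hNm (j + 1))).integrableOn
            · by_cases hw : w ∈ {w | X (j + 1) w - y ∉ box 2 N}
              · rw [Set.indicator_of_mem hw]
                exact hfar N hN _ hw
              · rw [Set.indicator_of_notMem hw]
                exact hf0 _
    have h2 : 0 ≤ ∫ w in inSet X Λ E k n, f (X n w) ∂μ := integral_nonneg fun w => hf0 _
    have h3 : ∫ w in inSet X Λ E k k, f (X k w) ∂μ ≤ ∫ w in E, Kf ∂μ := by
      have hKf0 : 0 ≤ Kf := (hf0 0).trans (hKf 0 (by rw [mem_box]; intro l; simp))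
      calc ∫ w in inSet X Λ E k k, f (X k w) ∂μ ≤ ∫ w in inSet X Λ E k k, Kf ∂μ := by
            refine setIntegral_mono_on_ae (h.integrable_comp hP f k).integrableOn
              (integrable_const Kf).integrableOn (hInm k le_rfl) ?_
            filter_upwards [h.ae_mem_box hP] with w hw _
            exact hKf _ (hw k)
        _ = μ.real (inSet X Λ E k k) * Kf := by simp
        _ ≤ μ.real E * Kf := mul_le_mul_of_nonneg_right
            (measureReal_mono (inSet_subset X Λ E k k)) hKf0
        _ = _ := by simp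
    have h4 : ∑ j ∈ Finset.Ico k n, ∫ w in inSet X Λ E k j, drift env X f j w ∂μ ≤
        ∫ w in E, B ∂μ := by
      have e1 : ∀ j ∈ Finset.Ico k n, ∫ w in inSet X Λ E k j, drift env X f j w ∂μ =
          ∫ w in E, (inSet X Λ E k j).indicator (fun w => drift env X f j w) w ∂μ := by
        intro j hj
        rw [setIntegral_indicator (hInm j (Finset.mem_Ico.mp hj).1)]
        rw [Set.inter_eq_self_of_subset_right (inSet_subset X Λ E k j)]
      rw [Finset.sum_congr rfl e1, ← integral_finsetSum]
      · refine setIntegral_mono_on_ae ?_ (integrable_const B).integrableOn hEm ?_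
        · refine (integrable_finsetSum _ fun j hj => ?_).integrableOn
          exact (h.integrable_drift hP f j).indicator (hInm j (Finset.mem_Ico.mp hj).1)
        · filter_upwards [h.ae_mem_box hP, h.ae_env hP, h.ae_env hB, h.ae_env hU, h.ae_env hW]
            with w hbox hcook hbal hUw hWw hwE
          exact (pathwise_drift hab hbase U W env X y N k n hkn E w hwE hbox hcook hbal
            hUw hWw).trans (hEB w hwE)
      · intro j hj
        exact ((h.integrable_drift hP f j).indicator
          (hInm j (Finset.mem_Ico.mp hj).1)).integrableOn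
    have h5 : ∫ w in E, Kf ∂μ + ∫ w in E, B ∂μ = (Kf + B) * μ.real E := by
      simp
      ring
    linarith
  -- let n tend to infinity
  have hlim := h.tendsto_inSet hP hB Λ hE
  have hlim2 : Tendsto (fun n => Real.log N * μ.real (inSet X Λ E k n) + (Kf + B) * μ.real E)
      atTop (nhds (Real.log N * 0 + (Kf + B) * μ.real E)) :=
    (hlim.const_mul _).add_const _
  rw [mul_zero, zero_add] at hlim2
  refine ge_of_tendsto hlim2 ?_
  filter_upwards [eventually_ge_atTop k] with n hkn
  have h1 := hcover n hkn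
  have h2 := hexit n hkn
  have h3 : μ.real (inSet X Λ E k n \ H) ≤ μ.real (inSet X Λ E k n) :=
    measureReal_mono Set.sdiff_subset
  have h4 := mul_le_mul_of_nonneg_left (h1.trans (add_le_add_left h3 _)) hlog
  linarith

end Pool.Agent.Helper99.ERW
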