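import Pool.Agent.Helper99.ERW.PathEvent
import Pool.Agent.Helper99.ERW.PlaneRecur

open MeasureTheory ProbabilityTheory Filter

namespace Pool.Agent.Helper99.ERW

variable {Ω : Type*} [mΩ : MeasurableSpace Ω] {P : Measure (Env 2)} {μ : Measure Ω}
  {env : Ω → Env 2} {X : ℕ → Ω → Site 2}

/-- General form of the main estimate: the walk hits the ball before leaving the large box. -/
lemma IsERW.hit_ineq_gen [IsProbabilityMeasure μ] (h : IsERW P μ env X)
    (hP : ∀ᵐ ω ∂P, IsCookieEnv ω) (hB : ∀ᵐ ω ∂P, IsBalanced ω)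
    {a b : ℝ} {R : ℕ}
    (hfar : ∀ N, R ≤ N → ∀ x ∉ box 2 N, Real.log N ≤ lyap a b x)
    (k N : ℕ) (hN : R ≤ N) (hNk : k ≤ N)
    {E : Set Ω} (hE : MeasurableSet[hist env X k] E) (Kf B : ℝ)
    (hKf : ∀ x ∈ box 2 k, lyap a b x ≤ Kf)
    (hdr : ∀ n, k ≤ n → ∑ j ∈ Finset.Ico k n,
      ∫ w in inSet X (box 2 N \ box 2 R) E k j, drift env X (lyap a b) j w ∂μ ≤ B) :
    Real.log N * μ.real (E \ hitSet X R 0 k) ≤ Kf * μ.real E + B := by
  set Λ := box 2 N \ box 2 R with hΛ
  set H := hitSet X R 0 k with hH
  set f : Site 2 → ℝ := lyap a b with hf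
  have hf0 : ∀ x, 0 ≤ f x := fun x => lyap_nonneg a b _
  have hlog : 0 ≤ Real.log N := by
    rcases Nat.eq_zero_or_pos N with h0 | h0
    · subst h0; simp
    · exact Real.log_nonneg (by exact_mod_cast h0)
  have hΛm : ∀ j, MeasurableSet {w | X j w ∈ Λ} := fun j =>
    h.measurable_walk j (Finset.measurableSet Λ)
  have hNm : ∀ j, MeasurableSet {w | X j w ∉ box 2 N} := fun j =>
    h.measurable_walk j (Set.Countable.measurableSet (Set.to_countable {x | x ∉ box 2 N}))
  have hInm : ∀ j, k ≤ j → MeasurableSet (inSet X Λ E k j) := fun j hj =>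
    h.hist_le j _ (measurableSet_inSet_hist env X Λ hj hE)
  have hcover : ∀ n, k ≤ n → μ.real (E \ H) ≤ μ.real (inSet X Λ E k n \ H) +
      ∑ j ∈ Finset.Ico k n,
        μ.real ((inSet X Λ E k j \ {w | X (j + 1) w ∈ Λ}) ∩ {w | X (j + 1) w ∉ box 2 N}) := by
    intro n hkn
    induction n, hkn using Nat.le_induction with
    | base =>
      simp only [Finset.Ico_self, Finset.sum_empty, add_zero]
      refine ENNReal.toReal_mono (measure_ne_top _ _) (measure_mono_ae ?_)
      filter_upwards [h.ae_mem_box hP] with w hw hmem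
      have hmem' : w ∈ E \ H := hmem
      refine ⟨?_, hmem'.2⟩
      rw [inSet_self]
      refine ⟨hmem'.1, ?_⟩
      show X k w ∈ Λ
      rw [hΛ, Finset.mem_sdiff]
      refine ⟨?_, fun hR => hmem'.2 ⟨k, le_rfl, by rw [sub_zero]; exact hR⟩⟩
      have h1 := hw k
      rw [mem_box] at h1 ⊢
      intro l
      exact (h1 l).trans (by exact_mod_cast hNk)
    | succ n hkn ih =>
      rw [Finset.sum_Ico_succ_top hkn]
      have h1 : inSet X Λ E k n \ H ⊆ (inSet X Λ E k (n + 1) \ H) ∪
          ((inSet X Λ E k n \ {w | X (n + 1) w ∈ Λ}) ∩ {w | X (n + 1) w ∉ box 2 N}) := by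
        rintro w ⟨hw1, hw2⟩
        by_cases hin : X (n + 1) w ∈ Λ
        · left
          rw [inSet_succ X Λ E hkn]
          exact ⟨⟨hw1, hin⟩, hw2⟩
        · right
          refine ⟨⟨hw1, hin⟩, fun hbN => hin ?_⟩
          rw [hΛ, Finset.mem_sdiff]
          exact ⟨hbN, fun hR => hw2 ⟨n + 1, by omega, by rw [sub_zero]; exact hR⟩⟩
      have h2 := (measureReal_mono (μ := μ) h1).trans (measureReal_union_le _ _)
      linarith
  have hexit : ∀ n, k ≤ n → Real.log N * ∑ j ∈ Finset.Ico k n,
        μ.real ((inSet X Λ E k j \ {w | X (j + 1) w ∈ Λ}) ∩ {w | X (j + 1) w ∉ box 2 N}) ≤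
      Kf * μ.real E + B := by
    intro n hkn
    have hst := h.stopped hP hB f Λ hkn hE
    have h1 : Real.log N * ∑ j ∈ Finset.Ico k n,
        μ.real ((inSet X Λ E k j \ {w | X (j + 1) w ∈ Λ}) ∩ {w | X (j + 1) w ∉ box 2 N}) ≤
        ∑ j ∈ Finset.Ico k n,
          ∫ w in inSet X Λ E k j \ {w | X (j + 1) w ∈ Λ}, f (X (j + 1) w) ∂μ := by
      rw [Finset.mul_sum]
      refine Finset.sum_le_sum fun j hj => ?_
      have hkj := (Finset.mem_Ico.mp hj).1
      have hms : MeasurableSet (inSet X Λ E k j \ {w | X (j + 1) w ∈ Λ}) :=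
        (hInm j hkj).diff (hΛm (j + 1))
      calc Real.log N * μ.real ((inSet X Λ E k j \ {w | X (j + 1) w ∈ Λ}) ∩
            {w | X (j + 1) w ∉ box 2 N}) =
          ∫ w in inSet X Λ E k j \ {w | X (j + 1) w ∈ Λ},
            Set.indicator {w | X (j + 1) w ∉ box 2 N} (fun _ => Real.log N) w ∂μ := by
            rw [setIntegral_indicator (hNm (j + 1))]
            simp [mul_comm]
        _ ≤ _ := by
            refine setIntegral_mono_on ?_ (h.integrable_comp hP f (j + 1)).integrableOn hms
              fun w _ => ?_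
            · exact ((integrable_const _).indicator (hNm (j + 1))).integrableOn
            · by_cases hw : w ∈ {w | X (j + 1) w ∉ box 2 N}
              · rw [Set.indicator_of_mem hw]
                exact hfar N hN _ hw
              · rw [Set.indicator_of_notMem hw]
                exact hf0 _
    have h2 : 0 ≤ ∫ w in inSet X Λ E k n, f (X n w) ∂μ := integral_nonneg fun w => hf0 _
    have h3 : ∫ w in inSet X Λ E k k, f (X k w) ∂μ ≤ Kf * μ.real E := by
      have hKf0 : 0 ≤ Kf := (hf0 0).trans (hKf 0 (by rw [mem_box]; intro l; simp))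
      calc ∫ w in inSet X Λ E k k, f (X k w) ∂μ ≤ ∫ w in inSet X Λ E k k, Kf ∂μ := by
            refine setIntegral_mono_on_ae (h.integrable_comp hP f k).integrableOn
              (integrable_const Kf).integrableOn (hInm k le_rfl) ?_
            filter_upwards [h.ae_mem_box hP] with w hw _
            exact hKf _ (hw k)
        _ = μ.real (inSet X Λ E k k) * Kf := by simp
        _ ≤ μ.real E * Kf := mul_le_mul_of_nonneg_right
            (measureReal_mono (inSet_subset X Λ E k k)) hKf0
        _ = _ := mul_comm _ _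
    have h4 := hdr n hkn
    linarith
  have hlim := h.tendsto_inSet hP hB Λ hE
  have hlim2 : Tendsto (fun n => Real.log N * μ.real (inSet X Λ E k n) + (Kf * μ.real E + B))
      atTop (nhds (Real.log N * 0 + (Kf * μ.real E + B))) :=
    (hlim.const_mul _).add_const _
  rw [mul_zero, zero_add] at hlim2
  refine ge_of_tendsto hlim2 ?_
  filter_upwards [eventually_ge_atTop k] with n hkn
  have h1 := hcover n hkn
  have h2 := hexit n hkn
  have h3 : μ.real (inSet X Λ E k n \ H) ≤ μ.real (inSet X Λ E k n) :=
    measureReal_mono Set.sdiff_subset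
  have h4 := mul_le_mul_of_nonneg_left (h1.trans (add_le_add_left h3 _)) hlog
  linarith

omit mΩ in
/-- Pathwise bound of the accumulated drift, with partial sums controlled only for `m ≥ 1`. -/
lemma pathwise_drift_iid {a b : ℝ} (hab : a + b = 1) {R : ℕ}
    (hbase : ∀ x ∉ box 2 R,
      a * secondDiff (lyap a b) 0 x + b * secondDiff (lyap a b) 1 x ≤ 0)
    (U W : Stack 2 → ℝ) (env : Ω → Env 2) (X : ℕ → Ω → Site 2) (N k n : ℕ)
    (hkn : k ≤ n) (S : Set (Fin (k + 1) → Site 2)) (w : Ω) (hwE : w ∈ pathEvent X k S)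
    (hbox : ∀ j, X j w ∈ box 2 j)
    (hcook : IsCookieEnv (env w)) (hbal : IsBalanced (env w))
    (hU : ∀ z m, 1 ≤ m → psum a (env w z) m ≤ U (env w z))
    (hW : ∀ z m, 1 ≤ m → -psum a (env w z) m ≤ W (env w z)) :
    ∑ j ∈ Finset.Ico k n,
      (inSet X (box 2 N \ box 2 R) (pathEvent X k S) k j).indicator
        (fun w => drift env X (lyap a b) j w) w ≤
      ∑ z ∈ (box 2 N \ box 2 R) \ box 2 k,
        (visitIn X (box 2 N \ box 2 R) k n S z).indicator
          (fun w => max (dlyap a b z) 0 * U (env w z) + max (-dlyap a b z) 0 * W (env w z)) w +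
      ∑ z ∈ box 2 k, |dlyap a b z| * (max (U (env w z)) 0 + max (W (env w z)) 0) := by
  set Λ := box 2 N \ box 2 R with hΛ
  obtain ⟨T, hkT, hTn, hin, hmax, hsum⟩ := exists_exit_max X Λ (pathEvent X k S) hkn w hwE
  have e1 : ∑ j ∈ Finset.Ico k n, (inSet X Λ (pathEvent X k S) k j).indicator
      (fun w => drift env X (lyap a b) j w) w =
      ∑ j ∈ Finset.Ico k T, drift env X (lyap a b) j w := by
    rw [← hsum (fun j => drift env X (lyap a b) j w)]
    refine Finset.sum_congr rfl fun j _ => ?_
    by_cases hm : w ∈ inSet X Λ (pathEvent X k S) k j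
    · rw [Set.indicator_of_mem hm, Set.indicator_of_mem hm]
    · rw [Set.indicator_of_notMem hm, Set.indicator_of_notMem hm]
  rw [e1]
  have e2 : ∀ j ∈ Finset.Ico k T, drift env X (lyap a b) j w ≤
      (fun z i => 2 * env w z (0, true) i - a) (X j w) (visits (fun k => X k w) j (X j w)) *
        dlyap a b (X j w) := by
    intro j hj
    rw [Finset.mem_Ico] at hj
    have hx : X j w ∉ box 2 R := (Finset.mem_sdiff.mp (hin j hj.1 hj.2)).2
    have hb := hbase _ hx
    unfold drift
    rw [Fin.sum_univ_two]
    rw [pastVisits_eq]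
    set v := visits (fun k => X k w) j (X j w) with hv
    have h2 := (hcook (X j w) v).2
    rw [Fintype.sum_prod_type] at h2
    simp only [Fintype.sum_bool, Fin.sum_univ_two] at h2
    rw [← hbal (X j w) 0 v, ← hbal (X j w) 1 v] at h2
    set p := env w (X j w) (0, true) v with hp
    set p' := env w (X j w) (1, true) v with hp'
    have hp1 : p' = (1 - 2 * p) / 2 := by linarith
    rw [hp1]
    unfold dlyap
    have hb1 : b = 1 - a := by linarith
    rw [hb1] at hb ⊢
    set D0 := secondDiff (lyap a (1 - a)) 0 (X j w)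
    set D1 := secondDiff (lyap a (1 - a)) 1 (X j w)
    simp only
    nlinarith
  refine (Finset.sum_le_sum e2).trans ?_
  rw [sum_Ico_eq_sum_sites (fun k => X k w) (fun z i => 2 * env w z (0, true) i - a)
    (fun z => dlyap a b z) hkT Λ hin]
  -- split the sites
  have hvis0 : ∀ z ∉ box 2 k, visits (fun k => X k w) k z = 0 := by
    intro z hz
    unfold visits
    rw [Finset.card_eq_zero, Finset.filter_eq_empty_iff]
    intro j hj hjz
    apply hz
    rw [← hjz, mem_box]
    intro l
    have h5 := mem_box.mp (hbox j) l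
    rw [Finset.mem_range] at hj
    exact h5.trans (by exact_mod_cast hj.le)
  have e3 : ∀ z ∈ Λ \ box 2 k, dlyap a b z *
      ((∑ i ∈ Finset.range (visits (fun k => X k w) T z), (2 * env w z (0, true) i - a)) -
        ∑ i ∈ Finset.range (visits (fun k => X k w) k z), (2 * env w z (0, true) i - a)) ≤
      (visitIn X Λ k n S z).indicator
          (fun w => max (dlyap a b z) 0 * U (env w z) + max (-dlyap a b z) 0 * W (env w z)) w := by
    intro z hz
    rw [Finset.mem_sdiff] at hz
    rw [hvis0 z hz.2, Finset.range_zero, Finset.sum_empty]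
    by_cases hv : w ∈ visitIn X Λ k n S z
    · rw [Set.indicator_of_mem hv]
      obtain ⟨_, m, hkm, hmn, hXm, hfirst, hstay⟩ := hv
      have hmT : m < T := hmax m hkm hmn hstay
      have hv1 : 1 ≤ visits (fun k => X k w) T z := by
        unfold visits
        rw [Nat.one_le_iff_ne_zero, ← Nat.pos_iff_ne_zero, Finset.card_pos]
        exact ⟨m, Finset.mem_filter.mpr ⟨Finset.mem_range.mpr hmT, hXm⟩⟩
      exact site_bound_zero (hU z _ hv1) (hW z _ hv1)
    · rw [Set.indicator_of_notMem hv]
      have hv0 : visits (fun k => X k w) T z = 0 := by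
        by_contra hne
        unfold visits at hne
        rw [Finset.card_eq_zero, ← ne_eq, ← Finset.nonempty_iff_ne_empty] at hne
        obtain ⟨j, hj⟩ := hne
        rw [Finset.mem_filter, Finset.mem_range] at hj
        have hex : ∃ j, X j w = z := ⟨j, hj.2⟩
        classical
        apply hv
        have hle : Nat.find hex ≤ j := Nat.find_min' hex hj.2
        have hkm : k ≤ Nat.find hex := by
          by_contra hlt
          push Not at hlt
          apply hz.2
          rw [mem_box]
          intro l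
          have h5 := mem_box.mp (hbox (Nat.find hex)) l
          rw [Nat.find_spec hex] at h5
          exact h5.trans (by exact_mod_cast hlt.le)
        exact ⟨hwE, Nat.find hex, hkm, by omega, Nat.find_spec hex,
          fun i hi => Nat.find_min hex hi, fun i hi1 hi2 => hin i hi1 (by omega)⟩
      rw [hv0]
      simp
  have e4 : ∀ z ∈ Λ ∩ box 2 k, dlyap a b z *
      ((∑ i ∈ Finset.range (visits (fun k => X k w) T z), (2 * env w z (0, true) i - a)) -
        ∑ i ∈ Finset.range (visits (fun k => X k w) k z), (2 * env w z (0, true) i - a)) ≤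
      |dlyap a b z| * (max (U (env w z)) 0 + max (W (env w z)) 0) := by
    intro z _
    have hps : ∀ m, ∑ i ∈ Finset.range m, (2 * env w z (0, true) i - a) ≤
        max (U (env w z)) 0 := by
      intro m
      rcases Nat.eq_zero_or_pos m with h0 | h0
      · subst h0; simp
      · exact (hU z m h0).trans (le_max_left _ _)
    have hps' : ∀ m, -∑ i ∈ Finset.range m, (2 * env w z (0, true) i - a) ≤
        max (W (env w z)) 0 := by
      intro m
      rcases Nat.eq_zero_or_pos m with h0 | h0
      · subst h0; simp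
      · exact (hW z m h0).trans (le_max_left _ _)
    have h1 := hps (visits (fun k => X k w) T z)
    have h2 := hps' (visits (fun k => X k w) T z)
    have h3 := hps (visits (fun k => X k w) k z)
    have h4 := hps' (visits (fun k => X k w) k z)
    refine (le_abs_self _).trans ?_
    rw [abs_mul]
    refine mul_le_mul_of_nonneg_left ?_ (abs_nonneg _)
    rw [abs_le]
    constructor <;> linarith
  rw [← Finset.sum_inter_add_sum_sdiff Λ (box 2 k), add_comm]
  refine add_le_add (Finset.sum_le_sum e3) ((Finset.sum_le_sum e4).trans ?_)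
  refine Finset.sum_le_sum_of_subset_of_nonneg Finset.inter_subset_right fun z _ _ => ?_
  exact mul_nonneg (abs_nonneg _) (add_nonneg (le_max_right _ _) (le_max_right _ _))

/-- the path up to time `n` as a random variable -/
def walkUpTo {d : ℕ} (X : ℕ → Ω → Site d) (n : ℕ) (w : Ω) : Fin (n + 1) → Site d := fun k => X k w

/-- The filtration generated by the walk alone. -/
def IsERW.walkFilt (h : IsERW P μ env X) : Filtration ℕ mΩ where
  seq n := MeasurableSpace.comap (walkUpTo X n) inferInstance
  mono' := by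
    intro n m hnm
    have h1 : walkUpTo X n = (fun p : Fin (m + 1) → Site 2 =>
        fun k : Fin (n + 1) => p ⟨k, by omega⟩) ∘ walkUpTo X m := by
      funext w k
      rfl
    show MeasurableSpace.comap (walkUpTo X n) inferInstance ≤
      MeasurableSpace.comap (walkUpTo X m) inferInstance
    rw [h1, ← MeasurableSpace.comap_comp]
    refine MeasurableSpace.comap_mono ?_
    rw [← measurable_iff_comap_le]
    exact measurable_pi_lambda _ fun k => measurable_pi_apply _
  le' := by
    intro n
    rw [← measurable_iff_comap_le]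
    exact measurable_pi_lambda _ fun k => h.measurable_walk k

lemma IsERW.measurable_walkFilt (h : IsERW P μ env X) (n : ℕ) :
    Measurable[h.walkFilt n] (X n) := by
  have h1 : Measurable[h.walkFilt n] (walkUpTo X n) := by
    rw [measurable_iff_comap_le]
    exact le_rfl
  have h2 : X n = (fun p : Fin (n + 1) → Site 2 => p ⟨n, by omega⟩) ∘ walkUpTo X n := by
    funext w
    rfl
  rw [h2]
  exact (measurable_pi_apply _).comp h1

omit mΩ in
lemma measurableSet_pathEvent_hist (env : Ω → Env 2) (X : ℕ → Ω → Site 2) (m : ℕ)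
    (S : Set (Fin (m + 1) → Site 2)) : MeasurableSet[hist env X m] (pathEvent X m S) := by
  have h1 : pathEvent X m S = ⋃ p ∈ S, ⋂ k : Fin (m + 1), X k ⁻¹' {p k} := by
    ext w
    simp only [pathEvent, Set.mem_ofPred_eq, Set.mem_iUnion, Set.mem_iInter, Set.mem_preimage,
      Set.mem_singleton_iff, exists_prop]
    constructor
    · intro hw
      exact ⟨_, hw, fun k => rfl⟩
    · rintro ⟨p, hp, hw⟩
      have : (fun k : Fin (m + 1) => X k w) = p := funext hw
      rw [this]
      exact hp
  rw [h1]
  refine MeasurableSet.biUnion (Set.to_countable S) fun p _ => MeasurableSet.iInter fun k => ?_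
  exact measurable_walk_hist env X (by omega) (measurableSet_singleton _)

/-- Annealed bound of the drift under (IID). -/
lemma IsERW.drift_bound_iid [IsProbabilityMeasure μ] [IsProbabilityMeasure P]
    (h : IsERW P μ env X)
    (hP : ∀ᵐ ω ∂P, IsCookieEnv ω) (hB : ∀ᵐ ω ∂P, IsBalanced ω) (hI : IID P)
    {a b : ℝ} (hab : a + b = 1) {R : ℕ}
    (hbase : ∀ x ∉ box 2 R,
      a * secondDiff (lyap a b) 0 x + b * secondDiff (lyap a b) 1 x ≤ 0)
    {U W : Stack 2 → ℝ} (hUm : Measurable U) (hWm : Measurable W)
    (hUi : Integrable (fun ω : Env 2 => U (ω 0)) P)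
    (hWi : Integrable (fun ω : Env 2 => W (ω 0)) P)
    (hU : ∀ᵐ ω ∂P, ∀ z m, 1 ≤ m → psum a (ω z) m ≤ U (ω z))
    (hW : ∀ᵐ ω ∂P, ∀ z m, 1 ≤ m → -psum a (ω z) m ≤ W (ω z))
    (N k n : ℕ) (hkn : k ≤ n) (S : Set (Fin (k + 1) → Site 2)) :
    ∑ j ∈ Finset.Ico k n,
      ∫ w in inSet X (box 2 N \ box 2 R) (pathEvent X k S) k j, drift env X (lyap a b) j w ∂μ ≤
    (∑ z ∈ box 2 N \ box 2 R, (max (dlyap a b z) 0 * max (∫ ω, U (ω 0) ∂P) 0 +
      max (-dlyap a b z) 0 * max (∫ ω, W (ω 0) ∂P) 0)) * μ.real (pathEvent X k S) +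
    ∑ z ∈ box 2 k, |dlyap a b z| * ∫ w, (max (U (env w z)) 0 + max (W (env w z)) 0) ∂μ := by
  set Λ := box 2 N \ box 2 R with hΛ
  set E := pathEvent X k S with hE
  have hEm : MeasurableSet[hist env X k] E := measurableSet_pathEvent_hist env X k S
  have hEm' : MeasurableSet E := h.hist_le k _ hEm
  have hInm : ∀ j, k ≤ j → MeasurableSet (inSet X Λ E k j) := fun j hj =>
    h.hist_le j _ (measurableSet_inSet_hist env X Λ hj hEm)
  -- integrability of functions of the stacks
  have hint : ∀ (V : Stack 2 → ℝ), Measurable V → Integrable (fun ω : Env 2 => V (ω 0)) P →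
      ∀ y, Integrable (fun w => V (env w y)) μ := by
    intro V hVm hVi y
    have hm0 : Measurable (fun ω : Env 2 => ω 0) := measurable_pi_apply 0
    have hmy : Measurable (fun ω : Env 2 => ω y) := measurable_pi_apply y
    have h1 : Integrable V (P.map (fun ω : Env 2 => ω 0)) := by
      rw [integrable_map_measure hVm.aestronglyMeasurable hm0.aemeasurable]
      exact hVi
    rw [← hI.2 y, integrable_map_measure hVm.aestronglyMeasurable hmy.aemeasurable,
      ← h.law_env] at h1
    exact (integrable_map_measure (hVm.comp hmy).aestronglyMeasurable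
      h.measurable_env.aemeasurable).mp h1
  have hUy := hint U hUm hUi
  have hWy := hint W hWm hWi
  have hUy' : ∀ y, Integrable (fun w => max (U (env w y)) 0) μ := fun y => (hUy y).pos_part
  have hWy' : ∀ y, Integrable (fun w => max (W (env w y)) 0) μ := fun y => (hWy y).pos_part
  have hG : ∀ z, Integrable (fun w => max (dlyap a b z) 0 * U (env w z) +
      max (-dlyap a b z) 0 * W (env w z)) μ := fun z =>
    ((hUy z).const_mul _).add ((hWy z).const_mul _)
  have hvm : ∀ z, MeasurableSet (visitIn X Λ k n S z) := h.measurableSet_visitIn Λ k n S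
  have hvE : ∀ z, visitIn X Λ k n S z ⊆ E := fun z w hw => hw.1
  have e1 : ∀ j ∈ Finset.Ico k n, ∫ w in inSet X Λ E k j, drift env X (lyap a b) j w ∂μ =
      ∫ w in E, (inSet X Λ E k j).indicator (fun w => drift env X (lyap a b) j w) w ∂μ := by
    intro j hj
    rw [setIntegral_indicator (hInm j (Finset.mem_Ico.mp hj).1)]
    rw [Set.inter_eq_self_of_subset_right (inSet_subset X Λ E k j)]
  rw [Finset.sum_congr rfl e1, ← integral_finsetSum]
  swap
  · intro j hj
    exact ((h.integrable_drift hP (lyap a b) j).indicator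
      (hInm j (Finset.mem_Ico.mp hj).1)).integrableOn
  have e2 : ∫ w in E, ∑ j ∈ Finset.Ico k n,
      (inSet X Λ E k j).indicator (fun w => drift env X (lyap a b) j w) w ∂μ ≤
      ∫ w in E, (∑ z ∈ Λ \ box 2 k, (visitIn X Λ k n S z).indicator
          (fun w => max (dlyap a b z) 0 * U (env w z) + max (-dlyap a b z) 0 * W (env w z)) w +
        ∑ z ∈ box 2 k, |dlyap a b z| * (max (U (env w z)) 0 + max (W (env w z)) 0)) ∂μ := by
    refine setIntegral_mono_on_ae ?_ ?_ hEm' ?_
    · refine (integrable_finsetSum _ fun j hj => ?_).integrableOn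
      exact (h.integrable_drift hP (lyap a b) j).indicator (hInm j (Finset.mem_Ico.mp hj).1)
    · refine Integrable.integrableOn (Integrable.add ?_ ?_)
      · exact integrable_finsetSum _ fun z _ => (hG z).indicator (hvm z)
      · exact integrable_finsetSum _ fun z _ => ((hUy' z).add (hWy' z)).const_mul _
    · filter_upwards [h.ae_mem_box hP, h.ae_env hP, h.ae_env hB, h.ae_env hU, h.ae_env hW]
        with w hbox hcook hbal hUw hWw hwE
      exact pathwise_drift_iid hab hbase U W env X N k n hkn S w hwE hbox hcook hbal hUw hWw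
  refine e2.trans ?_
  rw [integral_add]
  rotate_left
  · exact (integrable_finsetSum _ fun z _ => (hG z).indicator (hvm z)).integrableOn
  · exact (integrable_finsetSum _ fun z _ => ((hUy' z).add (hWy' z)).const_mul _).integrableOn
  refine add_le_add ?_ ?_
  · rw [integral_finsetSum _ fun z _ => ((hG z).indicator (hvm z)).integrableOn]
    have e3 : ∀ z ∈ Λ \ box 2 k, ∫ w in E, (visitIn X Λ k n S z).indicator
        (fun w => max (dlyap a b z) 0 * U (env w z) + max (-dlyap a b z) 0 * W (env w z)) w ∂μ ≤
        (max (dlyap a b z) 0 * max (∫ ω, U (ω 0) ∂P) 0 +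
          max (-dlyap a b z) 0 * max (∫ ω, W (ω 0) ∂P) 0) * μ.real E := by
      intro z _
      rw [setIntegral_indicator (hvm z), Set.inter_eq_self_of_subset_right (hvE z)]
      rw [integral_add ((hUy z).const_mul _).integrableOn ((hWy z).const_mul _).integrableOn,
        integral_const_mul, integral_const_mul,
        h.setIntegral_of_lintegral z _ (fun g hg => h.lintegral_visitIn hP hI Λ k n S z g hg) U hUm,
        h.setIntegral_of_lintegral z _ (fun g hg => h.lintegral_visitIn hP hI Λ k n S z g hg) W hWm]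
      have hle : μ.real (visitIn X Λ k n S z) ≤ μ.real E := measureReal_mono (hvE z)
      have h0 : 0 ≤ μ.real (visitIn X Λ k n S z) := measureReal_nonneg
      have hm1 : μ.real (visitIn X Λ k n S z) * ∫ ω, U (ω 0) ∂P ≤
          μ.real E * max (∫ ω, U (ω 0) ∂P) 0 := by
        rcases le_total 0 (∫ ω, U (ω 0) ∂P) with hh' | hh'
        · rw [max_eq_left hh']
          exact mul_le_mul_of_nonneg_right hle hh'
        · rw [max_eq_right hh', mul_zero]
          exact mul_nonpos_of_nonneg_of_nonpos h0 hh'
      have hm2 : μ.real (visitIn X Λ k n S z) * ∫ ω, W (ω 0) ∂P ≤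
          μ.real E * max (∫ ω, W (ω 0) ∂P) 0 := by
        rcases le_total 0 (∫ ω, W (ω 0) ∂P) with hh' | hh'
        · rw [max_eq_left hh']
          exact mul_le_mul_of_nonneg_right hle hh'
        · rw [max_eq_right hh', mul_zero]
          exact mul_nonpos_of_nonneg_of_nonpos h0 hh'
      have hm3 := mul_le_mul_of_nonneg_left hm1 (le_max_right (dlyap a b z) 0)
      have hm4 := mul_le_mul_of_nonneg_left hm2 (le_max_right (-dlyap a b z) 0)
      linarith
    refine (Finset.sum_le_sum e3).trans ?_
    rw [← Finset.sum_mul]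
    refine mul_le_mul_of_nonneg_right ?_ measureReal_nonneg
    refine Finset.sum_le_sum_of_subset_of_nonneg Finset.sdiff_subset fun z _ _ => ?_
    exact add_nonneg (mul_nonneg (le_max_right _ _) (le_max_right _ _))
      (mul_nonneg (le_max_right _ _) (le_max_right _ _))
  · have e5 : ∫ w in E, ∑ z ∈ box 2 k, |dlyap a b z| *
        (max (U (env w z)) 0 + max (W (env w z)) 0) ∂μ =
        ∑ z ∈ box 2 k, ∫ w in E, |dlyap a b z| *
          (max (U (env w z)) 0 + max (W (env w z)) 0) ∂μ :=
      integral_finsetSum _ fun z _ => (((hUy' z).add (hWy' z)).const_mul _).integrableOn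
    rw [e5]
    refine Finset.sum_le_sum fun z _ => ?_
    rw [integral_const_mul]
    refine mul_le_mul_of_nonneg_left ?_ (abs_nonneg _)
    exact setIntegral_le_integral ((hUy' z).add (hWy' z)) (Eventually.of_forall fun w =>
      add_nonneg (le_max_right _ _) (le_max_right _ _))

end Pool.Agent.Helper99.ERW
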