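import Pool.Agent.Helper99.ERW.PlaneIID

open MeasureTheory ProbabilityTheory Filter

namespace Pool.Agent.Helper99.ERW

variable {Ω : Type*} [mΩ : MeasurableSpace Ω] {P : Measure (Env 2)} {μ : Measure Ω}
  {env : Ω → Env 2} {X : ℕ → Ω → Site 2}

/-- **Recurrence criterion in the plane, (IID) version.** -/
theorem IsERW.recurrent_plane_iid [IsProbabilityMeasure μ] [IsProbabilityMeasure P]
    (h : IsERW P μ env X)
    (hP : ∀ᵐ ω ∂P, IsCookieEnv ω) (hB : ∀ᵐ ω ∂P, IsBalanced ω) (hI : IID P) (hE : UEL P)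
    {a : ℝ} (ha0 : 0 < a) (ha1 : a < 1)
    {U W : Stack 2 → ℝ} (hUm : Measurable U) (hWm : Measurable W)
    (hUi : Integrable (fun ω : Env 2 => U (ω 0)) P)
    (hWi : Integrable (fun ω : Env 2 => W (ω 0)) P)
    (hU : ∀ᵐ ω ∂P, ∀ j : ℕ, 1 ≤ j →
      ∑ i ∈ Finset.range j, (2 * ω 0 (0, true) i - a) ≤ U (ω 0))
    (hW : ∀ᵐ ω ∂P, ∀ j : ℕ, 1 ≤ j →
      -∑ i ∈ Finset.range j, (2 * ω 0 (0, true) i - a) ≤ W (ω 0))
    (hsmall : max (∫ ω, U (ω 0) ∂P) 0 + max (∫ ω, W (ω 0) ∂P) 0 < Real.sqrt (a * (1 - a))) :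
    Recurrent μ X := by
  set b := 1 - a with hb
  have hb0 : 0 < b := by rw [hb]; linarith
  have hab : a + b = 1 := by rw [hb]; ring
  have hsq : 0 < Real.sqrt (a * b) := Real.sqrt_pos.mpr (mul_pos ha0 hb0)
  obtain ⟨R, C, hC, hbase, hs1, hs2, hfar⟩ := lyap_spec ha0 hb0 hab
  have hpm : ∀ m, Measurable (fun s : Stack 2 => psum a s m) := by
    intro m
    unfold psum
    refine Finset.measurable_sum _ fun i _ => ?_
    fun_prop
  have hm0 : Measurable (fun ω : Env 2 => ω 0) := measurable_pi_apply 0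
  have hU' : ∀ᵐ ω ∂P, ∀ z m, 1 ≤ m → psum a (ω z) m ≤ U (ω z) := by
    rw [ae_all_iff]
    intro z
    have hms : MeasurableSet {s : Stack 2 | ∀ m, 1 ≤ m → psum a s m ≤ U s} := by
      have : {s : Stack 2 | ∀ m, 1 ≤ m → psum a s m ≤ U s} =
          ⋂ m, ⋂ _ : 1 ≤ m, {s | psum a s m ≤ U s} := by
        ext s; simp
      rw [this]
      exact MeasurableSet.iInter fun m => MeasurableSet.iInter fun _ =>
        measurableSet_le (hpm m) hUm
    have h1 : ∀ᵐ s ∂(P.map (fun ω : Env 2 => ω 0)), ∀ m, 1 ≤ m → psum a s m ≤ U s :=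
      (ae_map_iff hm0.aemeasurable hms).mpr hU
    rw [← hI.2 z] at h1
    have hmz : Measurable (fun ω : Env 2 => ω z) := measurable_pi_apply z
    exact ae_of_ae_map hmz.aemeasurable h1
  have hW' : ∀ᵐ ω ∂P, ∀ z m, 1 ≤ m → -psum a (ω z) m ≤ W (ω z) := by
    rw [ae_all_iff]
    intro z
    have hms : MeasurableSet {s : Stack 2 | ∀ m, 1 ≤ m → -psum a s m ≤ W s} := by
      have : {s : Stack 2 | ∀ m, 1 ≤ m → -psum a s m ≤ W s} =
          ⋂ m, ⋂ _ : 1 ≤ m, {s | -psum a s m ≤ W s} := by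
        ext s; simp
      rw [this]
      exact MeasurableSet.iInter fun m => MeasurableSet.iInter fun _ =>
        measurableSet_le (hpm m).neg hWm
    have h1 : ∀ᵐ s ∂(P.map (fun ω : Env 2 => ω 0)), ∀ m, 1 ≤ m → -psum a s m ≤ W s :=
      (ae_map_iff hm0.aemeasurable hms).mpr hW
    rw [← hI.2 z] at h1
    have hmz : Measurable (fun ω : Env 2 => ω z) := measurable_pi_apply z
    exact ae_of_ae_map hmz.aemeasurable h1
  set EU := max (∫ ω, U (ω 0) ∂P) 0 with hEU
  set EW := max (∫ ω, W (ω 0) ∂P) 0 with hEW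
  have hEU0 : 0 ≤ EU := le_max_right _ _
  have hEW0 : 0 ≤ EW := le_max_right _ _
  set κ := (EU + EW) / Real.sqrt (a * b) with hκ
  have hκ0 : 0 ≤ κ := div_nonneg (by linarith) hsq.le
  have hκ1 : κ < 1 := (div_lt_one hsq).mpr hsmall
  -- main estimate
  have hmain : ∀ k (S : Set (Fin (k + 1) → Site 2)),
      μ.real (pathEvent X k S \ hitSet X R 0 k) ≤ κ * μ.real (pathEvent X k S) := by
    intro k S
    set A := pathEvent X k S with hA
    set Kf : ℝ := ∑ x ∈ box 2 k, lyap a b x with hKf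
    have hKf1 : ∀ x ∈ box 2 k, lyap a b x ≤ Kf := fun x hx =>
      Finset.single_le_sum (f := fun x => lyap a b x) (fun x _ => lyap_nonneg a b _) hx
    set Ck : ℝ := ∑ z ∈ box 2 k, |dlyap a b z| *
      ∫ w, (max (U (env w z)) 0 + max (W (env w z)) 0) ∂μ with hCk
    have hineq : ∀ N : ℕ, R ≤ N → k ≤ N → Real.log N * μ.real (A \ hitSet X R 0 k) ≤
        κ * μ.real A * Real.log N +
          (Kf * μ.real A + C * κ * Real.sqrt (a * b) * μ.real A + Ck) := by
      intro N hRN hkN
      have h1 := h.hit_ineq_gen hP hB hfar k N hRN hkN (E := A)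
        (measurableSet_pathEvent_hist env X k S) Kf
        ((∑ z ∈ box 2 N \ box 2 R, (max (dlyap a b z) 0 * EU + max (-dlyap a b z) 0 * EW)) *
          μ.real A + Ck) hKf1
        (fun n hkn => h.drift_bound_iid hP hB hI hab hbase hUm hWm hUi hWi hU' hW' N k n hkn S)
      have h2 : ∑ z ∈ box 2 N \ box 2 R,
          (max (dlyap a b z) 0 * EU + max (-dlyap a b z) 0 * EW) ≤
          κ * Real.log N + C * κ * Real.sqrt (a * b) := by
        rw [Finset.sum_add_distrib, ← Finset.sum_mul, ← Finset.sum_mul]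
        have h3 := mul_le_mul_of_nonneg_right (hs1 N) hEU0
        have h4 := mul_le_mul_of_nonneg_right (hs2 N) hEW0
        have e2 : κ * Real.sqrt (a * b) = EU + EW := by
          rw [hκ]; field_simp
        calc _ ≤ (Real.log N / Real.sqrt (a * b) + C) * EU +
              (Real.log N / Real.sqrt (a * b) + C) * EW := add_le_add h3 h4
          _ = (Real.log N / Real.sqrt (a * b) + C) * (κ * Real.sqrt (a * b)) := by
              rw [e2]; ring
          _ = κ * Real.log N + C * κ * Real.sqrt (a * b) := by field_simp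
      have h3 := mul_le_mul_of_nonneg_right h2 (measureReal_nonneg (μ := μ) (s := A))
      linarith
    -- divide by log N
    have hl : Tendsto (fun N : ℕ => Real.log (N : ℝ)) atTop atTop :=
      Real.tendsto_log_atTop.comp tendsto_natCast_atTop_atTop
    have hlim : Tendsto (fun N : ℕ => κ * μ.real A +
        (Kf * μ.real A + C * κ * Real.sqrt (a * b) * μ.real A + Ck) * (Real.log (N : ℝ))⁻¹)
        atTop (nhds (κ * μ.real A +
          (Kf * μ.real A + C * κ * Real.sqrt (a * b) * μ.real A + Ck) * 0)) :=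
      ((tendsto_inv_atTop_zero.comp hl).const_mul _).const_add _
    rw [mul_zero, add_zero] at hlim
    refine ge_of_tendsto hlim ?_
    filter_upwards [hl.eventually_gt_atTop 0, eventually_ge_atTop R, eventually_ge_atTop k]
      with N hN hRN hkN
    have h1 := hineq N hRN hkN
    have h2 : μ.real (A \ hitSet X R 0 k) ≤ (κ * μ.real A * Real.log N +
          (Kf * μ.real A + C * κ * Real.sqrt (a * b) * μ.real A + Ck)) / Real.log N := by
      rw [le_div_iff₀ hN, mul_comm]
      exact h1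
    refine h2.trans (le_of_eq ?_)
    field_simp
  -- the ball is hit at arbitrarily large times
  have hio : ∀ᵐ w ∂μ, ∀ m, w ∈ hitSet X R 0 m := by
    rw [ae_all_iff]
    intro m
    have hle : ∀ n, h.walkFilt n ≤ ⨆ n, h.walkFilt n := fun n => le_iSup h.walkFilt n
    have hTm : MeasurableSet[⨆ n, h.walkFilt n] (hitSet X R 0 m)ᶜ := by
      have : hitSet X R 0 m = ⋃ i, ⋃ _ : m ≤ i, X i ⁻¹' {x | x - 0 ∈ box 2 R} := by
        ext w
        simp [hitSet]
      rw [this]
      refine (MeasurableSet.iUnion fun i => MeasurableSet.iUnion fun _ => ?_).compl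
      exact ((h.measurable_walkFilt i).mono (hle i) le_rfl)
        (Set.Countable.measurableSet (Set.to_countable _))
    have hnull : μ (hitSet X R 0 m)ᶜ = 0 := by
      refine null_of_filtration_bound h.walkFilt hTm hκ1 ⟨m, fun k hk A hA => ?_⟩
      obtain ⟨S, _, hSA⟩ := hA
      have hSA' : A = pathEvent X k S := hSA.symm
      rw [hSA']
      refine le_trans (measureReal_mono ?_) (hmain k S)
      rintro w ⟨hw1, hw2⟩
      refine ⟨hw1, ?_⟩
      rintro ⟨i, hi1, hi2⟩
      exact hw2 ⟨i, hk.trans hi1, hi2⟩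
    filter_upwards [measure_eq_zero_iff_ae_notMem.mp hnull] with w hw
    rw [Set.mem_compl_iff, not_not] at hw
    exact hw
  have hstep : ∀ᵐ w ∂μ, ∀ (z : Site 2) (e : Dir 2),
      (∃ᶠ n in atTop, X n w = z) → ∃ᶠ n in atTop, X n w = z + vec e := by
    rw [ae_all_iff]
    intro z
    rw [ae_all_iff]
    intro e
    exact h.io_step hE z e
  filter_upwards [hio, hstep] with w hhit hs
  have hfreq : ∃ᶠ n in atTop, ∃ x ∈ box 2 R, X n w = x := by
    rw [frequently_atTop]
    intro m
    obtain ⟨i, hi1, hi2⟩ := hhit m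
    exact ⟨i, hi1, X i w - 0, hi2, by abel⟩
  have hex : ∃ x ∈ box 2 R, ∃ᶠ n in atTop, X n w = x := by
    by_contra hcon
    push Not at hcon
    have h1 : ∀ x ∈ box 2 R, ∀ᶠ n in atTop, ¬ X n w = x := fun x hx =>
      not_frequently.mp (by
        have := hcon x hx
        simpa [Filter.Frequently] using this)
    have h2 := (Finset.eventually_all (box 2 R)).mpr h1
    apply hfreq
    filter_upwards [h2] with n hn
    rintro ⟨x, hx, hxe⟩
    exact hn x hx hxe
  obtain ⟨x, _, hx⟩ := hex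
  exact fun z => forall_of_step (fun z => ∃ᶠ n in atTop, X n w = z) (fun z hz e => hs z e hz)
    x hx z

end Pool.Agent.Helper99.ERW
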