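import Pool.Agent.Helper99.ERW.PlaneHit

open MeasureTheory ProbabilityTheory Filter

namespace Pool.Agent.Helper99.ERW

variable {Ω : Type*} [mΩ : MeasurableSpace Ω] {P : Measure (Env 2)} {μ : Measure Ω}
  {env : Ω → Env 2} {X : ℕ → Ω → Site 2}

lemma measurable_push (a b : ℝ) (R : ℕ) {U W : Stack 2 → ℝ} (hU : Measurable U)
    (hW : Measurable W) (N : ℕ) : Measurable (push a b R U W N) := by
  unfold push
  refine Finset.measurable_sum _ fun z _ => ?_
  have hz : Measurable (fun ω : Env 2 => ω z) := measurable_pi_apply z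
  exact ((hU.comp hz).const_mul _).add ((hW.comp hz).const_mul _)

lemma measurable_corr (a b : ℝ) {U W : Stack 2 → ℝ} (hU : Measurable U)
    (hW : Measurable W) (y : Site 2) (k : ℕ) : Measurable (corr a b U W y k) := by
  unfold corr
  refine Finset.measurable_sum _ fun z _ => ?_
  have hz : Measurable (fun ω : Env 2 => ω z) := measurable_pi_apply z
  exact ((hU.comp hz).add (hW.comp hz)).const_mul _

lemma measurable_shift {d : ℕ} (y : Site d) : Measurable (shift y : Env d → Env d) := by
  unfold shift
  exact measurable_pi_lambda _ fun z => measurable_pi_apply (z + y)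

/-- The set of environments whose push is infinitely often below `ρ log N`. -/
def goodSet (a b : ℝ) (R : ℕ) (U W : Stack 2 → ℝ) (ρ : ℝ) : Set (Env 2) :=
  {ω | ∃ᶠ N in atTop, push a b R U W N ω ≤ ρ * Real.log N}

lemma measurableSet_goodSet (a b : ℝ) (R : ℕ) {U W : Stack 2 → ℝ} (hU : Measurable U)
    (hW : Measurable W) (ρ : ℝ) : MeasurableSet (goodSet a b R U W ρ) := by
  have : goodSet a b R U W ρ =
      ⋂ M : ℕ, ⋃ N : ℕ, ⋃ _ : M ≤ N, {ω | push a b R U W N ω ≤ ρ * Real.log N} := by
    ext ω
    simp only [goodSet, Set.mem_ofPred_eq, frequently_atTop, Set.mem_iInter, Set.mem_iUnion,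
      exists_prop]
  rw [this]
  exact MeasurableSet.iInter fun M => MeasurableSet.iUnion fun N => MeasurableSet.iUnion fun _ =>
    measurableSet_le (measurable_push a b R hU hW N) measurable_const

/-- Uniform lower bound for the probability to hit the ball, on good environments. -/
lemma IsERW.hit_good [IsProbabilityMeasure μ] (h : IsERW P μ env X)
    (hP : ∀ᵐ ω ∂P, IsCookieEnv ω) (hB : ∀ᵐ ω ∂P, IsBalanced ω)
    {a b : ℝ} (hab : a + b = 1) {R : ℕ}
    (hbase : ∀ x ∉ box 2 R,
      a * secondDiff (lyap a b) 0 x + b * secondDiff (lyap a b) 1 x ≤ 0)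
    (hfar : ∀ N, R ≤ N → ∀ x ∉ box 2 N, Real.log N ≤ lyap a b x)
    {U W : Stack 2 → ℝ} (hUm : Measurable U) (hWm : Measurable W)
    (hU : ∀ᵐ ω ∂P, ∀ z m, psum a (ω z) m ≤ U (ω z))
    (hW : ∀ᵐ ω ∂P, ∀ z m, -psum a (ω z) m ≤ W (ω z))
    {ρ η : ℝ} (hρ : 0 ≤ ρ) (hη : 0 < η) (y : Site 2) (k : ℕ)
    {E : Set Ω} (hE : MeasurableSet[hist env X k] E)
    (hEG : ∀ w ∈ E, shift y (env w) ∈ goodSet a b R U W ρ) :
    μ (E \ hitSet X R y k) ≤ ENNReal.ofReal (ρ + η) * μ E := by
  set H := hitSet X R y k with hH
  have hHm : MeasurableSet H := h.measurableSet_hitSet R y k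
  -- constants
  set Kf : ℝ := ∑ x ∈ box 2 k, lyap a b (x - y) with hKf
  have hKf1 : ∀ x ∈ box 2 k, lyap a b (x - y) ≤ Kf := fun x hx =>
    Finset.single_le_sum (f := fun x => lyap a b (x - y)) (fun x _ => lyap_nonneg a b _) hx
  set N1 : ℕ := R + 2 + k + ∑ l, (y l).natAbs with hN1
  have hbox : ∀ N, N1 ≤ N → ∀ x ∈ box 2 k, x - y ∈ box 2 N := by
    intro N hN x hx
    rw [mem_box] at hx ⊢
    intro l
    have h1 := hx l
    have h2 : (y l).natAbs ≤ ∑ l, (y l).natAbs :=
      Finset.single_le_sum (f := fun l => (y l).natAbs) (fun _ _ => Nat.zero_le _)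
        (Finset.mem_univ l)
    have h3 : |(x - y) l| ≤ |x l| + |y l| := by
      rw [Pi.sub_apply]
      exact abs_sub _ _
    have h4 : |y l| = ((y l).natAbs : ℤ) := Int.abs_eq_natAbs _
    have h5 : ((y l).natAbs : ℤ) ≤ ((∑ l, (y l).natAbs : ℕ) : ℤ) := by exact_mod_cast h2
    have h6 : (N1 : ℤ) ≤ N := by exact_mod_cast hN
    rw [hN1] at h6
    push_cast at h6 h5
    linarith
  -- the pieces
  set Q : ℕ → Set Ω := fun N => {w | N1 ≤ N ∧ push a b R U W N (shift y (env w)) ≤ ρ * Real.log N ∧
    Kf + corr a b U W y k (env w) ≤ η * Real.log N} with hQ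
  have hQm : ∀ N, MeasurableSet[hist env X k] (Q N) := by
    intro N
    have henv := measurable_env_hist env X k
    have h1 : MeasurableSet[hist env X k]
        {w | push a b R U W N (shift y (env w)) ≤ ρ * Real.log N} := by
      have h2 : Measurable[hist env X k] (fun w => push a b R U W N (shift y (env w))) :=
        ((measurable_push a b R hUm hWm N).comp (measurable_shift y)).comp henv
      exact measurableSet_le h2 measurable_const
    have h2 : MeasurableSet[hist env X k]
        {w | Kf + corr a b U W y k (env w) ≤ η * Real.log N} := by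
      have h3 : Measurable[hist env X k] (fun w => Kf + corr a b U W y k (env w)) :=
        ((measurable_corr a b hUm hWm y k).comp henv).const_add Kf
      exact measurableSet_le h3 measurable_const
    have h3 : Q N = {w : Ω | N1 ≤ N} ∩
        ({w | push a b R U W N (shift y (env w)) ≤ ρ * Real.log N} ∩
          {w | Kf + corr a b U W y k (env w) ≤ η * Real.log N}) := by
      ext w
      simp [hQ]
    rw [h3]
    exact (MeasurableSet.const _).inter (h1.inter h2)
  have hcov : E ⊆ ⋃ N, Q N := by
    intro w hw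
    have h1 := hEG w hw
    have h2 : ∀ᶠ N : ℕ in atTop, N1 ≤ N ∧ Kf + corr a b U W y k (env w) ≤ η * Real.log N := by
      have h3 : Tendsto (fun N : ℕ => η * Real.log N) atTop atTop :=
        (Real.tendsto_log_atTop.comp tendsto_natCast_atTop_atTop).const_mul_atTop hη
      exact (eventually_ge_atTop N1).and (h3.eventually_ge_atTop _)
    obtain ⟨N, hN1', hN2⟩ := (Frequently.and_eventually h1 h2).exists
    exact Set.mem_iUnion.mpr ⟨N, hN2.1, hN1', hN2.2⟩
  set F : ℕ → Set Ω := fun N => E ∩ disjointed Q N with hF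
  have hdm : ∀ N, MeasurableSet[hist env X k] (disjointed Q N) :=
    fun N => MeasurableSet.disjointed (mα := hist env X k) hQm N
  have hFm : ∀ N, MeasurableSet[hist env X k] (F N) := fun N => hE.inter (hdm N)
  have hFdisj : Pairwise (Function.onFun Disjoint F) := by
    intro i j hij
    exact (disjoint_disjointed Q hij).mono Set.inter_subset_right Set.inter_subset_right
  have hFun : E = ⋃ N, F N := by
    rw [hF, ← Set.inter_iUnion, iUnion_disjointed]
    exact (Set.inter_eq_self_of_subset_left hcov).symm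
  -- estimate on each piece
  have hpiece : ∀ N, μ (F N \ H) ≤ ENNReal.ofReal (ρ + η) * μ (F N) := by
    intro N
    by_cases hne : (F N).Nonempty
    · obtain ⟨w0, hw0⟩ := hne
      have hNN : N1 ≤ N := (disjointed_subset Q N hw0.2).1
      have hlog : 0 < Real.log N := by
        refine Real.log_pos ?_
        have : 2 ≤ N := by omega
        have : (2 : ℝ) ≤ N := by exact_mod_cast this
        linarith
      have h1 := h.hit_ineq hP hB hab hbase hfar U W hU hW y k N (by omega) (hbox N hNN)
        (hFm N) Kf ((ρ + η) * Real.log N - Kf) hKf1 (by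
          intro w hw
          have h2 := disjointed_subset Q N hw.2
          have h3 := h2.2.1
          have h4 := h2.2.2
          linarith)
      have h2 : μ.real (F N \ H) ≤ (ρ + η) * μ.real (F N) := by
        have h3 : Real.log N * μ.real (F N \ H) ≤
            Real.log N * ((ρ + η) * μ.real (F N)) := by
          refine h1.trans (le_of_eq ?_)
          ring
        exact le_of_mul_le_mul_left h3 hlog
      rw [measureReal_def, measureReal_def] at h2
      have h3 := ENNReal.ofReal_le_ofReal h2
      rw [ENNReal.ofReal_toReal (measure_ne_top _ _),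
        ENNReal.ofReal_mul (by positivity), ENNReal.ofReal_toReal (measure_ne_top _ _)] at h3
      exact h3
    · rw [Set.not_nonempty_iff_eq_empty] at hne
      rw [hne]
      simp
  calc μ (E \ H) = μ (⋃ N, F N \ H) := by
        congr 1
        conv_lhs => rw [hFun]
        rw [Set.iUnion_sdiff]
    _ ≤ ∑' N, μ (F N \ H) := measure_iUnion_le _
    _ ≤ ∑' N, ENNReal.ofReal (ρ + η) * μ (F N) := ENNReal.tsum_le_tsum hpiece
    _ = ENNReal.ofReal (ρ + η) * ∑' N, μ (F N) := ENNReal.tsum_mul_left
    _ = ENNReal.ofReal (ρ + η) * μ E := by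
        rw [← measure_iUnion hFdisj (fun N => h.hist_le k _ (hFm N)), ← hFun]

end Pool.Agent.Helper99.ERW
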