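import Pool.Agent.Helper99.ERW.PlaneSum

namespace Pool.Agent.Helper99.ERW

/-- one dimensional computation -/
lemma log_second_diff {c u y r : ℝ} (hc : 0 < c) (hcr : 1 / c ≤ r) (hr : 4 ≤ r)
    (hu : 22 * r ≤ u) (hy : y ^ 2 / c ≤ 2 * u) :
    |(2 * u / c + 1 / c ^ 2 - 4 * y ^ 2 / c ^ 2) / u ^ 2| ≤ 11 * r / u ∧
    |(2 * u / c + 1 / c ^ 2 - 4 * y ^ 2 / c ^ 2) / u ^ 2| ≤ 1 / 2 ∧
    1 ≤ u + 1 / c + 2 * y / c ∧ 1 ≤ u + 1 / c - 2 * y / c ∧
    Real.log (u + 1 / c + 2 * y / c) + Real.log (u + 1 / c - 2 * y / c) - 2 * Real.log u =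
      Real.log (1 + (2 * u / c + 1 / c ^ 2 - 4 * y ^ 2 / c ^ 2) / u ^ 2) := by
  have hu0 : 0 < u := by linarith
  have hc1 : 0 < 1 / c := by positivity
  set p := 1 / c with hp
  have e1 : 2 * u / c = 2 * u * p := by rw [hp]; ring
  have e2 : 1 / c ^ 2 = p ^ 2 := by rw [hp]; ring
  have e3 : 4 * y ^ 2 / c ^ 2 = 4 * y ^ 2 * p ^ 2 := by rw [hp]; ring
  have e4 : 2 * y / c = 2 * y * p := by rw [hp]; ring
  have e5 : y ^ 2 / c = y ^ 2 * p := by rw [hp]; ring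
  rw [e1, e2, e3, e4]
  rw [e5] at hy
  have hyp : 0 ≤ y ^ 2 * p := by positivity
  -- bound of the numerator
  have hnum : |2 * u * p + p ^ 2 - 4 * y ^ 2 * p ^ 2| ≤ 11 * r * u := by
    rw [abs_le]
    have h1 : y ^ 2 * p * p ≤ 2 * u * r := by
      calc y ^ 2 * p * p ≤ 2 * u * p := mul_le_mul_of_nonneg_right hy hc1.le
        _ ≤ 2 * u * r := mul_le_mul_of_nonneg_left hcr (by positivity)
    have h2 : 0 ≤ y ^ 2 * p * p := by positivity
    have h3 : p ^ 2 ≤ r * u := by nlinarith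
    have h4 : u * p ≤ u * r := mul_le_mul_of_nonneg_left hcr hu0.le
    have h5 : 0 ≤ u * p := by positivity
    have h6 : 0 ≤ p ^ 2 := by positivity
    constructor <;> nlinarith
  have habs : |(2 * u * p + p ^ 2 - 4 * y ^ 2 * p ^ 2) / u ^ 2| ≤ 11 * r / u := by
    rw [abs_div, abs_of_pos (by positivity : (0 : ℝ) < u ^ 2), div_le_div_iff₀ (by positivity) hu0]
    calc |2 * u * p + p ^ 2 - 4 * y ^ 2 * p ^ 2| * u ≤ 11 * r * u * u :=
          mul_le_mul_of_nonneg_right hnum hu0.le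
      _ = 11 * r * u ^ 2 := by ring
  have hhalf : 11 * r / u ≤ 1 / 2 := by
    rw [div_le_div_iff₀ hu0 (by norm_num)]
    linarith
  -- bound of the cross term
  have hcross : (2 * y * p) ^ 2 ≤ (2 / 3 * u) ^ 2 := by
    have h1 : y ^ 2 * p * p ≤ 2 * u * r := by
      calc y ^ 2 * p * p ≤ 2 * u * p := mul_le_mul_of_nonneg_right hy hc1.le
        _ ≤ 2 * u * r := mul_le_mul_of_nonneg_left hcr (by positivity)
    nlinarith
  have hcross' : |2 * y * p| ≤ 2 / 3 * u := abs_le_of_sq_le_sq hcross (by positivity)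
  rw [abs_le] at hcross'
  have h1 : 1 ≤ u + p + 2 * y * p := by nlinarith [hcross'.1]
  have h2 : 1 ≤ u + p - 2 * y * p := by nlinarith [hcross'.2]
  refine ⟨habs, habs.trans hhalf, h1, h2, ?_⟩
  have h3 : u ^ 2 * (1 + (2 * u * p + p ^ 2 - 4 * y ^ 2 * p ^ 2) / u ^ 2) =
      (u + p + 2 * y * p) * (u + p - 2 * y * p) := by
    field_simp
    ring
  have h4 : 0 < 1 + (2 * u * p + p ^ 2 - 4 * y ^ 2 * p ^ 2) / u ^ 2 := by
    have := (abs_le.mp (habs.trans hhalf)).1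
    linarith
  have h5 := congrArg Real.log h3
  rw [Real.log_mul (by positivity) h4.ne', Real.log_mul (by linarith) (by linarith),
    Real.log_pow] at h5
  push_cast at h5
  linarith

/-- the quadratic form `x₀²/a + x₁²/b` -/
noncomputable def qf (a b : ℝ) (x : Site 2) : ℝ := (x 0 : ℝ) ^ 2 / a + (x 1 : ℝ) ^ 2 / b

/-- the Lyapunov function -/
noncomputable def lyap (a b : ℝ) (x : Site 2) : ℝ :=
  1 / 2 * Real.log (max (qf a b x - 1 / (4 * (a * b))) 1)

lemma lyap_nonneg (a b : ℝ) (x : Site 2) : 0 ≤ lyap a b x :=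
  mul_nonneg (by norm_num) (Real.log_nonneg (le_max_right _ _))

section

variable {a b : ℝ}

lemma qf_add_vec_zero (x : Site 2) (s : Bool) :
    qf a b (x + vec (0, s)) = qf a b x + 1 / a + (if s then 2 else -2) * (x 0 : ℝ) / a := by
  unfold qf vec
  cases s <;> simp <;> ring

lemma qf_add_vec_one (x : Site 2) (s : Bool) :
    qf a b (x + vec (1, s)) = qf a b x + 1 / b + (if s then 2 else -2) * (x 1 : ℝ) / b := by
  unfold qf vec
  cases s <;> simp <;> ring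

/-- the quantity `t` in direction 0 -/
noncomputable def tt (c q M y : ℝ) : ℝ :=
  (2 * (q - M) / c + 1 / c ^ 2 - 4 * y ^ 2 / c ^ 2) / (q - M) ^ 2

lemma secondDiff_lyap (ha : 0 < a) (hb : 0 < b) (hab : a + b = 1) (x : Site 2)
    (hx : 23 * (1 / (a * b)) ≤ qf a b x) :
    secondDiff (lyap a b) 0 x =
      1 / 2 * Real.log (1 + tt a (qf a b x) (1 / (4 * (a * b))) (x 0 : ℝ)) ∧
    secondDiff (lyap a b) 1 x =
      1 / 2 * Real.log (1 + tt b (qf a b x) (1 / (4 * (a * b))) (x 1 : ℝ)) ∧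
    |tt a (qf a b x) (1 / (4 * (a * b))) (x 0 : ℝ)| ≤
      11 * (1 / (a * b)) / (qf a b x - 1 / (4 * (a * b))) ∧
    |tt b (qf a b x) (1 / (4 * (a * b))) (x 1 : ℝ)| ≤
      11 * (1 / (a * b)) / (qf a b x - 1 / (4 * (a * b))) ∧
    |tt a (qf a b x) (1 / (4 * (a * b))) (x 0 : ℝ)| ≤ 1 / 2 ∧
    |tt b (qf a b x) (1 / (4 * (a * b))) (x 1 : ℝ)| ≤ 1 / 2 := by
  have hab0 : 0 < a * b := mul_pos ha hb
  set r := 1 / (a * b) with hr
  have hM : 1 / (4 * (a * b)) = r / 4 := by rw [hr]; field_simp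
  rw [hM]
  have hr4 : 4 ≤ r := by
    rw [hr, le_div_iff₀ hab0]
    nlinarith [sq_nonneg (a - b)]
  have har : 1 / a ≤ r := by
    rw [hr]
    exact one_div_le_one_div_of_le hab0 (by nlinarith)
  have hbr : 1 / b ≤ r := by
    rw [hr]
    exact one_div_le_one_div_of_le hab0 (by nlinarith)
  set q := qf a b x with hq
  have hu : 22 * r ≤ q - r / 4 := by linarith
  have hx0 : 0 ≤ (x 0 : ℝ) ^ 2 / a := by positivity
  have hx1 : 0 ≤ (x 1 : ℝ) ^ 2 / b := by positivity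
  have hqdef : q = (x 0 : ℝ) ^ 2 / a + (x 1 : ℝ) ^ 2 / b := rfl
  have hy0 : (x 0 : ℝ) ^ 2 / a ≤ 2 * (q - r / 4) := by linarith
  have hy1 : (x 1 : ℝ) ^ 2 / b ≤ 2 * (q - r / 4) := by linarith
  obtain ⟨A1, A2, A3, A4, A5⟩ := log_second_diff ha har hr4 hu hy0
  obtain ⟨B1, B2, B3, B4, B5⟩ := log_second_diff hb hbr hr4 hu hy1
  have hlyap : lyap a b x = 1 / 2 * Real.log (q - r / 4) := by
    unfold lyap
    rw [← hq, hM, max_eq_left (by linarith)]
  refine ⟨?_, ?_, A1, B1, A2, B2⟩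
  · unfold secondDiff
    have h1 : lyap a b (x + vec (0, true)) =
        1 / 2 * Real.log (q - r / 4 + 1 / a + 2 * (x 0 : ℝ) / a) := by
      unfold lyap
      rw [qf_add_vec_zero, ← hq, hM]
      simp only [if_true]
      rw [show q + 1 / a + 2 * (x 0 : ℝ) / a - r / 4 = q - r / 4 + 1 / a + 2 * (x 0 : ℝ) / a by
        ring, max_eq_left A3]
    have h2 : lyap a b (x + vec (0, false)) =
        1 / 2 * Real.log (q - r / 4 + 1 / a - 2 * (x 0 : ℝ) / a) := by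
      unfold lyap
      rw [qf_add_vec_zero, ← hq, hM]
      simp only [Bool.false_eq_true, if_false]
      rw [show q + 1 / a + -2 * (x 0 : ℝ) / a - r / 4 = q - r / 4 + 1 / a - 2 * (x 0 : ℝ) / a by
        ring, max_eq_left A4]
    rw [h1, h2, hlyap]
    unfold tt
    rw [← A5]
    ring
  · unfold secondDiff
    have h1 : lyap a b (x + vec (1, true)) =
        1 / 2 * Real.log (q - r / 4 + 1 / b + 2 * (x 1 : ℝ) / b) := by
      unfold lyap
      rw [qf_add_vec_one, ← hq, hM]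
      simp only [if_true]
      rw [show q + 1 / b + 2 * (x 1 : ℝ) / b - r / 4 = q - r / 4 + 1 / b + 2 * (x 1 : ℝ) / b by
        ring, max_eq_left B3]
    have h2 : lyap a b (x + vec (1, false)) =
        1 / 2 * Real.log (q - r / 4 + 1 / b - 2 * (x 1 : ℝ) / b) := by
      unfold lyap
      rw [qf_add_vec_one, ← hq, hM]
      simp only [Bool.false_eq_true, if_false]
      rw [show q + 1 / b + -2 * (x 1 : ℝ) / b - r / 4 = q - r / 4 + 1 / b - 2 * (x 1 : ℝ) / b by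
        ring, max_eq_left B4]
    rw [h1, h2, hlyap]
    unfold tt
    rw [← B5]
    ring

/-- The base operator makes the Lyapunov function superharmonic far away. -/
lemma base_lyap_le (ha : 0 < a) (hb : 0 < b) (hab : a + b = 1) (x : Site 2)
    (hx : 23 * (1 / (a * b)) ≤ qf a b x) :
    a * secondDiff (lyap a b) 0 x + b * secondDiff (lyap a b) 1 x ≤ 0 := by
  obtain ⟨h0, h1, h2, h3, h4, h5⟩ := secondDiff_lyap ha hb hab x hx
  rw [h0, h1]
  have hab0 : 0 < a * b := mul_pos ha hb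
  set q := qf a b x with hq
  have hqdef : q = (x 0 : ℝ) ^ 2 / a + (x 1 : ℝ) ^ 2 / b := rfl
  set M := 1 / (4 * (a * b)) with hM
  have hMr : 1 / (a * b) = 4 * M := by rw [hM]; field_simp
  have hM0 : 0 < M := by positivity
  have hu : 0 < q - M := by rw [hMr] at hx; linarith
  set t0 := tt a q M (x 0 : ℝ) with ht0
  set t1 := tt b q M (x 1 : ℝ) with ht1
  have l0 : Real.log (1 + t0) ≤ t0 := by
    have := Real.log_le_sub_one_of_pos (show 0 < 1 + t0 by linarith [(abs_le.mp h4).1])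
    linarith
  have l1 : Real.log (1 + t1) ≤ t1 := by
    have := Real.log_le_sub_one_of_pos (show 0 < 1 + t1 by linarith [(abs_le.mp h5).1])
    linarith
  have hsum : a * t0 + b * t1 = 0 := by
    rw [ht0, ht1]
    unfold tt
    have e1 : a * ((2 * (q - M) / a + 1 / a ^ 2 - 4 * (x 0 : ℝ) ^ 2 / a ^ 2) / (q - M) ^ 2) +
        b * ((2 * (q - M) / b + 1 / b ^ 2 - 4 * (x 1 : ℝ) ^ 2 / b ^ 2) / (q - M) ^ 2) =
        (4 * (q - M) + (1 / a + 1 / b) - 4 * ((x 0 : ℝ) ^ 2 / a + (x 1 : ℝ) ^ 2 / b)) /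
          (q - M) ^ 2 := by
      have : q - M ≠ 0 := hu.ne'
      field_simp
      ring
    have e2 : 1 / a + 1 / b = 4 * M := by
      rw [← hMr]
      field_simp
      linarith
    rw [e1, e2, ← hqdef]
    have : 4 * (q - M) + 4 * M - 4 * q = 0 := by ring
    rw [this, zero_div]
  nlinarith [mul_le_mul_of_nonneg_left l0 ha.le, mul_le_mul_of_nonneg_left l1 hb.le]

/-- lower bound of the logarithm -/
lemma le_log_one_add {t : ℝ} (ht : |t| ≤ 1 / 2) : t - 2 * t ^ 2 ≤ Real.log (1 + t) := by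
  have h1 := (abs_le.mp ht).1
  have h0 : 0 < 1 + t := by linarith
  have h2 := Real.one_sub_inv_le_log_of_pos h0
  have h3 : 1 - (1 + t)⁻¹ = t - t ^ 2 / (1 + t) := by
    field_simp
    ring
  have h4 : t ^ 2 / (1 + t) ≤ 2 * t ^ 2 := by
    rw [div_le_iff₀ h0]
    nlinarith [sq_nonneg t]
  linarith

lemma diff_lyap_le (ha : 0 < a) (hb : 0 < b) (hab : a + b = 1) (x : Site 2)
    (hx : 23 * (1 / (a * b)) ≤ qf a b x) :
    (secondDiff (lyap a b) 0 x - secondDiff (lyap a b) 1 x) / 2 ≤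
      1 / (2 * (a * b)) * (max ((x 1 : ℝ) ^ 2 / b - (x 0 : ℝ) ^ 2 / a) 0 / (qf a b x) ^ 2) +
        123 * (1 / (a * b)) ^ 2 * (1 / (qf a b x) ^ 2) ∧
    -((secondDiff (lyap a b) 0 x - secondDiff (lyap a b) 1 x) / 2) ≤
      1 / (2 * (a * b)) * (max ((x 0 : ℝ) ^ 2 / a - (x 1 : ℝ) ^ 2 / b) 0 / (qf a b x) ^ 2) +
        123 * (1 / (a * b)) ^ 2 * (1 / (qf a b x) ^ 2) := by
  obtain ⟨h0, h1, h2, h3, h4, h5⟩ := secondDiff_lyap ha hb hab x hx
  rw [h0, h1]
  have hab0 : 0 < a * b := mul_pos ha hb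
  set q := qf a b x with hq
  have hqdef : q = (x 0 : ℝ) ^ 2 / a + (x 1 : ℝ) ^ 2 / b := rfl
  set A := (x 0 : ℝ) ^ 2 / a with hA
  set B := (x 1 : ℝ) ^ 2 / b with hB
  have hA0 : 0 ≤ A := by positivity
  have hB0 : 0 ≤ B := by positivity
  set r := 1 / (a * b) with hr
  have hr4 : 4 ≤ r := by
    rw [hr, le_div_iff₀ hab0]
    nlinarith [sq_nonneg (a - b)]
  have hM : 1 / (4 * (a * b)) = r / 4 := by rw [hr]; field_simp
  have hM2 : 1 / (2 * (a * b)) = r / 2 := by rw [hr]; field_simp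
  rw [hM] at h2 h3 h4 h5 ⊢
  rw [hM2]
  set u := q - r / 4 with hu
  have hu0 : 0 < u := by linarith
  set t0 := tt a q (r / 4) (x 0 : ℝ) with ht0
  set t1 := tt b q (r / 4) (x 1 : ℝ) with ht1
  have l0 : Real.log (1 + t0) ≤ t0 := by
    have := Real.log_le_sub_one_of_pos (show 0 < 1 + t0 by linarith [(abs_le.mp h4).1])
    linarith
  have l1 : Real.log (1 + t1) ≤ t1 := by
    have := Real.log_le_sub_one_of_pos (show 0 < 1 + t1 by linarith [(abs_le.mp h5).1])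
    linarith
  have l0' := le_log_one_add h4
  have l1' := le_log_one_add h5
  have hpa : 1 / a * (1 / a) = 1 / a ^ 2 := by field_simp
  have har : 1 / a ≤ r := by
    rw [hr]
    exact one_div_le_one_div_of_le hab0 (by nlinarith)
  have hbr : 1 / b ≤ r := by
    rw [hr]
    exact one_div_le_one_div_of_le hab0 (by nlinarith)
  have hsr : 1 / a + 1 / b = r := by
    rw [hr]; field_simp; linarith
  have hdiff : t0 - t1 = (2 * r * (B - A) + r / 2 * (1 / a - 1 / b)) / u ^ 2 := by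
    rw [ht0, ht1]
    unfold tt
    rw [← hu, ← sub_div]
    congr 1
    have e1 : 4 * (x 0 : ℝ) ^ 2 / a ^ 2 = 4 * A * (1 / a) := by rw [hA]; field_simp
    have e2 : 4 * (x 1 : ℝ) ^ 2 / b ^ 2 = 4 * B * (1 / b) := by rw [hB]; field_simp
    have e3 : 1 / a ^ 2 = (1 / a) ^ 2 := by ring
    have e4 : 1 / b ^ 2 = (1 / b) ^ 2 := by ring
    have e5 : 2 * u / a = 2 * u * (1 / a) := by ring
    have e6 : 2 * u / b = 2 * u * (1 / b) := by ring
    rw [e1, e2, e3, e4, e5, e6]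
    have huAB : u = A + B - r / 4 := by rw [hu, hqdef]
    rw [huAB, ← hsr]
    ring
  have hsq0 : t0 ^ 2 ≤ 121 * r ^ 2 / u ^ 2 := by
    have : |t0| ^ 2 ≤ (11 * r / u) ^ 2 := by gcongr
    rw [sq_abs] at this
    refine this.trans (le_of_eq ?_)
    ring_nf
  have hsq1 : t1 ^ 2 ≤ 121 * r ^ 2 / u ^ 2 := by
    have : |t1| ^ 2 ≤ (11 * r / u) ^ 2 := by gcongr
    rw [sq_abs] at this
    refine this.trans (le_of_eq ?_)
    ring_nf
  have hpq : |1 / a - 1 / b| ≤ r := by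
    have h1 : 0 < 1 / a := by positivity
    have h2 : 0 < 1 / b := by positivity
    rw [abs_le]
    constructor <;> linarith
  rw [abs_le] at hpq
  have hq0 : 0 < q := by linarith
  -- comparison of 1/u² and 1/q²
  have huq : 1 / u ^ 2 ≤ 2 * (1 / q ^ 2) := by
    have e : 2 * (1 / q ^ 2) = 2 / q ^ 2 := by ring
    rw [e, div_le_div_iff₀ (by positivity) (by positivity)]
    have h6 : 22 / 23 * q ≤ u := by rw [hu]; linarith
    nlinarith
  have hmain : ∀ m : ℝ, 0 ≤ m → m ≤ q → r / 2 * m * (1 / u ^ 2) ≤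
      r / 2 * (m / q ^ 2) + r ^ 2 / 4 * (1 / u ^ 2) := by
    intro m hm0 hmq
    have e1 : 1 / u ^ 2 = 1 / q ^ 2 + (q ^ 2 - u ^ 2) / (u ^ 2 * q ^ 2) := by
      field_simp
      ring
    have e2 : m * ((q ^ 2 - u ^ 2) / (u ^ 2 * q ^ 2)) ≤ r / 2 * (1 / u ^ 2) := by
      have e3 : q ^ 2 - u ^ 2 ≤ r / 2 * q := by
        have : q ^ 2 - u ^ 2 = (r / 4) * (q + u) := by rw [hu]; ring
        rw [this]
        have : u ≤ q := by rw [hu]; linarith
        nlinarith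
      have e4 : m * (q ^ 2 - u ^ 2) ≤ q * (r / 2 * q) := by
        have h7 : 0 ≤ q ^ 2 - u ^ 2 := by
          have : u ≤ q := by rw [hu]; linarith
          nlinarith
        calc m * (q ^ 2 - u ^ 2) ≤ q * (q ^ 2 - u ^ 2) := mul_le_mul_of_nonneg_right hmq h7
          _ ≤ q * (r / 2 * q) := mul_le_mul_of_nonneg_left e3 hq0.le
      calc m * ((q ^ 2 - u ^ 2) / (u ^ 2 * q ^ 2)) = m * (q ^ 2 - u ^ 2) / (u ^ 2 * q ^ 2) := by
            ring
        _ ≤ q * (r / 2 * q) / (u ^ 2 * q ^ 2) := by gcongr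
        _ = r / 2 * (1 / u ^ 2) := by field_simp
    calc r / 2 * m * (1 / u ^ 2) =
        r / 2 * (m / q ^ 2) + r / 2 * (m * ((q ^ 2 - u ^ 2) / (u ^ 2 * q ^ 2))) := by
          rw [e1]; ring
      _ ≤ r / 2 * (m / q ^ 2) + r / 2 * (r / 2 * (1 / u ^ 2)) := by gcongr
      _ = r / 2 * (m / q ^ 2) + r ^ 2 / 4 * (1 / u ^ 2) := by ring
  have hi : 0 < 1 / u ^ 2 := by positivity
  have e121 : 121 * r ^ 2 / u ^ 2 = 121 * r ^ 2 * (1 / u ^ 2) := by ring
  rw [e121] at hsq0 hsq1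
  have hd2 : t0 - t1 = (2 * r * (B - A) + r / 2 * (1 / a - 1 / b)) * (1 / u ^ 2) := by
    rw [hdiff]; ring
  have hr0 : 0 < r := by linarith
  constructor
  · have m1 := hmain (max (B - A) 0) (le_max_right _ _) (max_le (by linarith) hq0.le)
    have m2 : r / 2 * (B - A) * (1 / u ^ 2) ≤ r / 2 * max (B - A) 0 * (1 / u ^ 2) := by
      gcongr
      exact le_max_left _ _
    have m3 : r / 2 * (1 / a - 1 / b) * (1 / u ^ 2) ≤ r / 2 * r * (1 / u ^ 2) := by
      gcongr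
      exact hpq.2
    have m4 : 61.25 * r ^ 2 * (1 / u ^ 2) ≤ 61.25 * r ^ 2 * (2 * (1 / q ^ 2)) := by gcongr
    have m5 : 0 ≤ r ^ 2 * (1 / q ^ 2) := by positivity
    nlinarith
  · have m1 := hmain (max (A - B) 0) (le_max_right _ _) (max_le (by linarith) hq0.le)
    have m2 : r / 2 * (A - B) * (1 / u ^ 2) ≤ r / 2 * max (A - B) 0 * (1 / u ^ 2) := by
      gcongr
      exact le_max_left _ _
    have m3 : r / 2 * -(1 / a - 1 / b) * (1 / u ^ 2) ≤ r / 2 * r * (1 / u ^ 2) := by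
      gcongr
      linarith [hpq.1]
    have m4 : 61.25 * r ^ 2 * (1 / u ^ 2) ≤ 61.25 * r ^ 2 * (2 * (1 / q ^ 2)) := by gcongr
    have m5 : 0 ≤ r ^ 2 * (1 / q ^ 2) := by positivity
    nlinarith

end

end Pool.Agent.Helper99.ERW
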