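import Pool.Agent.Helper99.ERW.OneStep

namespace Pool.Agent.Helper99.ERW

lemma sum_Icc_int (g : ℤ → ℝ) (N : ℕ) :
    ∑ k ∈ Finset.Icc (-(N : ℤ)) N, g k =
      g 0 + ∑ j ∈ Finset.range N, (g ((j : ℤ) + 1) + g (-((j : ℤ) + 1))) := by
  induction N with
  | zero => simp
  | succ N ih =>
    have h1 : Finset.Icc (-((N + 1 : ℕ) : ℤ)) ((N + 1 : ℕ) : ℤ) =
        insert ((N : ℤ) + 1) (insert (-((N : ℤ) + 1)) (Finset.Icc (-(N : ℤ)) N)) := by
      ext k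
      simp only [Finset.mem_Icc, Finset.mem_insert]
      push_cast
      omega
    rw [h1, Finset.sum_insert, Finset.sum_insert, ih, Finset.sum_range_succ]
    · ring
    · simp only [Finset.mem_Icc]
      omega
    · simp only [Finset.mem_insert, Finset.mem_Icc]
      omega

/-- One row of the main sum. -/
lemma sum_row_half {s c : ℝ} (hs : 0 < s) (hc : 0 < c) (N : ℕ) :
    (s * (N : ℝ) ^ 2 ≤ c → ∑ j ∈ Finset.range N,
      max (c - s * ((j : ℝ) + 1) ^ 2) 0 / (s * ((j : ℝ) + 1) ^ 2 + c) ^ 2 ≤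
        N / (s * (N : ℝ) ^ 2 + c)) ∧
    ∑ j ∈ Finset.range N,
      max (c - s * ((j : ℝ) + 1) ^ 2) 0 / (s * ((j : ℝ) + 1) ^ 2 + c) ^ 2 ≤
        1 / (2 * Real.sqrt (s * c)) := by
  have hsc : 0 < s * c := mul_pos hs hc
  have hmax : ∀ N : ℕ, (N : ℝ) / (s * (N : ℝ) ^ 2 + c) ≤ 1 / (2 * Real.sqrt (s * c)) := by
    intro N
    have hden : 0 < s * (N : ℝ) ^ 2 + c := by positivity
    rw [div_le_div_iff₀ hden (by positivity)]
    have h1 : Real.sqrt (s * c) = Real.sqrt s * Real.sqrt c := Real.sqrt_mul hs.le c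
    have h2 : Real.sqrt s ^ 2 = s := Real.sq_sqrt hs.le
    have h3 : Real.sqrt c ^ 2 = c := Real.sq_sqrt hc.le
    rw [h1]
    nlinarith [sq_nonneg (Real.sqrt s * N - Real.sqrt c)]
  induction N with
  | zero => simp
  | succ N ih =>
    rw [Finset.sum_range_succ]
    by_cases hN : s * ((N : ℝ) + 1) ^ 2 ≤ c
    · have hN' : s * (N : ℝ) ^ 2 ≤ c := by
        refine le_trans ?_ hN
        have : (0 : ℝ) ≤ N := Nat.cast_nonneg N
        refine mul_le_mul_of_nonneg_left ?_ hs.le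
        nlinarith
      have hstep : (N : ℝ) / (s * (N : ℝ) ^ 2 + c) +
          max (c - s * ((N : ℝ) + 1) ^ 2) 0 / (s * ((N : ℝ) + 1) ^ 2 + c) ^ 2 ≤
          ((N : ℝ) + 1) / (s * ((N : ℝ) + 1) ^ 2 + c) := by
        have hn : (0 : ℝ) ≤ N := Nat.cast_nonneg N
        rw [max_eq_left (by linarith)]
        set U := s * (N : ℝ) ^ 2 + c with hU
        set U' := s * ((N : ℝ) + 1) ^ 2 + c with hU'
        have hU0 : 0 < U := by positivity
        have hU'0 : 0 < U' := by positivity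
        have hUU' : U ≤ U' := by rw [hU, hU']; nlinarith
        have e1 : ((N : ℝ) + 1) / U' - (N : ℝ) / U =
            (c - s * (N : ℝ) * ((N : ℝ) + 1)) / (U * U') := by
          rw [div_sub_div _ _ hU'0.ne' hU0.ne', mul_comm U' U]
          congr 1
          rw [hU, hU']; ring
        have e2 : (c - s * ((N : ℝ) + 1) ^ 2) / U' ^ 2 ≤
            (c - s * (N : ℝ) * ((N : ℝ) + 1)) / (U * U') := by
          rw [div_le_div_iff₀ (by positivity) (by positivity)]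
          have h0 : 0 ≤ c - s * ((N : ℝ) + 1) ^ 2 := by linarith
          have h1 : c - s * ((N : ℝ) + 1) ^ 2 ≤ c - s * (N : ℝ) * ((N : ℝ) + 1) := by nlinarith
          have h2 : U * U' ≤ U' ^ 2 := by nlinarith
          exact mul_le_mul h1 h2 (by positivity) (h0.trans h1)
        linarith
      have h3 := ih.1 hN'
      have h4 : ∑ j ∈ Finset.range N, max (c - s * ((j : ℝ) + 1) ^ 2) 0 /
          (s * ((j : ℝ) + 1) ^ 2 + c) ^ 2 +
          max (c - s * ((N : ℝ) + 1) ^ 2) 0 / (s * ((N : ℝ) + 1) ^ 2 + c) ^ 2 ≤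
          ((N : ℝ) + 1) / (s * ((N : ℝ) + 1) ^ 2 + c) := by linarith
      refine ⟨fun _ => by push_cast; exact h4, h4.trans ?_⟩
      have := hmax (N + 1)
      push_cast at this
      exact this
    · rw [max_eq_right (by linarith), zero_div, add_zero]
      refine ⟨fun h => ?_, ih.2⟩
      exfalso
      apply hN
      push_cast at h
      exact h

/-- One row of the main sum. -/
lemma sum_row {s c : ℝ} (hs : 0 < s) (hc : 0 < c) (N : ℕ) :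
    ∑ k ∈ Finset.Icc (-(N : ℤ)) N, max (c - s * (k : ℝ) ^ 2) 0 / (s * (k : ℝ) ^ 2 + c) ^ 2 ≤
      1 / c + 1 / Real.sqrt (s * c) := by
  rw [sum_Icc_int]
  have h1 := (sum_row_half hs hc N).2
  have h2 : ∑ j ∈ Finset.range N,
      (max (c - s * (((j : ℤ) + 1 : ℤ) : ℝ) ^ 2) 0 / (s * (((j : ℤ) + 1 : ℤ) : ℝ) ^ 2 + c) ^ 2 +
        max (c - s * ((-((j : ℤ) + 1) : ℤ) : ℝ) ^ 2) 0 /
          (s * ((-((j : ℤ) + 1) : ℤ) : ℝ) ^ 2 + c) ^ 2) =
      2 * ∑ j ∈ Finset.range N,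
      max (c - s * ((j : ℝ) + 1) ^ 2) 0 / (s * ((j : ℝ) + 1) ^ 2 + c) ^ 2 := by
    rw [Finset.mul_sum]
    refine Finset.sum_congr rfl fun j _ => ?_
    push_cast
    rw [neg_sq]
    ring
  rw [h2]
  have h3 : max (c - s * ((0 : ℤ) : ℝ) ^ 2) 0 / (s * ((0 : ℤ) : ℝ) ^ 2 + c) ^ 2 = 1 / c := by
    simp only [Int.cast_zero, ne_eq, OfNat.ofNat_ne_zero, not_false_eq_true, zero_pow, mul_zero,
      sub_zero, zero_add]
    rw [max_eq_left hc.le]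
    field_simp
  rw [h3]
  have h4 : 2 * (1 / (2 * Real.sqrt (s * c))) = 1 / Real.sqrt (s * c) := by
    field_simp
  linarith

/-- `∑_{|k| ≤ N} 1/(1+k²) ≤ 5`. -/
lemma sum_inv_one_add_sq (N : ℕ) :
    ∑ k ∈ Finset.Icc (-(N : ℤ)) N, 1 / (1 + (k : ℝ) ^ 2) ≤ 5 := by
  rw [sum_Icc_int]
  have h1 : ∀ N : ℕ, ∑ j ∈ Finset.range N,
      (1 / (1 + (((j : ℤ) + 1 : ℤ) : ℝ) ^ 2) + 1 / (1 + ((-((j : ℤ) + 1) : ℤ) : ℝ) ^ 2)) ≤
      4 - 4 / ((N : ℝ) + 1) := by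
    intro N
    induction N with
    | zero => simp
    | succ N ih =>
      rw [Finset.sum_range_succ]
      have hn : (0 : ℝ) ≤ N := Nat.cast_nonneg N
      have h2 : 1 / (1 + (((N : ℤ) + 1 : ℤ) : ℝ) ^ 2) + 1 / (1 + ((-((N : ℤ) + 1) : ℤ) : ℝ) ^ 2)
          ≤ 4 / ((N : ℝ) + 1) - 4 / ((N : ℝ) + 1 + 1) := by
        push_cast
        have e0' : (-((N : ℝ) + 1)) ^ 2 = ((N : ℝ) + 1) ^ 2 := by ring
        have e1 : 4 / ((N : ℝ) + 1) - 4 / ((N : ℝ) + 1 + 1) =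
            4 / (((N : ℝ) + 1) * ((N : ℝ) + 1 + 1)) := by
          field_simp
          ring
        rw [e1]
        have e2 : 1 / (1 + ((N : ℝ) + 1) ^ 2) ≤ 2 / (((N : ℝ) + 1) * ((N : ℝ) + 1 + 1)) := by
          rw [div_le_div_iff₀ (by positivity) (by positivity)]
          nlinarith
        have e3 : 4 / (((N : ℝ) + 1) * ((N : ℝ) + 1 + 1)) =
            2 / (((N : ℝ) + 1) * ((N : ℝ) + 1 + 1)) + 2 / (((N : ℝ) + 1) * ((N : ℝ) + 1 + 1)) := by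
          ring
        rw [e0', e3]
        linarith
      push_cast
      push_cast at ih h2
      linarith
  have h2 := h1 N
  have h3 : 0 ≤ 4 / ((N : ℝ) + 1) := by positivity
  have h4 : 1 / (1 + ((0 : ℤ) : ℝ) ^ 2) = 1 := by simp
  rw [h4]
  linarith

/-- Sum over the planar box of a product function. -/
lemma sum_box_two (N : ℕ) (g : Site 2 → ℝ) :
    ∑ z ∈ box 2 N, g z =
      ∑ n ∈ Finset.Icc (-(N : ℤ)) N, ∑ k ∈ Finset.Icc (-(N : ℤ)) N, g ![k, n] := by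
  rw [← Finset.sum_product']
  refine Finset.sum_bij' (fun z _ => (z 1, z 0)) (fun p _ => ![p.2, p.1]) ?_ ?_ ?_ ?_ ?_
  · intro z hz
    rw [mem_box] at hz
    simp only [Finset.mem_product, Finset.mem_Icc]
    have h0 := abs_le.mp (hz 0)
    have h1 := abs_le.mp (hz 1)
    exact ⟨h1, h0⟩
  · intro p hp
    simp only [Finset.mem_product, Finset.mem_Icc] at hp
    rw [mem_box]
    intro l
    fin_cases l
    · simpa [abs_le] using hp.2
    · simpa [abs_le] using hp.1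
  · intro z _
    ext l
    fin_cases l <;> rfl
  · intro p _
    rfl
  · intro z _
    congr 1
    ext l
    fin_cases l <;> rfl

/-- `∑_{z ≠ 0} 1/|z|⁴` is finite. -/
lemma sum_box_inv_sq_sq (N : ℕ) :
    ∑ z ∈ (box 2 N).filter (fun z => z ≠ 0), 1 / ((z 0 : ℝ) ^ 2 + (z 1 : ℝ) ^ 2) ^ 2 ≤ 75 := by
  have h1 : ∀ z ∈ (box 2 N).filter (fun z => z ≠ 0),
      1 / ((z 0 : ℝ) ^ 2 + (z 1 : ℝ) ^ 2) ^ 2 ≤
        3 * (1 / (1 + (z 0 : ℝ) ^ 2) * (1 / (1 + (z 1 : ℝ) ^ 2))) := by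
    intro z hz
    have hz0 : z ≠ 0 := (Finset.mem_filter.mp hz).2
    have hs : (1 : ℝ) ≤ (z 0 : ℝ) ^ 2 + (z 1 : ℝ) ^ 2 := by
      have : (1 : ℤ) ≤ (z 0) ^ 2 + (z 1) ^ 2 := by
        by_contra hcon
        push Not at hcon
        have h0 : z 0 = 0 := by nlinarith [sq_nonneg (z 0), sq_nonneg (z 1)]
        have h1 : z 1 = 0 := by nlinarith [sq_nonneg (z 0), sq_nonneg (z 1)]
        apply hz0
        ext l
        fin_cases l
        · exact h0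
        · exact h1
      exact_mod_cast this
    set x := (z 0 : ℝ) ^ 2 with hx
    set y := (z 1 : ℝ) ^ 2 with hy
    have hx0 : 0 ≤ x := sq_nonneg _
    have hy0 : 0 ≤ y := sq_nonneg _
    have e1 : 3 * (1 / (1 + x) * (1 / (1 + y))) = 3 / ((1 + x) * (1 + y)) := by
      field_simp
    rw [e1, div_le_div_iff₀ (by positivity) (by positivity)]
    nlinarith [sq_nonneg (x - y), mul_nonneg hx0 hy0]
  refine (Finset.sum_le_sum h1).trans ?_
  refine (Finset.sum_le_sum_of_subset_of_nonneg (Finset.filter_subset _ _) ?_).trans ?_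
  · intro z _ _
    positivity
  rw [← Finset.mul_sum, sum_box_two]
  simp only [Matrix.cons_val_zero, Matrix.cons_val_one]
  have h2 : ∑ n ∈ Finset.Icc (-(N : ℤ)) N, ∑ k ∈ Finset.Icc (-(N : ℤ)) N,
      1 / (1 + (k : ℝ) ^ 2) * (1 / (1 + (n : ℝ) ^ 2)) =
      (∑ k ∈ Finset.Icc (-(N : ℤ)) N, 1 / (1 + (k : ℝ) ^ 2)) *
      (∑ n ∈ Finset.Icc (-(N : ℤ)) N, 1 / (1 + (n : ℝ) ^ 2)) := by
    rw [Finset.sum_mul_sum, Finset.sum_comm]
  rw [h2]
  have h3 := sum_inv_one_add_sq N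
  have h4 : 0 ≤ ∑ k ∈ Finset.Icc (-(N : ℤ)) N, 1 / (1 + (k : ℝ) ^ 2) :=
    Finset.sum_nonneg fun k _ => by positivity
  nlinarith

lemma sum_inv_sq (N : ℕ) : ∑ j ∈ Finset.range N, 1 / ((j : ℝ) + 1) ^ 2 ≤ 2 := by
  have h1 : ∑ j ∈ Finset.range N, 1 / ((j : ℝ) + 1) ^ 2 ≤ 2 - 2 / ((N : ℝ) + 1) := by
    induction N with
    | zero => simp
    | succ N ih =>
      rw [Finset.sum_range_succ]
      have hn : (0 : ℝ) ≤ N := Nat.cast_nonneg N
      have e1 : 2 / ((N : ℝ) + 1) - 2 / ((N : ℝ) + 1 + 1) =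
          2 / (((N : ℝ) + 1) * ((N : ℝ) + 1 + 1)) := by
        field_simp
        ring
      have e2 : 1 / ((N : ℝ) + 1) ^ 2 ≤ 2 / (((N : ℝ) + 1) * ((N : ℝ) + 1 + 1)) := by
        rw [div_le_div_iff₀ (by positivity) (by positivity)]
        nlinarith
      push_cast
      linarith
  have h2 : 0 ≤ 2 / ((N : ℝ) + 1) := by positivity
  linarith

lemma sum_inv_le_log (N : ℕ) : ∑ j ∈ Finset.range N, 1 / ((j : ℝ) + 1) ≤ 1 + Real.log N := by
  have h1 := harmonic_le_one_add_log N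
  unfold harmonic at h1
  push_cast at h1
  simpa [one_div] using h1

/-- The main sum, one sign. -/
lemma sum_main_aux {a b : ℝ} (ha : 0 < a) (hb : 0 < b) (N : ℕ) :
    ∑ n ∈ Finset.Icc (-(N : ℤ)) N, ∑ k ∈ Finset.Icc (-(N : ℤ)) N,
      max ((n : ℝ) ^ 2 / b - (k : ℝ) ^ 2 / a) 0 / ((k : ℝ) ^ 2 / a + (n : ℝ) ^ 2 / b) ^ 2 ≤
      2 * Real.sqrt (a * b) * Real.log N + (4 * b + 2 * Real.sqrt (a * b)) := by
  have hab : 0 < Real.sqrt (a * b) := Real.sqrt_pos.mpr (mul_pos ha hb)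
  -- rows
  have hrow : ∀ n : ℤ, n ≠ 0 → ∑ k ∈ Finset.Icc (-(N : ℤ)) N,
      max ((n : ℝ) ^ 2 / b - (k : ℝ) ^ 2 / a) 0 / ((k : ℝ) ^ 2 / a + (n : ℝ) ^ 2 / b) ^ 2 ≤
      b * (1 / (n : ℝ) ^ 2) + Real.sqrt (a * b) * (1 / |(n : ℝ)|) := by
    intro n hn
    have hn' : (n : ℝ) ≠ 0 := by exact_mod_cast hn
    have hn2 : 0 < (n : ℝ) ^ 2 := by positivity
    have h1 := sum_row (s := 1 / a) (c := (n : ℝ) ^ 2 / b) (by positivity) (by positivity) N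
    have e1 : 1 / ((n : ℝ) ^ 2 / b) = b * (1 / (n : ℝ) ^ 2) := by
      field_simp
    have e2 : 1 / Real.sqrt (1 / a * ((n : ℝ) ^ 2 / b)) = Real.sqrt (a * b) * (1 / |(n : ℝ)|) := by
      have : 1 / a * ((n : ℝ) ^ 2 / b) = (n : ℝ) ^ 2 / (a * b) := by
        field_simp
      rw [this, Real.sqrt_div (sq_nonneg _), Real.sqrt_sq_eq_abs]
      have hn3 : |(n : ℝ)| ≠ 0 := abs_ne_zero.mpr hn'
      field_simp
    rw [e1, e2] at h1
    refine le_trans (le_of_eq ?_) h1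
    refine Finset.sum_congr rfl fun k _ => ?_
    rw [show (1 / a * (k : ℝ) ^ 2) = (k : ℝ) ^ 2 / a by ring]
  have h0 : ∑ k ∈ Finset.Icc (-(N : ℤ)) N,
      max (((0 : ℤ) : ℝ) ^ 2 / b - (k : ℝ) ^ 2 / a) 0 /
        ((k : ℝ) ^ 2 / a + ((0 : ℤ) : ℝ) ^ 2 / b) ^ 2 = 0 := by
    refine Finset.sum_eq_zero fun k _ => ?_
    have : (0 : ℝ) ≤ (k : ℝ) ^ 2 / a := by positivity
    rw [max_eq_right, zero_div]
    simp only [Int.cast_zero, ne_eq, OfNat.ofNat_ne_zero, not_false_eq_true, zero_pow, zero_div]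
    linarith
  rw [sum_Icc_int, h0, zero_add]
  have h1 : ∀ j ∈ Finset.range N,
      (∑ k ∈ Finset.Icc (-(N : ℤ)) N,
      max ((((j : ℤ) + 1 : ℤ) : ℝ) ^ 2 / b - (k : ℝ) ^ 2 / a) 0 /
        ((k : ℝ) ^ 2 / a + (((j : ℤ) + 1 : ℤ) : ℝ) ^ 2 / b) ^ 2 +
      ∑ k ∈ Finset.Icc (-(N : ℤ)) N,
      max (((-((j : ℤ) + 1) : ℤ) : ℝ) ^ 2 / b - (k : ℝ) ^ 2 / a) 0 /
        ((k : ℝ) ^ 2 / a + ((-((j : ℤ) + 1) : ℤ) : ℝ) ^ 2 / b) ^ 2) ≤
      2 * b * (1 / ((j : ℝ) + 1) ^ 2) + 2 * Real.sqrt (a * b) * (1 / ((j : ℝ) + 1)) := by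
    intro j _
    have hj : (0 : ℝ) ≤ j := Nat.cast_nonneg j
    have h2 := hrow ((j : ℤ) + 1) (by positivity)
    have h3 := hrow (-((j : ℤ) + 1)) (by
      have : (0 : ℤ) ≤ j := Int.natCast_nonneg j
      omega)
    have e3 : |(((j : ℤ) + 1 : ℤ) : ℝ)| = (j : ℝ) + 1 := by
      push_cast
      exact abs_of_nonneg (by positivity)
    have e4 : |((-((j : ℤ) + 1) : ℤ) : ℝ)| = (j : ℝ) + 1 := by
      rw [Int.cast_neg, abs_neg]
      exact e3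
    have e5 : ((-((j : ℤ) + 1) : ℤ) : ℝ) ^ 2 = ((j : ℝ) + 1) ^ 2 := by
      rw [Int.cast_neg, neg_sq]
      push_cast
      rfl
    have e6 : (((j : ℤ) + 1 : ℤ) : ℝ) ^ 2 = ((j : ℝ) + 1) ^ 2 := by
      push_cast
      rfl
    rw [e3] at h2
    rw [e4] at h3
    simp only [e5] at h3 ⊢
    simp only [e6] at h2 ⊢
    linarith
  refine (Finset.sum_le_sum h1).trans ?_
  rw [Finset.sum_add_distrib, ← Finset.mul_sum, ← Finset.mul_sum]
  have h2 := sum_inv_sq N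
  have h3 := sum_inv_le_log N
  have h4 : 2 * b * ∑ j ∈ Finset.range N, 1 / ((j : ℝ) + 1) ^ 2 ≤ 2 * b * 2 :=
    mul_le_mul_of_nonneg_left h2 (by positivity)
  have h5 : 2 * Real.sqrt (a * b) * ∑ j ∈ Finset.range N, 1 / ((j : ℝ) + 1) ≤
      2 * Real.sqrt (a * b) * (1 + Real.log N) := mul_le_mul_of_nonneg_left h3 (by positivity)
  linarith

lemma sum_main₁ {a b : ℝ} (ha : 0 < a) (hb : 0 < b) (N : ℕ) :
    ∑ z ∈ box 2 N, max ((z 1 : ℝ) ^ 2 / b - (z 0 : ℝ) ^ 2 / a) 0 /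
      ((z 0 : ℝ) ^ 2 / a + (z 1 : ℝ) ^ 2 / b) ^ 2 ≤
      2 * Real.sqrt (a * b) * Real.log N + (4 * b + 2 * Real.sqrt (a * b)) := by
  rw [sum_box_two]
  exact sum_main_aux ha hb N

lemma sum_main₂ {a b : ℝ} (ha : 0 < a) (hb : 0 < b) (N : ℕ) :
    ∑ z ∈ box 2 N, max ((z 0 : ℝ) ^ 2 / a - (z 1 : ℝ) ^ 2 / b) 0 /
      ((z 0 : ℝ) ^ 2 / a + (z 1 : ℝ) ^ 2 / b) ^ 2 ≤
      2 * Real.sqrt (a * b) * Real.log N + (4 * a + 2 * Real.sqrt (a * b)) := by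
  rw [sum_box_two, Finset.sum_comm]
  have h1 := sum_main_aux hb ha N
  rw [mul_comm b a] at h1
  refine le_trans (le_of_eq ?_) h1
  refine Finset.sum_congr rfl fun k _ => Finset.sum_congr rfl fun n _ => ?_
  simp only [Matrix.cons_val_zero, Matrix.cons_val_one]
  rw [add_comm ((k : ℝ) ^ 2 / a)]

end Pool.Agent.Helper99.ERW
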