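import Mathlib

namespace Pool.Agent.Helper99.ERW

/-- Second order upper bound for `(1+t)^(-γ)`. -/
lemma rpow_neg_le {γ t : ℝ} (hγ : 0 < γ) (hγ1 : γ ≤ 1) (ht : |t| ≤ 1 / 4) :
    (1 + t) ^ (-γ) ≤ 1 - γ * t + (γ * (1 + γ) / 2) * t ^ 2 + 4 * γ * |t| ^ 3 := by
  have ht' := abs_le.mp ht
  have h1 : 0 < 1 + t := by linarith
  set s := |t| with hs
  have hs0 : 0 ≤ s := abs_nonneg t
  have hst : t ^ 2 = s ^ 2 := (sq_abs t).symm
  have hts : -s ≤ t ∧ t ≤ s := ⟨neg_abs_le t, le_abs_self t⟩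
  -- lower bound of the logarithm
  have hlog : t - t ^ 2 / 2 - 2 * s ^ 3 ≤ Real.log (1 + t) := by
    have h2 := Real.abs_log_sub_add_sum_range_le (x := -t) (by rw [abs_neg]; linarith) 2
    rw [abs_neg, ← hs] at h2
    simp only [Finset.sum_range_succ, Finset.sum_range_zero] at h2
    have h3 : s ^ (2 + 1) / (1 - s) ≤ 2 * s ^ 3 := by
      rw [div_le_iff₀ (by linarith)]
      have h30 : 0 ≤ s ^ 3 := by positivity
      have h31 : 0 ≤ s ^ 3 * (1 - 2 * s) := mul_nonneg h30 (by linarith)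
      have e : s ^ (2 + 1) = s ^ 3 := by norm_num
      rw [e]
      nlinarith
    have h4 := (abs_le.mp (h2.trans h3)).1
    norm_num at h4
    linarith
  set y := -(γ * t) + γ * t ^ 2 / 2 + 2 * γ * s ^ 3 with hy
  have h5 : (1 + t) ^ (-γ) ≤ Real.exp y := by
    rw [Real.rpow_def_of_pos h1]
    apply Real.exp_le_exp.mpr
    rw [hy]
    nlinarith
  have hyabs : |y| ≤ 5 / 4 * γ * s := by
    rw [abs_le, hy, hst]
    have hs1 : s ≤ 1 / 4 := ht
    have e1 : s ^ 2 ≤ s / 4 := by nlinarith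
    have e2 : s ^ 3 ≤ s / 16 := by nlinarith
    constructor
    · have := mul_le_mul_of_nonneg_left e1 hγ.le
      have := mul_le_mul_of_nonneg_left e2 hγ.le
      have := mul_le_mul_of_nonneg_left hts.2 hγ.le
      have : 0 ≤ γ * s ^ 2 := by positivity
      have : 0 ≤ γ * s ^ 3 := by positivity
      nlinarith
    · have := mul_le_mul_of_nonneg_left e1 hγ.le
      have := mul_le_mul_of_nonneg_left e2 hγ.le
      have := mul_le_mul_of_nonneg_left hts.1 hγ.le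
      nlinarith
  have hy1 : |y| ≤ 1 := by
    refine hyabs.trans ?_
    have : γ * s ≤ 1 * (1/4) := mul_le_mul hγ1 ht hs0 zero_le_one
    linarith
  have h6 : Real.exp y ≤ 1 + y + y ^ 2 / 2 + (2 / 9) * |y| ^ 3 := by
    have h7 := Real.exp_bound hy1 (n := 3) (by norm_num)
    have h8 := (abs_le.mp h7).2
    simp only [Finset.sum_range_succ, Finset.sum_range_zero] at h8
    norm_num [Nat.factorial] at h8
    linarith
  -- bound y^2
  have hy2 : y ^ 2 ≤ γ ^ 2 * s ^ 2 + 3 * γ ^ 2 * s ^ 3 := by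
    have e0 : |y| ≤ γ * (s * (1 + s)) := by
      rw [abs_le, hy, hst]
      have hs1 : s ≤ 1 / 4 := ht
      have e2 : 2 * s ^ 3 ≤ s ^ 2 / 2 := by nlinarith [sq_nonneg s]
      constructor
      · have := mul_le_mul_of_nonneg_left hts.2 hγ.le
        have : 0 ≤ γ * s ^ 2 := by positivity
        have : 0 ≤ γ * s ^ 3 := by positivity
        nlinarith
      · have := mul_le_mul_of_nonneg_left hts.1 hγ.le
        have := mul_le_mul_of_nonneg_left e2 hγ.le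
        nlinarith
    have e1 : y ^ 2 ≤ (γ * (s * (1 + s))) ^ 2 := by
      rw [← sq_abs y]
      exact pow_le_pow_left₀ (abs_nonneg y) e0 2
    refine e1.trans ?_
    have hs1 : s ≤ 1 / 4 := ht
    have e3 : (1 + s) ^ 2 ≤ 1 + 3 * s := by nlinarith
    have e4 : 0 ≤ γ ^ 2 * s ^ 2 := by positivity
    calc (γ * (s * (1 + s))) ^ 2 = γ ^ 2 * s ^ 2 * (1 + s) ^ 2 := by ring
      _ ≤ γ ^ 2 * s ^ 2 * (1 + 3 * s) := mul_le_mul_of_nonneg_left e3 e4
      _ = _ := by ring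
  have hy3 : |y| ^ 3 ≤ 2 * γ * s ^ 3 := by
    have e1 : |y| ^ 3 ≤ (5 / 4 * γ * s) ^ 3 := pow_le_pow_left₀ (abs_nonneg y) hyabs 3
    refine e1.trans ?_
    have e2 : γ ^ 3 ≤ γ := by nlinarith [sq_nonneg γ, sq_nonneg (γ - 1)]
    have e3 : 0 ≤ s ^ 3 := by positivity
    nlinarith [mul_le_mul_of_nonneg_right e2 e3]
  have hg2 : γ ^ 2 * s ^ 3 ≤ γ * s ^ 3 := by
    have : γ ^ 2 ≤ γ := by nlinarith
    exact mul_le_mul_of_nonneg_right this (by positivity)
  have h9 : 0 ≤ γ * s ^ 3 := by positivity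
  calc (1 + t) ^ (-γ) ≤ Real.exp y := h5
    _ ≤ 1 + y + y ^ 2 / 2 + (2 / 9) * |y| ^ 3 := h6
    _ ≤ 1 + y + (γ ^ 2 * s ^ 2 + 3 * γ ^ 2 * s ^ 3) / 2 + (2 / 9) * (2 * γ * s ^ 3) := by
        gcongr
    _ ≤ _ := by
        rw [hy, hst]
        nlinarith

end Pool.Agent.Helper99.ERW
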