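import Pool.Agent.Helper99.ERW.OneStep
import Pool.Agent.Helper99.ERW.Power

namespace Pool.Agent.Helper99.ERW

variable {d : ℕ}

/-- The quadratic form `m + ∑ λ_l x_l²`. -/
def quad (lam : Fin d → ℝ) (m : ℝ) (x : Site d) : ℝ := m + ∑ l, lam l * (x l : ℝ) ^ 2

lemma quad_add_vec (lam : Fin d → ℝ) (m : ℝ) (x : Site d) (l : Fin d) (b : Bool) :
    quad lam m (x + vec (l, b)) =
      quad lam m x + lam l + (if b then 2 else -2) * lam l * (x l : ℝ) := by
  unfold quad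
  rw [← Finset.add_sum_erase _ _ (Finset.mem_univ l),
    ← Finset.add_sum_erase (a := l) _ (fun l => lam l * (x l : ℝ) ^ 2) (Finset.mem_univ l)]
  have h1 : ∑ k ∈ Finset.univ.erase l, lam k * (((x + vec (l, b)) k : ℤ) : ℝ) ^ 2 =
      ∑ k ∈ Finset.univ.erase l, lam k * (x k : ℝ) ^ 2 := by
    refine Finset.sum_congr rfl fun k hk => ?_
    have hne : k ≠ l := Finset.ne_of_mem_erase hk
    have : (x + vec (l, b)) k = x k := by
      simp [vec, Pi.single_eq_of_ne hne]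
    rw [this]
  rw [h1]
  have h2 : (((x + vec (l, b)) l : ℤ) : ℝ) = (x l : ℝ) + (if b then 1 else -1) := by
    cases b <;> simp [vec]
  rw [h2]
  cases b <;> simp <;> ring

lemma quad_pos {lam : Fin d → ℝ} (hl : ∀ l, 0 < lam l) {m : ℝ} (hm : 0 < m) (x : Site d) :
    0 < quad lam m x := by
  unfold quad
  have : 0 ≤ ∑ l, lam l * (x l : ℝ) ^ 2 :=
    Finset.sum_nonneg fun l _ => mul_nonneg (hl l).le (sq_nonneg _)
  linarith

lemma le_quad {lam : Fin d → ℝ} (hl : ∀ l, 0 < lam l) (m : ℝ) (x : Site d) (l : Fin d) :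
    m + lam l * (x l : ℝ) ^ 2 ≤ quad lam m x := by
  unfold quad
  have := Finset.single_le_sum (f := fun l => lam l * (x l : ℝ) ^ 2)
    (fun l _ => mul_nonneg (hl l).le (sq_nonneg _)) (Finset.mem_univ l)
  linarith

/-- Upper bound of the second differences of a small negative power of a quadratic form. -/
lemma secondDiff_quad_rpow_le {lam : Fin d → ℝ} (hl : ∀ l, 0 < lam l) {m θ : ℝ} (hm : 0 < m)
    (hθ : 0 < θ) (hθ1 : θ ≤ 1 / 4) (hm1 : ∀ l, 9 * lam l / θ ^ 2 ≤ m) (l : Fin d) (x : Site d) :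
    secondDiff (fun x => quad lam m x ^ (-θ)) l x ≤
      θ * (quad lam m x ^ (-θ) / quad lam m x) *
        (-2 * lam l + (1 + 9 * θ) * (lam l ^ 2 / quad lam m x +
          4 * lam l * (lam l * (x l : ℝ) ^ 2 / quad lam m x))) := by
  set u := quad lam m x with hu
  have hu0 : 0 < u := quad_pos hl hm x
  have hul : m + lam l * (x l : ℝ) ^ 2 ≤ u := le_quad hl m x l
  have hll := hl l
  unfold secondDiff
  simp only [quad_add_vec, ← hu, if_true, Bool.false_eq_true, if_false]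
  set b := 2 * lam l * (x l : ℝ) with hb
  have hneg : -2 * lam l * (x l : ℝ) = -b := by rw [hb]; ring
  rw [hneg]
  set t1 := (lam l + b) / u with ht1
  set t2 := (lam l - b) / u with ht2
  have e1 : u + lam l + b = u * (1 + t1) := by
    rw [ht1]; field_simp; ring
  have e2 : u + lam l + -b = u * (1 + t2) := by
    rw [ht2]; field_simp; ring
  -- smallness
  have hlam : lam l ≤ θ / 3 * u := by
    have h1 := hm1 l
    rw [div_le_iff₀ (by positivity)] at h1
    have h2 : m ≤ u := by nlinarith [mul_nonneg hll.le (sq_nonneg (x l : ℝ))]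
    have h3 : 9 * lam l ≤ u * θ ^ 2 := h1.trans (mul_le_mul_of_nonneg_right h2 (by positivity))
    nlinarith
  have hbabs : |b| ≤ 2 * θ / 3 * u := by
    have h1 := hm1 l
    rw [div_le_iff₀ (by positivity)] at h1
    -- |2 x| ≤ (2θ/3) x² + 3/(2θ)
    have key : |2 * (x l : ℝ)| * (6 * θ) ≤ (2 * θ) ^ 2 * (x l : ℝ) ^ 2 + 9 := by
      have : |2 * (x l : ℝ)| = 2 * |(x l : ℝ)| := by rw [abs_mul]; norm_num
      rw [this, ← sq_abs (x l : ℝ)]
      nlinarith [sq_nonneg (2 * θ * |(x l : ℝ)| - 3)]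
    have h2 : |b| = lam l * |2 * (x l : ℝ)| := by
      rw [hb, show 2 * lam l * (x l : ℝ) = lam l * (2 * (x l : ℝ)) by ring, abs_mul, abs_of_pos hll]
    rw [h2]
    have h3 : lam l * (|2 * (x l : ℝ)| * (6 * θ)) ≤ lam l * ((2 * θ) ^ 2 * (x l : ℝ) ^ 2 + 9) :=
      mul_le_mul_of_nonneg_left key hll.le
    have h4 : lam l * ((2 * θ) ^ 2 * (x l : ℝ) ^ 2 + 9) ≤ 4 * θ ^ 2 * u := by
      have : lam l * 9 ≤ m * θ ^ 2 := by linarith
      nlinarith [mul_le_mul_of_nonneg_right hul (show (0:ℝ) ≤ 4 * θ ^ 2 by positivity),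
        mul_nonneg hm.le (sq_nonneg θ)]
    have h5 : (lam l * |2 * (x l : ℝ)|) * (6 * θ) ≤ (2 * θ / 3 * u) * (6 * θ) := by
      calc _ = lam l * (|2 * (x l : ℝ)| * (6 * θ)) := by ring
        _ ≤ 4 * θ ^ 2 * u := h3.trans h4
        _ = _ := by ring
    exact le_of_mul_le_mul_right h5 (by positivity)
  have hb' := abs_le.mp hbabs
  have ht1abs : |t1| ≤ θ := by
    rw [ht1, abs_div, abs_of_pos hu0, div_le_iff₀ hu0, abs_le]
    constructor <;> nlinarith
  have ht2abs : |t2| ≤ θ := by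
    rw [ht2, abs_div, abs_of_pos hu0, div_le_iff₀ hu0, abs_le]
    constructor <;> nlinarith
  have hp1 := rpow_neg_le (γ := θ) (t := t1) hθ (by linarith) (ht1abs.trans hθ1)
  have hp2 := rpow_neg_le (γ := θ) (t := t2) hθ (by linarith) (ht2abs.trans hθ1)
  have hc : ∀ t : ℝ, |t| ≤ θ → |t| ^ 3 ≤ θ * t ^ 2 := by
    intro t ht
    rw [← sq_abs t]
    calc |t| ^ 3 = |t| * |t| ^ 2 := by ring
      _ ≤ θ * |t| ^ 2 := mul_le_mul_of_nonneg_right ht (sq_nonneg _)
  have hc1 := hc t1 ht1abs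
  have hc2 := hc t2 ht2abs
  have h10 : 0 ≤ 1 + t1 := by have := (abs_le.mp ht1abs).1; linarith
  have h20 : 0 ≤ 1 + t2 := by have := (abs_le.mp ht2abs).1; linarith
  rw [e1, e2, Real.mul_rpow hu0.le h10, Real.mul_rpow hu0.le h20]
  have hU : 0 < u ^ (-θ) := Real.rpow_pos_of_pos hu0 _
  have hsum : t1 + t2 = 2 * lam l / u := by rw [ht1, ht2]; ring
  have hsq : t1 ^ 2 + t2 ^ 2 = 2 * (lam l ^ 2 + b ^ 2) / u ^ 2 := by
    rw [ht1, ht2]; field_simp; ring
  have hmain : (1 + t1) ^ (-θ) + (1 + t2) ^ (-θ) - 2 ≤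
      θ * (-(2 * lam l / u) + (1 + 9 * θ) / 2 * (2 * (lam l ^ 2 + b ^ 2) / u ^ 2)) := by
    rw [← hsum, ← hsq]
    nlinarith [mul_le_mul_of_nonneg_left hc1 (show (0:ℝ) ≤ 4 * θ by positivity),
      mul_le_mul_of_nonneg_left hc2 (show (0:ℝ) ≤ 4 * θ by positivity)]
  calc u ^ (-θ) * (1 + t1) ^ (-θ) + u ^ (-θ) * (1 + t2) ^ (-θ) - 2 * u ^ (-θ)
      = u ^ (-θ) * ((1 + t1) ^ (-θ) + (1 + t2) ^ (-θ) - 2) := by ring
    _ ≤ u ^ (-θ) * (θ * (-(2 * lam l / u) + (1 + 9 * θ) / 2 *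
        (2 * (lam l ^ 2 + b ^ 2) / u ^ 2))) := mul_le_mul_of_nonneg_left hmain hU.le
    _ = _ := by
        rw [hb]
        field_simp
        ring

/-- The cumulative drift produced by the cookies eaten at one site. -/
lemma cumulative_quad_rpow_le {lam : Fin d → ℝ} (hl : ∀ l, 0 < lam l) {m θ ε : ℝ} (hm : 0 < m)
    (hθ : 0 < θ) (hθ1 : θ ≤ 1 / 4) (hm1 : ∀ l, 9 * lam l / θ ^ 2 ≤ m)
    (hε : 0 < ε) (hεl : ∀ l, ε ≤ lam l) (hθ2 : 72 * θ * (∑ l, lam l) ≤ ε)
    (hm2 : 8 * (∑ l, lam l) ^ 2 ≤ m * ε)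
    (T V : Fin d → ℝ) (j : ℝ) (hT : ∀ l, 0 ≤ T l) (hTj : ∑ l, 2 * T l = j)
    (hV : ∀ l, 2 * (lam l * (2 * T l)) - ∑ k, lam k * (2 * T k) + ε * j ≤ V l) (z : Site d) :
    ∑ l, T l * secondDiff (fun x => quad lam m x ^ (-θ)) l z ≤
      θ * (quad lam m z ^ (-θ) / quad lam m z) *
        (∑ l, (lam l * (z l : ℝ) ^ 2 / quad lam m z) * V l - ε / 2 * j) := by
  set u := quad lam m z with hu
  have hu0 : 0 < u := quad_pos hl hm z
  have hmu : m ≤ u := by
    have : 0 ≤ ∑ l, lam l * (z l : ℝ) ^ 2 :=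
      Finset.sum_nonneg fun l _ => mul_nonneg (hl l).le (sq_nonneg _)
    rw [hu]; unfold quad; linarith
  have hU : 0 < u ^ (-θ) := Real.rpow_pos_of_pos hu0 _
  have hj0 : 0 ≤ j := by
    rw [← hTj]; exact Finset.sum_nonneg fun l _ => mul_nonneg zero_le_two (hT l)
  set L := ∑ l, lam l with hL
  have hlL : ∀ l, lam l ≤ L := fun l =>
    Finset.single_le_sum (f := fun l => lam l) (fun l _ => (hl l).le) (Finset.mem_univ l)
  set p : Fin d → ℝ := fun l => lam l * (z l : ℝ) ^ 2 / u with hp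
  have hp0 : ∀ l, 0 ≤ p l := fun l => div_nonneg (mul_nonneg (hl l).le (sq_nonneg _)) hu0.le
  have hpsum : ∑ l, p l = 1 - m / u := by
    rw [hp]
    simp only
    rw [← Finset.sum_div]
    have : ∑ l, lam l * (z l : ℝ) ^ 2 = u - m := by rw [hu]; unfold quad; ring
    rw [this]; field_simp
  set W := ∑ k, lam k * (2 * T k) with hW
  have hW1 : ε * j ≤ W := by
    rw [hW, ← hTj, Finset.mul_sum]
    exact Finset.sum_le_sum fun l _ => mul_le_mul_of_nonneg_right (hεl l)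
      (mul_nonneg zero_le_two (hT l))
  have hTle : ∀ l, 2 * T l ≤ j := by
    intro l
    rw [← hTj]
    exact Finset.single_le_sum (f := fun l => 2 * T l)
      (fun l _ => mul_nonneg zero_le_two (hT l)) (Finset.mem_univ l)
  have step1 : ∑ l, T l * secondDiff (fun x => quad lam m x ^ (-θ)) l z ≤
      θ * (u ^ (-θ) / u) * ∑ l, T l * (-2 * lam l + (1 + 9 * θ) * (lam l ^ 2 / u +
          4 * lam l * p l)) := by
    rw [Finset.mul_sum]
    refine Finset.sum_le_sum fun l _ => ?_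
    have := mul_le_mul_of_nonneg_left (secondDiff_quad_rpow_le hl hm hθ hθ1 hm1 l z) (hT l)
    rw [← hu] at this
    calc _ ≤ _ := this
      _ = _ := by rw [hp]; ring
  refine step1.trans ?_
  refine mul_le_mul_of_nonneg_left ?_ (mul_nonneg hθ.le (div_nonneg hU.le hu0.le))
  -- the bracket
  have e1 : ∑ l, T l * (-2 * lam l + (1 + 9 * θ) * (lam l ^ 2 / u + 4 * lam l * p l)) =
      -W + (1 + 9 * θ) * (∑ l, T l * lam l ^ 2) / u +
        (1 + 9 * θ) * ∑ l, p l * (2 * (lam l * (2 * T l))) := by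
    rw [hW, Finset.mul_sum, Finset.mul_sum, Finset.sum_div, ← Finset.sum_neg_distrib,
      ← Finset.sum_add_distrib, ← Finset.sum_add_distrib]
    refine Finset.sum_congr rfl fun l _ => ?_
    ring
  rw [e1]
  have e2 : W = ∑ l, p l * W + m / u * W := by
    rw [← Finset.sum_mul, hpsum]; ring
  have hA : (∑ l, T l * lam l ^ 2) ≤ L ^ 2 * j / 2 := by
    calc ∑ l, T l * lam l ^ 2 ≤ ∑ l, T l * L ^ 2 := by
          refine Finset.sum_le_sum fun l _ => mul_le_mul_of_nonneg_left ?_ (hT l)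
          exact pow_le_pow_left₀ (hl l).le (hlL l) 2
      _ = L ^ 2 * j / 2 := by
          rw [← hTj, ← Finset.sum_mul, ← Finset.mul_sum]; ring
  have hL0 : 0 ≤ L := Finset.sum_nonneg fun l _ => (hl l).le
  have hB : (1 + 9 * θ) * (∑ l, T l * lam l ^ 2) / u ≤ ε / 4 * j := by
    rw [div_le_iff₀ hu0]
    have h1 : (1 + 9 * θ) ≤ 4 := by linarith
    have h2 : 0 ≤ ∑ l, T l * lam l ^ 2 :=
      Finset.sum_nonneg fun l _ => mul_nonneg (hT l) (sq_nonneg _)
    have h3 : 8 * L ^ 2 * j ≤ m * ε * j := mul_le_mul_of_nonneg_right hm2 hj0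
    have h4 : m * (ε * j) ≤ u * (ε * j) := mul_le_mul_of_nonneg_right hmu (by positivity)
    nlinarith
  have hC : (1 + 9 * θ) * ∑ l, p l * (2 * (lam l * (2 * T l))) ≤
      ∑ l, p l * (2 * (lam l * (2 * T l))) + ε / 4 * j := by
    have h1 : ∑ l, p l * (2 * (lam l * (2 * T l))) ≤ 2 * L * j := by
      calc ∑ l, p l * (2 * (lam l * (2 * T l))) ≤ ∑ l, p l * (2 * (L * j)) := by
            refine Finset.sum_le_sum fun l _ => mul_le_mul_of_nonneg_left ?_ (hp0 l)
            refine mul_le_mul_of_nonneg_left ?_ zero_le_two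
            exact mul_le_mul (hlL l) (hTle l) (mul_nonneg zero_le_two (hT l)) hL0
        _ = (1 - m / u) * (2 * (L * j)) := by rw [← Finset.sum_mul, hpsum]
        _ ≤ 1 * (2 * (L * j)) := by
            refine mul_le_mul_of_nonneg_right ?_ (by positivity)
            have : 0 ≤ m / u := by positivity
            linarith
        _ = 2 * L * j := by ring
    have h2 : 9 * θ * (2 * L * j) ≤ ε / 4 * j := by
      have := mul_le_mul_of_nonneg_right hθ2 hj0
      nlinarith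
    have h3 : 9 * θ * ∑ l, p l * (2 * (lam l * (2 * T l))) ≤ 9 * θ * (2 * L * j) :=
      mul_le_mul_of_nonneg_left h1 (by positivity)
    linarith
  have hD : ∑ l, p l * (2 * (lam l * (2 * T l))) - ∑ l, p l * W ≤
      ∑ l, p l * V l - (1 - m / u) * (ε * j) := by
    rw [← hpsum, Finset.sum_mul, ← Finset.sum_sub_distrib, ← Finset.sum_sub_distrib]
    refine Finset.sum_le_sum fun l _ => ?_
    have := mul_le_mul_of_nonneg_left (hV l) (hp0 l)
    linarith
  have hE : m / u * (ε * j) ≤ m / u * W := mul_le_mul_of_nonneg_left hW1 (by positivity)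
  linarith

end Pool.Agent.Helper99.ERW
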