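import Pool.Agent.Helper99.ERW.Indep
import Pool.Agent.Helper99.ERW.Telescope
import Pool.Agent.Helper99.ERW.QuadPow

open MeasureTheory ProbabilityTheory Filter

namespace Pool.Agent.Helper99.ERW

variable {d : ℕ}
variable {Ω : Type*} [mΩ : MeasurableSpace Ω] {P : Measure (Env d)} {μ : Measure Ω}
  {env : Ω → Env d} {X : ℕ → Ω → Site d}

omit mΩ in
/-- The accumulated drift is a sum over sites. -/
lemma sum_drift_eq (env : Ω → Env d) (X : ℕ → Ω → Site d) (f : Site d → ℝ) (n : ℕ) (w : Ω)
    (hw : ∀ k, X k w ∈ box d k) :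
    ∑ j ∈ Finset.range n, drift env X f j w =
      ∑ z ∈ box d n, ∑ l, (∑ i ∈ Finset.range (visits (fun k => X k w) n z), env w z (l, true) i) *
        secondDiff f l z := by
  have hΛ : ∀ j, 0 ≤ j → j < n → X j w ∈ box d n := by
    intro j _ hj
    rw [mem_box]
    intro l
    have := mem_box.mp (hw j) l
    refine this.trans ?_
    exact_mod_cast hj.le
  unfold drift
  rw [Finset.sum_comm]
  rw [Finset.sum_comm (s := box d n)]
  refine Finset.sum_congr rfl fun l _ => ?_
  have := sum_Ico_eq_sum_sites (fun k => X k w) (fun z i => env w z (l, true) i)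
    (secondDiff f l) (Nat.zero_le n) (box d n) hΛ
  rw [← Finset.range_eq_Ico] at this
  rw [show (∑ x ∈ Finset.range n, env w (X x w) (l, true) (pastVisits (fun k => X k w) x) *
    secondDiff f l (X x w)) = ∑ j ∈ Finset.range n, env w (X j w) (l, true)
      (visits (fun k => X k w) j (X j w)) * secondDiff f l (X j w) from rfl, this]
  refine Finset.sum_congr rfl fun z _ => ?_
  simp only [visits_zero, Finset.range_zero, Finset.sum_empty, sub_zero]
  ring

/-- Iterated one step identity. -/
lemma IsERW.integral_eq_add_sum [IsProbabilityMeasure μ] (h : IsERW P μ env X)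
    (hP : ∀ᵐ ω ∂P, IsCookieEnv ω) (hB : ∀ᵐ ω ∂P, IsBalanced ω) (f : Site d → ℝ) (n : ℕ) :
    ∫ w, f (X n w) ∂μ = f 0 + ∫ w, ∑ j ∈ Finset.range n, drift env X f j w ∂μ := by
  rw [integral_finsetSum _ (fun j _ => h.integrable_drift hP f j)]
  induction n with
  | zero =>
    simp only [Finset.range_zero, Finset.sum_empty, add_zero]
    have : ∀ᵐ w ∂μ, f (X 0 w) = f 0 := by
      filter_upwards [h.start] with w hw
      rw [hw]
    rw [integral_congr_ae this]
    simp
  | succ n ih =>
    have h1 := h.setIntegral_succ hP hB f n (E := Set.univ) MeasurableSet.univ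
    simp only [Measure.restrict_univ] at h1
    rw [h1, ih, Finset.sum_range_succ]
    ring

lemma IsERW.setIntegral_visitedBy [IsProbabilityMeasure μ] [IsProbabilityMeasure P]
    (h : IsERW P μ env X)
    (hP : ∀ᵐ ω ∂P, IsCookieEnv ω) (hI : IID P) (z : Site d) (n : ℕ) (V : Stack d → ℝ)
    (hVm : Measurable V) :
    ∫ w in visitedBy X z n, V (env w z) ∂μ =
      μ.real (visitedBy X z n) * ∫ ω, V (ω 0) ∂P := by
  have hmz : Measurable (fun w => env w z) := (measurable_pi_apply z).comp h.measurable_env
  have hm0 : Measurable (fun ω : Env d => ω 0) := measurable_pi_apply 0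
  have hmeq : (μ.restrict (visitedBy X z n)).map (fun w => env w z) =
      μ (visitedBy X z n) • P.map (fun ω : Env d => ω 0) := by
    ext B hB
    have h1 := h.lintegral_visitedBy hP hI z n (B.indicator fun _ => 1)
      (measurable_const.indicator hB)
    rw [Measure.map_apply hmz hB, Measure.smul_apply, Measure.map_apply hm0 hB, smul_eq_mul]
    have e1 : ∫⁻ w in visitedBy X z n, B.indicator (fun _ => (1 : ENNReal)) (env w z) ∂μ =
        (μ.restrict (visitedBy X z n)) ((fun w => env w z) ⁻¹' B) := by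
      rw [← lintegral_indicator_one (hmz hB)]
      rfl
    have e2 : ∫⁻ ω : Env d, B.indicator (fun _ => (1 : ENNReal)) (ω 0) ∂P =
        P ((fun ω : Env d => ω 0) ⁻¹' B) := by
      rw [← lintegral_indicator_one (hm0 hB)]
      rfl
    rw [e1, e2] at h1
    rw [h1, mul_comm]
  have h2 : ∫ w in visitedBy X z n, V (env w z) ∂μ =
      ∫ s, V s ∂((μ.restrict (visitedBy X z n)).map (fun w => env w z)) := by
    rw [integral_map hmz.aemeasurable hVm.aestronglyMeasurable]
  rw [h2, hmeq, integral_smul_measure, integral_map hm0.aemeasurable hVm.aestronglyMeasurable]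
  rfl

/-- Main estimate: bounded expected number of visits to each site. -/
lemma IsERW.exists_bound_visits [IsProbabilityMeasure μ] [IsProbabilityMeasure P]
    (h : IsERW P μ env X)
    (hP : ∀ᵐ ω ∂P, IsCookieEnv ω) (hB : ∀ᵐ ω ∂P, IsBalanced ω) (hI : IID P)
    (lam : Fin d → ℝ) (hl : ∀ l, 0 < lam l) (ε : ℝ) (hε : 0 < ε)
    (V : Fin d → Stack d → ℝ) (hVm : ∀ l, Measurable (V l))
    (hVi : ∀ l, Integrable (fun ω : Env d => V l (ω 0)) P)
    (hV0 : ∀ l, ∫ ω, V l (ω 0) ∂P ≤ 0)
    (hV : ∀ᵐ ω ∂P, ∀ l, ∀ j : ℕ, 1 ≤ j → ∑ i ∈ Finset.range j,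
      (2 * (lam l * (2 * ω 0 (l, true) i)) - ∑ k, lam k * (2 * ω 0 (k, true) i) + ε) ≤
        V l (ω 0)) (z : Site d) :
    ∃ C : ℝ, ∀ n, ∫ w, (visits (fun k => X k w) n z : ℝ) ∂μ ≤ C := by
  -- WLOG ε is at most every weight
  obtain ⟨ε', hε'0, hε'1, hε'l⟩ : ∃ ε' : ℝ, 0 < ε' ∧ ε' ≤ ε ∧ ∀ l, ε' ≤ lam l := by
    by_cases hne : Nonempty (Fin d)
    · obtain ⟨l0, hl0⟩ := Finite.exists_min lam
      exact ⟨min ε (lam l0), lt_min hε (hl l0), min_le_left _ _,
        fun l => (min_le_right _ _).trans (hl0 l)⟩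
    · exact ⟨ε, hε, le_rfl, fun l => absurd ⟨l⟩ hne⟩
  set L := ∑ l, lam l with hL
  have hL0 : 0 ≤ L := Finset.sum_nonneg fun l _ => (hl l).le
  set θ := min (1 / 4) (ε' / (72 * (L + 1))) with hθdef
  have hθ : 0 < θ := lt_min (by norm_num) (by positivity)
  have hθ1 : θ ≤ 1 / 4 := min_le_left _ _
  have hθ2 : 72 * θ * L ≤ ε' := by
    have h1 : θ ≤ ε' / (72 * (L + 1)) := min_le_right _ _
    rw [le_div_iff₀ (by positivity)] at h1
    nlinarith
  set m := 9 * L / θ ^ 2 + 8 * L ^ 2 / ε' + 1 with hmdef
  have hm : 0 < m := by positivity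
  have hlL : ∀ l, lam l ≤ L := fun l =>
    Finset.single_le_sum (f := fun l => lam l) (fun l _ => (hl l).le) (Finset.mem_univ l)
  have hm1 : ∀ l, 9 * lam l / θ ^ 2 ≤ m := by
    intro l
    have h1 : 9 * lam l / θ ^ 2 ≤ 9 * L / θ ^ 2 := by
      have := hlL l
      gcongr
    have h2 : 0 ≤ 8 * L ^ 2 / ε' := by positivity
    linarith
  have hm2 : 8 * L ^ 2 ≤ m * ε' := by
    have h1 : 8 * L ^ 2 = 8 * L ^ 2 / ε' * ε' := by field_simp
    rw [h1]
    refine mul_le_mul_of_nonneg_right ?_ hε'0.le
    have h2 : 0 ≤ 9 * L / θ ^ 2 := by positivity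
    linarith
  -- Lyapunov function
  set f : Site d → ℝ := fun x => quad lam m x ^ (-θ) with hf
  have hfpos : ∀ x, 0 < f x := fun x => Real.rpow_pos_of_pos (quad_pos hl hm x) _
  set K : Site d → ℝ := fun z => θ * (quad lam m z ^ (-θ) / quad lam m z) with hK
  have hKpos : ∀ x, 0 < K x := fun x =>
    mul_pos hθ (div_pos (Real.rpow_pos_of_pos (quad_pos hl hm x) _) (quad_pos hl hm x))
  set p : Fin d → Site d → ℝ := fun l z => lam l * (z l : ℝ) ^ 2 / quad lam m z with hp
  have hp0 : ∀ l z, 0 ≤ p l z := fun l z =>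
    div_nonneg (mul_nonneg (hl l).le (sq_nonneg _)) (quad_pos hl hm z).le
  -- pathwise bound
  have hVall : ∀ᵐ ω ∂P, ∀ z : Site d, ∀ l, ∀ j : ℕ, 1 ≤ j → ∑ i ∈ Finset.range j,
      (2 * (lam l * (2 * ω z (l, true) i)) - ∑ k, lam k * (2 * ω z (k, true) i) + ε) ≤
        V l (ω z) := by
    rw [ae_all_iff]
    intro z
    have hms : MeasurableSet {s : Stack d | ∀ l, ∀ j : ℕ, 1 ≤ j → ∑ i ∈ Finset.range j,
      (2 * (lam l * (2 * s (l, true) i)) - ∑ k, lam k * (2 * s (k, true) i) + ε) ≤ V l s} := by
      have : {s : Stack d | ∀ l, ∀ j : ℕ, 1 ≤ j → ∑ i ∈ Finset.range j,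
        (2 * (lam l * (2 * s (l, true) i)) - ∑ k, lam k * (2 * s (k, true) i) + ε) ≤ V l s} =
        ⋂ l, ⋂ j : ℕ, ⋂ _ : 1 ≤ j, {s : Stack d | ∑ i ∈ Finset.range j,
        (2 * (lam l * (2 * s (l, true) i)) - ∑ k, lam k * (2 * s (k, true) i) + ε) ≤ V l s} := by
        ext s; simp
      rw [this]
      refine MeasurableSet.iInter fun l => MeasurableSet.iInter fun j =>
        MeasurableSet.iInter fun _ => measurableSet_le ?_ (hVm l)
      refine Finset.measurable_sum _ fun i _ => ?_
      fun_prop
    have h1 : ∀ᵐ s ∂(P.map (fun ω : Env d => ω 0)), ∀ l, ∀ j : ℕ, 1 ≤ j → ∑ i ∈ Finset.range j,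
      (2 * (lam l * (2 * s (l, true) i)) - ∑ k, lam k * (2 * s (k, true) i) + ε) ≤ V l s := by
      have hm0 : Measurable (fun ω : Env d => ω 0) := measurable_pi_apply 0
      exact (ae_map_iff hm0.aemeasurable hms).mpr hV
    rw [← hI.2 z] at h1
    have hmz : Measurable (fun ω : Env d => ω z) := measurable_pi_apply z
    exact ae_of_ae_map hmz.aemeasurable h1
  have hpath : ∀ n, ∀ᵐ w ∂μ, ∑ j ∈ Finset.range n, drift env X f j w ≤
      ∑ y ∈ box d n, K y * ((∑ l, p l y * (visitedBy X y n).indicator (fun w => V l (env w y)) w) -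
        ε' / 2 * (visits (fun k => X k w) n y : ℝ)) := by
    intro n
    filter_upwards [h.ae_mem_box hP, h.ae_env hP, h.ae_env hB, h.ae_env hVall]
      with w hbox hcook hbal hVw
    rw [sum_drift_eq env X f n w hbox]
    refine Finset.sum_le_sum fun y _ => ?_
    set N := visits (fun k => X k w) n y with hN
    by_cases hvis : w ∈ visitedBy X y n
    · simp only [Set.indicator_of_mem hvis]
      have hN1 : 1 ≤ N := by
        obtain ⟨k, hk, hky⟩ := hvis
        rw [hN]
        unfold visits
        rw [Nat.one_le_iff_ne_zero, ← Nat.pos_iff_ne_zero, Finset.card_pos]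
        exact ⟨k, Finset.mem_filter.mpr ⟨Finset.mem_range.mpr hk, hky⟩⟩
      have := cumulative_quad_rpow_le (d := d) hl (m := m) (θ := θ) (ε := ε') hm hθ hθ1 hm1 hε'0
        hε'l hθ2 hm2 (fun l => ∑ i ∈ Finset.range N, env w y (l, true) i)
        (fun l => V l (env w y)) (N : ℝ)
        (fun l => Finset.sum_nonneg fun i _ => (hcook y i).1 _) ?_ ?_ y
      · exact this
      · have h1 : ∀ i, ∑ l, 2 * env w y (l, true) i = 1 := by
          intro i
          have h2 := (hcook y i).2
          rw [Fintype.sum_prod_type] at h2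
          simp only [Fintype.sum_bool] at h2
          rw [← h2]
          refine Finset.sum_congr rfl fun l _ => ?_
          rw [← hbal y l i]
          ring
        calc ∑ l, 2 * ∑ i ∈ Finset.range N, env w y (l, true) i
            = ∑ i ∈ Finset.range N, ∑ l, 2 * env w y (l, true) i := by
              rw [Finset.sum_comm]
              refine Finset.sum_congr rfl fun l _ => ?_
              rw [Finset.mul_sum]
          _ = N := by simp [h1]
      · intro l
        have h1 := hVw y l N hN1
        refine le_trans ?_ h1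
        simp only [Finset.sum_add_distrib, Finset.sum_sub_distrib, Finset.sum_const,
          Finset.card_range, nsmul_eq_mul]
        have e1 : ∑ i ∈ Finset.range N, 2 * (lam l * (2 * env w y (l, true) i)) =
            2 * (lam l * (2 * ∑ i ∈ Finset.range N, env w y (l, true) i)) := by
          rw [Finset.mul_sum, Finset.mul_sum, Finset.mul_sum]
        have e2 : ∑ i ∈ Finset.range N, ∑ k, lam k * (2 * env w y (k, true) i) =
            ∑ k, lam k * (2 * ∑ i ∈ Finset.range N, env w y (k, true) i) := by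
          rw [Finset.sum_comm]
          refine Finset.sum_congr rfl fun k _ => ?_
          rw [Finset.mul_sum, Finset.mul_sum]
        rw [e1, e2]
        have : ε' * (N : ℝ) ≤ N * ε := by
          rw [mul_comm]
          exact mul_le_mul_of_nonneg_left hε'1 (Nat.cast_nonneg _)
        linarith
    · have hN0 : N = 0 := by
        rw [hN]
        unfold visits
        rw [Finset.card_eq_zero, Finset.filter_eq_empty_iff]
        intro k hk hky
        exact hvis ⟨k, Finset.mem_range.mp hk, hky⟩
      rw [hN0]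
      simp [Set.indicator_of_notMem hvis]
  -- integrate the pathwise bound
  have hVint : ∀ l y, Integrable (fun w => V l (env w y)) μ := by
    intro l y
    have hm0 : Measurable (fun ω : Env d => ω 0) := measurable_pi_apply 0
    have hmy : Measurable (fun ω : Env d => ω y) := measurable_pi_apply y
    have h1 : Integrable (V l) (P.map (fun ω : Env d => ω 0)) := by
      rw [integrable_map_measure (hVm l).aestronglyMeasurable hm0.aemeasurable]
      exact hVi l
    rw [← hI.2 y, integrable_map_measure (hVm l).aestronglyMeasurable hmy.aemeasurable,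
      ← h.law_env] at h1
    exact (integrable_map_measure ((hVm l).comp hmy).aestronglyMeasurable
      h.measurable_env.aemeasurable).mp h1
  have hvint : ∀ n y, Integrable (fun w => (visits (fun k => X k w) n y : ℝ)) μ := by
    intro n y
    refine Integrable.of_bound (C := n) ?_ ?_
    · have h1 : Measurable (fun w => visits (fun k => X k w) n y) :=
        (measurable_visits_hist env X le_rfl y).mono (h.hist_le n) le_rfl
      exact (measurable_from_top.comp h1).aestronglyMeasurable
    · refine Filter.Eventually.of_forall fun w => ?_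
      rw [Real.norm_eq_abs, Nat.abs_cast]
      exact_mod_cast visits_le _ _ _
  refine ⟨f 0 / (K z * (ε' / 2)) , fun n => ?_⟩
  -- it suffices to treat n with z in the box
  have key : ∀ n, z ∈ box d n →
      ∫ w, (visits (fun k => X k w) n z : ℝ) ∂μ ≤ f 0 / (K z * (ε' / 2)) := by
    intro n hz
    have hid := h.integral_eq_add_sum hP hB f n
    have hpos : 0 ≤ ∫ w, f (X n w) ∂μ := integral_nonneg fun w => (hfpos _).le
    have hb : ∫ w, ∑ j ∈ Finset.range n, drift env X f j w ∂μ ≤
        ∫ w, ∑ y ∈ box d n, K y *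
          ((∑ l, p l y * (visitedBy X y n).indicator (fun w => V l (env w y)) w) -
          ε' / 2 * (visits (fun k => X k w) n y : ℝ)) ∂μ := by
      refine integral_mono_ae ?_ ?_ (hpath n)
      · exact integrable_finsetSum _ fun j _ => h.integrable_drift hP f j
      · refine integrable_finsetSum _ fun y _ => Integrable.const_mul (Integrable.sub ?_ ?_) _
        · exact integrable_finsetSum _ fun l _ =>
            ((hVint l y).indicator (h.measurableSet_visitedBy y n)).const_mul _
        · exact (hvint n y).const_mul _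
    have hc : ∫ w, ∑ y ∈ box d n, K y *
          ((∑ l, p l y * (visitedBy X y n).indicator (fun w => V l (env w y)) w) -
          ε' / 2 * (visits (fun k => X k w) n y : ℝ)) ∂μ =
        ∑ y ∈ box d n, K y * ((∑ l, p l y * (μ.real (visitedBy X y n) * ∫ ω, V l (ω 0) ∂P)) -
          ε' / 2 * ∫ w, (visits (fun k => X k w) n y : ℝ) ∂μ) := by
      rw [integral_finsetSum]
      · refine Finset.sum_congr rfl fun y _ => ?_
        rw [integral_const_mul, integral_sub, integral_finsetSum, integral_const_mul]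
        · congr 2
          refine Finset.sum_congr rfl fun l _ => ?_
          rw [integral_const_mul, integral_indicator (h.measurableSet_visitedBy y n),
            h.setIntegral_visitedBy hP hI y n (V l) (hVm l)]
        · intro l _
          exact ((hVint l y).indicator (h.measurableSet_visitedBy y n)).const_mul _
        · exact integrable_finsetSum _ fun l _ =>
            ((hVint l y).indicator (h.measurableSet_visitedBy y n)).const_mul _
        · exact (hvint n y).const_mul _
      · intro y _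
        refine Integrable.const_mul (Integrable.sub ?_ ?_) _
        · exact integrable_finsetSum _ fun l _ =>
            ((hVint l y).indicator (h.measurableSet_visitedBy y n)).const_mul _
        · exact (hvint n y).const_mul _
    have hd : ∑ y ∈ box d n, K y * ((∑ l, p l y * (μ.real (visitedBy X y n) *
          ∫ ω, V l (ω 0) ∂P)) - ε' / 2 * ∫ w, (visits (fun k => X k w) n y : ℝ) ∂μ) ≤
        - (K z * (ε' / 2) * ∫ w, (visits (fun k => X k w) n z : ℝ) ∂μ) := by
      have hterm : ∀ y ∈ box d n, K y * ((∑ l, p l y * (μ.real (visitedBy X y n) *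
          ∫ ω, V l (ω 0) ∂P)) - ε' / 2 * ∫ w, (visits (fun k => X k w) n y : ℝ) ∂μ) ≤
          - (K y * (ε' / 2) * ∫ w, (visits (fun k => X k w) n y : ℝ) ∂μ) := by
        intro y _
        have h1 : (∑ l, p l y * (μ.real (visitedBy X y n) * ∫ ω, V l (ω 0) ∂P)) ≤ 0 :=
          Finset.sum_nonpos fun l _ => mul_nonpos_of_nonneg_of_nonpos (hp0 l y)
            (mul_nonpos_of_nonneg_of_nonpos measureReal_nonneg (hV0 l))
        have h2 := mul_le_mul_of_nonneg_left h1 (hKpos y).le
        linarith
      refine (Finset.sum_le_sum hterm).trans ?_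
      rw [Finset.sum_neg_distrib, neg_le_neg_iff]
      refine Finset.single_le_sum (f := fun y => K y * (ε' / 2) *
        ∫ w, (visits (fun k => X k w) n y : ℝ) ∂μ) (fun y _ => ?_) hz
      refine mul_nonneg (mul_nonneg (hKpos y).le (by positivity)) (integral_nonneg fun w => ?_)
      exact Nat.cast_nonneg _
    rw [le_div_iff₀ (mul_pos (hKpos z) (by positivity))]
    linarith
  -- general n : enlarge
  obtain ⟨n0, hn0⟩ : ∃ n0, z ∈ box d n0 := by
    refine ⟨∑ l, (z l).natAbs, ?_⟩
    rw [mem_box]
    intro l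
    have : (z l).natAbs ≤ ∑ l, (z l).natAbs :=
      Finset.single_le_sum (f := fun l => (z l).natAbs) (fun _ _ => Nat.zero_le _)
        (Finset.mem_univ l)
    rw [Int.abs_eq_natAbs]
    exact_mod_cast this
  have hmono : ∫ w, (visits (fun k => X k w) n z : ℝ) ∂μ ≤
      ∫ w, (visits (fun k => X k w) (n + n0) z : ℝ) ∂μ := by
    refine integral_mono (hvint n z) (hvint (n + n0) z) fun w => ?_
    have hvm : visits (fun k => X k w) n z ≤ visits (fun k => X k w) (n + n0) z :=
      visits_mono (fun k => X k w) z (Nat.le_add_right n n0)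
    exact Nat.cast_le.mpr hvm
  refine hmono.trans (key (n + n0) ?_)
  rw [mem_box] at hn0 ⊢
  intro l
  refine (hn0 l).trans ?_
  push_cast
  linarith [Nat.cast_nonneg (α := ℤ) n]

/-- **Transience criterion.** -/
theorem IsERW.transient [IsProbabilityMeasure μ] [IsProbabilityMeasure P]
    (h : IsERW P μ env X)
    (hP : ∀ᵐ ω ∂P, IsCookieEnv ω) (hB : ∀ᵐ ω ∂P, IsBalanced ω) (hI : IID P)
    (lam : Fin d → ℝ) (hl : ∀ l, 0 < lam l) (ε : ℝ) (hε : 0 < ε)
    (V : Fin d → Stack d → ℝ) (hVm : ∀ l, Measurable (V l))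
    (hVi : ∀ l, Integrable (fun ω : Env d => V l (ω 0)) P)
    (hV0 : ∀ l, ∫ ω, V l (ω 0) ∂P ≤ 0)
    (hV : ∀ᵐ ω ∂P, ∀ l, ∀ j : ℕ, 1 ≤ j → ∑ i ∈ Finset.range j,
      (2 * (lam l * (2 * ω 0 (l, true) i)) - ∑ k, lam k * (2 * ω 0 (k, true) i) + ε) ≤
        V l (ω 0)) :
    Transient μ X := by
  have hfin : ∀ z : Site d, ∀ᵐ w ∂μ, {n | X n w = z}.Finite := by
    intro z
    obtain ⟨C, hC⟩ := h.exists_bound_visits hP hB hI lam hl ε hε V hVm hVi hV0 hV z
    have h1 : ∀ n, ∑ j ∈ Finset.range n, μ.real {w | X j w = z} ≤ C := by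
      intro n
      refine le_trans (le_of_eq ?_) (hC n)
      have h2 : ∀ w, (visits (fun k => X k w) n z : ℝ) =
          ∑ j ∈ Finset.range n, Set.indicator {w | X j w = z} (fun _ => (1 : ℝ)) w := by
        intro w
        unfold visits
        rw [Finset.card_filter]
        push_cast
        refine Finset.sum_congr rfl fun j _ => ?_
        simp only [Set.indicator_apply, Set.mem_ofPred_eq]
      simp_rw [h2]
      have hms : ∀ j, MeasurableSet {w | X j w = z} := fun j =>
        h.measurable_walk j (measurableSet_singleton z)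
      rw [integral_finsetSum _ fun j _ => (integrable_const (1 : ℝ)).indicator (hms j)]
      refine Finset.sum_congr rfl fun j _ => ?_
      rw [integral_indicator (hms j)]
      simp
    have h2 : Summable fun j => μ.real {w | X j w = z} :=
      summable_of_sum_range_le (fun j => measureReal_nonneg) h1
    have h3 : ∑' j, μ {w | X j w = z} ≠ ⊤ := by
      have h4 : ∀ j, μ {w | X j w = z} = ENNReal.ofReal (μ.real {w | X j w = z}) := fun j => by
        rw [measureReal_def, ENNReal.ofReal_toReal (measure_ne_top _ _)]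
      simp_rw [h4]
      exact h2.tsum_ofReal_ne_top
    filter_upwards [ae_finite_setOfPred_mem h3] with w hw
    exact hw
  have hall : ∀ᵐ w ∂μ, ∀ z : Site d, {n | X n w = z}.Finite := ae_all_iff.mpr hfin
  filter_upwards [hall] with w hw
  rw [tendsto_atTop]
  intro b
  have hfinb : (⋃ z ∈ box d ⌈b⌉₊, {n | X n w = z}).Finite :=
    Set.Finite.biUnion (Finset.finite_toSet _) fun z _ => hw z
  filter_upwards [hfinb.eventually_cofinite_notMem.filter_mono Nat.cofinite_eq_atTop.ge] with n hn
  by_contra hcon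
  push Not at hcon
  apply hn
  simp only [Set.mem_iUnion, Set.mem_ofPred_eq, exists_prop]
  refine ⟨X n w, ?_, rfl⟩
  rw [mem_box]
  intro l
  have h1 : ‖X n w l‖ ≤ ‖X n w‖ := norm_le_pi_norm _ l
  have h2 : |(X n w l : ℝ)| ≤ b := by
    have : ‖X n w l‖ = |(X n w l : ℝ)| := rfl
    rw [← this]
    exact (h1.trans_lt hcon).le
  have h3 : (|X n w l| : ℝ) ≤ (⌈b⌉₊ : ℝ) := h2.trans (Nat.le_ceil b)
  exact_mod_cast h3

end Pool.Agent.Helper99.ERW
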